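import Pool.Agent.U602.NA.Core
import Pool.Agent.U602.MS.Top

set_option autoImplicit false
set_option linter.unusedSectionVars false

/-! Sequences generated by invertible automata with memory, and their windows. -/

namespace Pool.Agent.U602.NA

open Finset
open Pool.Agent.U602.MS
open Pool.Agent.H469R2.NK (e norm_e e_add e_zero conj_e)

/-- the estimate for functions of the windows -/
def WP {ι : Type} (A : ι → Type) (q : ∀ i, ℕ → A i) : Prop :=
  ∀ (L : ℕ) (H : (∀ i, Fin L → A i) → ℂ) (ε : ℝ), 0 < ε → ∃ N₀ : ℕ, ∀ N, N₀ ≤ N →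
    ∀ (c : ι → ℕ) (θ : ℝ),
      ‖∑ n ∈ Ioc 0 N, mob n * H (fun i h => q i (n + c i + h)) * e (n * θ)‖ ≤ ε * N

section one

variable {d : ℕ}

/-- the transition over `t` digits -/
def tr (b k : ℕ) (δ : ℕ → Equiv.Perm (Fin d)) : ℕ → ℕ → Equiv.Perm (Fin d)
  | 0, _ => 1
  | t + 1, n => δ (n % b ^ k) * tr b k δ t (n / b)

lemma tr_zero (b k : ℕ) (δ : ℕ → Equiv.Perm (Fin d)) (t : ℕ) :
    tr b k δ t 0 = (δ 0) ^ t := by
  induction t with
  | zero => rfl
  | succ t ih =>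
    rw [tr, Nat.zero_mod, Nat.zero_div, ih, pow_succ']

lemma tr_cong (b k : ℕ) (δ : ℕ → Equiv.Perm (Fin d)) (t : ℕ) :
    ∀ n n' : ℕ, n % b ^ (t + k) = n' % b ^ (t + k) → tr b k δ t n = tr b k δ t n' := by
  induction t with
  | zero => intro n n' _; rfl
  | succ t ih =>
    intro n n' hn
    rw [tr, tr]
    have h1 : n % b ^ k = n' % b ^ k := by
      have hd : b ^ k ∣ b ^ (t + 1 + k) := pow_dvd_pow _ (by omega)
      rw [← Nat.mod_mod_of_dvd n hd, hn, Nat.mod_mod_of_dvd n' hd]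
    have h2 : (n / b) % b ^ (t + k) = (n' / b) % b ^ (t + k) := by
      have hh : ∀ n : ℕ, (n / b) % b ^ (t + k) = (n % b ^ (t + 1 + k)) / b := by
        intro n
        rw [show t + 1 + k = (t + k) + 1 by ring, pow_succ', Nat.mod_mul_right_div_self]
      rw [hh, hh, hn]
    rw [h1, ih _ _ h2]

lemma tr_state {b k : ℕ} {δ : ℕ → Equiv.Perm (Fin d)} {p : ℕ → Fin d}
    (hp : ∀ n, p n = δ (n % b ^ k) (p (n / b))) (t : ℕ) :
    ∀ n, p n = tr b k δ t n (p (n / b ^ t)) := by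
  induction t with
  | zero => intro n; simp [tr]
  | succ t ih =>
    intro n
    rw [tr, Equiv.Perm.mul_apply, pow_succ', ← Nat.div_div_eq_div_mul, ← ih]
    exact hp n

/-- the group-valued function -/
def gs (b k : ℕ) (δ : ℕ → Equiv.Perm (Fin d)) (j : ℕ) (hB : 2 ≤ b ^ j) : ℕ → Equiv.Perm (Fin d)
  | 0 => 1
  | n + 1 => tr b k δ j (n + 1) * gs b k δ j hB ((n + 1) / b ^ j)
termination_by n => n
decreasing_by exact Nat.div_lt_self (Nat.succ_pos n) hB

lemma gs_rec {b k : ℕ} {δ : ℕ → Equiv.Perm (Fin d)} {j : ℕ} (hB : 2 ≤ b ^ j)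
    (h0 : (δ 0) ^ j = 1) (n : ℕ) :
    gs b k δ j hB n = tr b k δ j n * gs b k δ j hB (n / b ^ j) := by
  rcases n with _ | n
  · rw [Nat.zero_div, tr_zero, h0, one_mul]
  · rw [gs]

lemma gs_state {b k : ℕ} {δ : ℕ → Equiv.Perm (Fin d)} {p : ℕ → Fin d}
    (hp : ∀ n, p n = δ (n % b ^ k) (p (n / b))) {j : ℕ} (hB : 2 ≤ b ^ j) :
    ∀ n, p n = gs b k δ j hB n (p 0) := by
  intro n
  induction n using Nat.strong_induction_on with
  | _ n ih =>
    rcases n with _ | n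
    · rw [gs]; rfl
    · rw [gs, Equiv.Perm.mul_apply, ← ih _ (Nat.div_lt_self (Nat.succ_pos n) hB)]
      exact tr_state hp j _

/-- every such sequence is a function of a group-valued block-digital function -/
lemma exists_group {b k : ℕ} (hb : 2 ≤ b) {δ : ℕ → Equiv.Perm (Fin d)} {p : ℕ → Fin d}
    (hp : ∀ n, p n = δ (n % b ^ k) (p (n / b))) :
    ∃ (j k' : ℕ) (S w : ℕ → Equiv.Perm (Fin d)), 2 ≤ b ^ j ∧ 1 ≤ k' ∧
      (∀ n, S n = w (n % (b ^ j) ^ k') * S (n / b ^ j)) ∧ ∀ n, p n = S n (p 0) := by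
  set j := orderOf (δ 0) with hj
  have hj1 : 1 ≤ j := orderOf_pos (δ 0)
  have h0 : (δ 0) ^ j = 1 := pow_orderOf_eq_one _
  have hB : 2 ≤ b ^ j := by
    calc 2 ≤ b := hb
      _ = b ^ 1 := (pow_one b).symm
      _ ≤ b ^ j := Nat.pow_le_pow_right (by omega) hj1
  refine ⟨j, k + 1, gs b k δ j hB, tr b k δ j, hB, Nat.le_add_left _ _, fun n => ?_,
    gs_state hp hB⟩
  rw [gs_rec hB h0 n]
  congr 1
  refine tr_cong b k δ j _ _ ?_
  have hd : b ^ (j + k) ∣ (b ^ j) ^ (k + 1) := by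
    rw [← pow_mul]
    refine pow_dvd_pow _ ?_
    have : k ≤ j * k := Nat.le_mul_of_pos_left k hj1
    rw [mul_add, mul_one]
    omega
  rw [Nat.mod_mod_of_dvd n hd]

end one

variable {ι : Type} [Fintype ι] [DecidableEq ι]

theorem wp_invertible (a : ι → ℕ) (b : ι → ℕ) (hb : ∀ i, 2 ≤ b i)
    (hcop : ∀ i j, i ≠ j → (b i).Coprime (b j)) (q : ∀ i, ℕ → Fin (a i))
    (hq : ∀ i, ∃ (k d : ℕ) (δ : ℕ → Equiv.Perm (Fin d)) (p : ℕ → Fin d) (f : Fin d → Fin (a i)),
      (∀ n, p n = δ (n % b i ^ k) (p (n / b i))) ∧ ∀ n, q i n = f (p n)) :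
    WP (fun i => Fin (a i)) q := by
  choose k d δ p f hp hf using hq
  choose j k' S w hB hk' hS hpS using fun i => exists_group (hb i) (hp i)
  have hcop' : ∀ i i', i ≠ i' → (b i ^ j i).Coprime (b i' ^ j i') := fun i i' h =>
    (hcop i i' h).pow _ _
  have hGP := gp_group (fun i => Equiv.Perm (Fin (d i))) (fun i => b i ^ j i) k' S w hB hk' hcop' hS
  intro L H ε hε
  obtain ⟨N₀, hN₀⟩ := windows (fun i => Equiv.Perm (Fin (d i))) (fun i => b i ^ j i) k' S w hB hk'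
    hS hGP L (fun x => H (fun i h => f i (x i h (p i 0)))) ε hε
  refine ⟨N₀, fun N hN c θ => ?_⟩
  have h1 := hN₀ N hN c θ
  have h2 : ∀ n, H (fun i h => q i (n + c i + h)) =
      H (fun i h => f i (S i (n + c i + h) (p i 0))) := by
    intro n
    congr 1
    funext i h
    rw [hf i, hpS i]
  simp only [h2]
  exact h1

end Pool.Agent.U602.NA
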