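import Pool.Agent.U602.NA.Contr

set_option autoImplicit false
set_option linter.unusedSectionVars false

/-! Bilinear sums for one base. -/

namespace Pool.Agent.U602.NA

open Finset
open Pool.Agent.U602.MS (WG WG_cong WG_per S_window window cong pts)
open Pool.Agent.H469R2.NK (e norm_e e_add e_zero conj_e)
open Pool.Agent.TH915.PW (e_int sum_char e_sub sum_blocks)

section

variable {G : Type} [Group G] [Fintype G] [DecidableEq G]

/-- zero average over the cosets of the subgroup -/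
def ZA (b k : ℕ) (T : ℕ → G) (ψ : G → ℂ) : Prop := ∀ g, ∑ n ∈ nf b k T, ψ (g * n) = 0

/-- the vector of two functions -/
noncomputable def xi (ψ ψ' : G → ℂ) : EG G :=
  WithLp.toLp 2 (fun x => ψ x.1⁻¹ * (starRingEnd ℂ) (ψ' x.2⁻¹))

lemma xi_apply (ψ ψ' : G → ℂ) (x : G × G) : xi ψ ψ' x = ψ x.1⁻¹ * (starRingEnd ℂ) (ψ' x.2⁻¹) := rfl

lemma norm_xi (ψ ψ' : G → ℂ) (h : ∀ g, ‖ψ g‖ ≤ 1) (h' : ∀ g, ‖ψ' g‖ ≤ 1) :
    ‖xi ψ ψ'‖ ≤ Fintype.card G := by
  rw [EuclideanSpace.norm_eq]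
  apply Real.sqrt_le_iff.2
  refine ⟨Nat.cast_nonneg _, ?_⟩
  have h1 : ∀ x ∈ (univ : Finset (G × G)), ‖xi ψ ψ' x‖ ^ 2 ≤ (1 : ℝ) := by
    intro x _
    rw [xi_apply, norm_mul, RCLike.norm_conj]
    have h2 : ‖ψ x.1⁻¹‖ * ‖ψ' x.2⁻¹‖ ≤ 1 := mul_le_one₀ (h _) (norm_nonneg _) (h' _)
    exact pow_le_one₀ (by positivity) h2
  refine (sum_le_card_nsmul _ _ _ h1).trans (le_of_eq ?_)
  rw [card_univ, Fintype.card_prod, nsmul_eq_mul, mul_one]
  push_cast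
  ring

lemma xi_avg {b k : ℕ} {T : ℕ → G} (ψ ψ' : G → ℂ) (hψ : ZA b k T ψ) (γ : G × G) :
    ∑ n ∈ nf b k T, L (n, (1 : G)) (L γ (xi ψ ψ')) = 0 := by
  have hN := NN_normal b k T
  ext x
  rw [WithLp.ofLp_sum, Finset.sum_apply]
  have h1 : ∀ n ∈ nf b k T, (L (n, (1 : G)) (L γ (xi ψ ψ'))) x =
      ψ (x.1⁻¹ * n * γ.1) * (starRingEnd ℂ) (ψ' (x.2⁻¹ * γ.2)) := by
    intro n _
    rw [L_apply, L_apply, xi_apply]
    simp [mul_assoc]
  rw [sum_congr rfl h1, ← sum_mul]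
  have h2 : ∑ n ∈ nf b k T, ψ (x.1⁻¹ * n * γ.1) = ∑ n ∈ nf b k T, ψ (x.1⁻¹ * γ.1 * n) := by
    refine sum_nbij' (fun n => γ.1⁻¹ * n * γ.1) (fun n => γ.1 * n * γ.1⁻¹) ?_ ?_ ?_ ?_ ?_
    · intro n hn
      rw [mem_nf] at hn ⊢
      have := hN.conj_mem n hn γ.1⁻¹
      rwa [inv_inv] at this
    · intro n hn
      rw [mem_nf] at hn ⊢
      exact hN.conj_mem n hn γ.1
    · intro n _
      group
    · intro n _
      group
    · intro n _
      congr 1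
      group
  rw [h2, hψ, zero_mul]
  rfl

variable {b k : ℕ} {T : ℕ → G} {p q : ℕ}

lemma VV_eval (ψ ψ' : G → ℂ) (X u v : ℕ) (θ : ℝ) :
    (VV b k T p q (xi ψ ψ') X u v θ) 1 = ∑ x ∈ range X, ψ (T (b ^ (k - 1) * p * x + u)) *
      (starRingEnd ℂ) (ψ' (T (b ^ (k - 1) * q * x + v))) * e (x * θ) := by
  unfold VV
  rw [WithLp.ofLp_sum, Finset.sum_apply]
  refine sum_congr rfl fun x _ => ?_
  rw [WithLp.ofLp_smul, Pi.smul_apply, L_apply, xi_apply, smul_eq_mul]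
  simp only [mul_one, Prod.fst_inv, Prod.snd_inv, inv_inv]
  ring

theorem single' (h : NT b k T) (hp : p.Prime) (hpb : ¬ p ∣ b) (hpb1 : ¬ p ∣ b - 1) (hp3 : 3 ≤ p)
    (hq : 0 < q) (hpq : ¬ p ∣ q) (ε : ℝ) (hε : 0 < ε) (m₁ : ℕ) :
    ∃ m ≥ m₁, ∀ (ψ ψ' : G → ℂ), (∀ g, ‖ψ g‖ ≤ 1) → (∀ g, ‖ψ' g‖ ≤ 1) → ZA b k T ψ →
      ∀ (u v : ℕ) (θ : ℝ), ‖∑ x ∈ range (b ^ m), ψ (T (p * x + u)) *
      (starRingEnd ℂ) (ψ' (T (q * x + v))) * e (x * θ)‖ ≤ ε * ((b ^ m : ℕ) : ℝ) := by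
  have hb := h.two
  obtain ⟨K, c, hc, hcon⟩ := contr' h hp hpb hpb1 hp3 hq hpq
  set R : ℝ := (Fintype.card G : ℝ) with hR
  have hR1 : 1 ≤ R := by
    rw [hR]
    exact_mod_cast Fintype.card_pos
  set D : ℝ := max 0 (((b ^ K : ℕ) : ℝ) - c) with hD
  have hD0 : 0 ≤ D := le_max_left _ _
  have hB : (0 : ℝ) < ((b ^ K : ℕ) : ℝ) := by
    have : 0 < b ^ K := by positivity
    exact_mod_cast this
  have hDB : D < ((b ^ K : ℕ) : ℝ) := max_lt hB (by linarith)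
  have hit : ∀ (ψ ψ' : G → ℂ), (∀ g, ‖ψ g‖ ≤ 1) → (∀ g, ‖ψ' g‖ ≤ 1) → ZA b k T ψ →
      ∀ (n : ℕ) (u v : ℕ) (θ : ℝ), ‖VV b k T p q (xi ψ ψ') ((b ^ K) ^ n) u v θ‖ ≤ D ^ n * R := by
    intro ψ ψ' h1 h2 h3 n
    induction n with
    | zero =>
      intro u v θ
      rw [pow_zero, pow_zero, one_mul]
      unfold VV
      rw [sum_range_one, norm_smul, norm_e, one_mul, LinearIsometryEquiv.norm_map]
      exact norm_xi ψ ψ' h1 h2
    | succ n ih =>
      intro u v θ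
      have h4 := hcon (xi ψ ψ') (xi_avg ψ ψ' h3) _ _ (by positivity) ih u v θ
      rw [pow_succ', pow_succ', mul_assoc]
      refine h4.trans ?_
      exact mul_le_mul_of_nonneg_right (le_max_right _ _) (by positivity)
  set ρ : ℝ := D / ((b ^ K : ℕ) : ℝ) with hρ
  have hρ0 : 0 ≤ ρ := by positivity
  have hρ1 : ρ < 1 := by rw [hρ, div_lt_one hB]; exact hDB
  obtain ⟨n₀, hn₀⟩ := exists_pow_lt_of_lt_one (show 0 < ε / R by positivity) hρ1
  have hK : 1 ≤ K ∨ K = 0 := by omega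
  -- if `K = 0` then `b ^ K = 1`, and we still can take larger powers
  set n : ℕ := max n₀ m₁ with hn
  rcases hK with hK | hK
  · refine ⟨(k - 1) + K * n, ?_, fun ψ ψ' h1 h2 h3 u v θ => ?_⟩
    · have : m₁ ≤ n := le_max_right _ _
      nlinarith
    have hρn : ρ ^ n * R ≤ ε := by
      have h4 : ρ ^ n ≤ ε / R :=
        le_trans (pow_le_pow_of_le_one hρ0 hρ1.le (le_max_left n₀ m₁)) hn₀.le
      rwa [le_div_iff₀ (by positivity)] at h4
    have e0 : b ^ ((k - 1) + K * n) = b ^ (k - 1) * b ^ (K * n) := pow_add _ _ _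
    rw [e0, sum_blocks, sum_comm]
    refine (norm_sum_le _ _).trans ?_
    have h4 : ∀ z ∈ range (b ^ (k - 1)), ‖∑ m ∈ range (b ^ (K * n)),
        ψ (T (p * (b ^ (k - 1) * m + z) + u)) *
          (starRingEnd ℂ) (ψ' (T (q * (b ^ (k - 1) * m + z) + v))) *
          e (((b ^ (k - 1) * m + z : ℕ) : ℝ) * θ)‖ ≤ D ^ n * R := by
      intro z _
      have e1 : ∑ m ∈ range (b ^ (K * n)),
          ψ (T (p * (b ^ (k - 1) * m + z) + u)) *
            (starRingEnd ℂ) (ψ' (T (q * (b ^ (k - 1) * m + z) + v))) *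
          e (((b ^ (k - 1) * m + z : ℕ) : ℝ) * θ) =
          e (z * θ) * (VV b k T p q (xi ψ ψ') ((b ^ K) ^ n) (p * z + u) (q * z + v)
            (((b ^ (k - 1) : ℕ) : ℝ) * θ)) 1 := by
        rw [VV_eval, mul_sum, ← pow_mul]
        refine sum_congr rfl fun m _ => ?_
        have e2 : e (((b ^ (k - 1) * m + z : ℕ) : ℝ) * θ) =
            e (z * θ) * e (m * (((b ^ (k - 1) : ℕ) : ℝ) * θ)) := by
          rw [← e_add]
          congr 1
          push_cast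
          ring
        rw [e2, show p * (b ^ (k - 1) * m + z) + u = b ^ (k - 1) * p * m + (p * z + u) by ring,
          show q * (b ^ (k - 1) * m + z) + v = b ^ (k - 1) * q * m + (q * z + v) by ring]
        ring
      rw [e1, norm_mul, norm_e, one_mul]
      exact (PiLp.norm_apply_le _ _).trans (hit ψ ψ' h1 h2 h3 n _ _ _)
    refine (sum_le_card_nsmul _ _ _ h4).trans ?_
    rw [card_range, nsmul_eq_mul]
    have e3 : D ^ n = ρ ^ n * ((b ^ (K * n) : ℕ) : ℝ) := by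
      rw [hρ, div_pow, pow_mul]
      push_cast
      field_simp
    rw [e3]
    calc ((b ^ (k - 1) : ℕ) : ℝ) * (ρ ^ n * ((b ^ (K * n) : ℕ) : ℝ) * R)
        = (ρ ^ n * R) * (((b ^ (k - 1) : ℕ) : ℝ) * ((b ^ (K * n) : ℕ) : ℝ)) := by ring
      _ ≤ ε * (((b ^ (k - 1) : ℕ) : ℝ) * ((b ^ (K * n) : ℕ) : ℝ)) := by gcongr
      _ = _ := by push_cast; ring
  · -- the sums of length one are zero after iteration
    refine ⟨m₁, le_rfl, fun ψ ψ' h1 h2 h3 u v θ => ?_⟩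
    subst hK
    have hz : ∀ (u v : ℕ) (θ : ℝ), VV b k T p q (xi ψ ψ') 1 u v θ = 0 := by
      intro u v θ
      have hlim : Filter.Tendsto (fun n : ℕ => D ^ n * R) Filter.atTop (nhds (0 * R)) := by
        apply Filter.Tendsto.mul_const
        apply tendsto_pow_atTop_nhds_zero_of_lt_one hD0
        simpa using hDB
      rw [zero_mul] at hlim
      have h5 : ∀ n, ‖VV b k T p q (xi ψ ψ') 1 u v θ‖ ≤ D ^ n * R := by
        intro n
        have := hit ψ ψ' h1 h2 h3 n u v θ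
        simpa using this
      have h6 : ‖VV b k T p q (xi ψ ψ') 1 u v θ‖ ≤ 0 := ge_of_tendsto' hlim h5
      exact norm_le_zero_iff.1 h6
    have hz2 : ∀ u v : ℕ, ψ (T u) * (starRingEnd ℂ) (ψ' (T v)) = 0 := by
      intro u v
      have h5 := VV_eval (b := b) (k := k) (T := T) (p := p) (q := q) ψ ψ' 1 u v 0
      rw [hz, sum_range_one, mul_zero, mul_zero, zero_add, zero_add] at h5
      rw [show ((0 : ℕ) : ℝ) * (0 : ℝ) = 0 by norm_num, e_zero, mul_one] at h5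
      exact h5.symm
    rw [sum_eq_zero (fun x _ => by rw [hz2, zero_mul]), norm_zero]
    positivity

end

end Pool.Agent.U602.NA
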