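import Pool.Agent.U602.NA.Vdc
import Pool.Agent.U602.NA.Single

set_option autoImplicit false
set_option linter.unusedSectionVars false

/-! Bilinear sums of products. -/

namespace Pool.Agent.U602.NA

open Finset
open Pool.Agent.U602.MS (WG WG_cong WG_per S_window corr_blocks)
open Pool.Agent.H469R2.NK (e norm_e e_add e_zero conj_e)
open Pool.Agent.TH915.PW (e_int sum_char e_sub sum_blocks)

section

variable {G : Type} [Group G] [Fintype G]

/-- the correlations of a function with its translates -/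
noncomputable def kap (ψ : G → ℂ) (a : G) : ℂ :=
  (1 / (Fintype.card G : ℂ)) * ∑ g, ψ (a * g) * (starRingEnd ℂ) (ψ g)

lemma card_pos' : (0 : ℝ) < Fintype.card G := by exact_mod_cast Fintype.card_pos

lemma kap_norm (ψ : G → ℂ) (hψ : ∀ g, ‖ψ g‖ ≤ 1) (a : G) : ‖kap ψ a‖ ≤ 1 := by
  unfold kap
  rw [norm_mul, norm_div, norm_one, Complex.norm_natCast, one_div, inv_mul_le_iff₀ card_pos',
    mul_one]
  refine (norm_sum_le _ _).trans ((sum_le_card_nsmul _ _ 1 fun g _ => ?_).trans ?_)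
  · rw [norm_mul, RCLike.norm_conj]
    exact mul_le_one₀ (hψ _) (norm_nonneg _) (hψ _)
  · rw [card_univ, nsmul_eq_mul, mul_one]

lemma kap_eq (ψ : G → ℂ) (a a' : G) :
    (1 / (Fintype.card G : ℂ)) * ∑ g, ψ (a' * g) * (starRingEnd ℂ) (ψ (a * g)) =
      kap ψ (a' * a⁻¹) := by
  unfold kap
  congr 1
  refine Fintype.sum_equiv (Equiv.mulLeft a) _ _ fun g => ?_
  simp only [Equiv.coe_mulLeft]
  rw [mul_assoc, inv_mul_cancel_left]

/-- the correlation of the bilinear expression -/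
noncomputable def FF (ψ : G → ℂ) (T : ℕ → G) (p q u v l x : ℕ) : ℂ :=
  kap ψ (T (p * (x + l) + u) * (T (p * x + u))⁻¹) *
    (starRingEnd ℂ) (kap ψ (T (q * (x + l) + v) * (T (q * x + v))⁻¹))

/-- its periodic model -/
noncomputable def PP (b : ℕ) (ψ : G → ℂ) (T : ℕ → G) (M p q u v l x : ℕ) : ℂ :=
  kap ψ (WG b T M (p * x + u + p * l) * (WG b T M (p * x + u))⁻¹) *
    (starRingEnd ℂ) (kap ψ (WG b T M (q * x + v + q * l) * (WG b T M (q * x + v))⁻¹))

lemma FF_norm (ψ : G → ℂ) (hψ : ∀ g, ‖ψ g‖ ≤ 1) (T : ℕ → G) (p q u v l x : ℕ) :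
    ‖FF ψ T p q u v l x‖ ≤ 1 := by
  unfold FF
  rw [norm_mul, RCLike.norm_conj]
  exact mul_le_one₀ (kap_norm ψ hψ _) (norm_nonneg _) (kap_norm ψ hψ _)

lemma PP_norm (b : ℕ) (ψ : G → ℂ) (hψ : ∀ g, ‖ψ g‖ ≤ 1) (T : ℕ → G) (M p q u v l x : ℕ) :
    ‖PP b ψ T M p q u v l x‖ ≤ 1 := by
  unfold PP
  rw [norm_mul, RCLike.norm_conj]
  exact mul_le_one₀ (kap_norm ψ hψ _) (norm_nonneg _) (kap_norm ψ hψ _)

lemma PP_per {b k : ℕ} {T : ℕ → G} (h : NT b k T) (ψ : G → ℂ) (M p q u v l x : ℕ) :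
    PP b ψ T M p q u v l (x + b ^ (M + (k - 1))) = PP b ψ T M p q u v l x := by
  unfold PP
  have e1 : p * (x + b ^ (M + (k - 1))) + u = (p * x + u) + b ^ (M + (k - 1)) * p := by ring
  have e2 : p * (x + b ^ (M + (k - 1))) + u + p * l = (p * x + u + p * l) +
    b ^ (M + (k - 1)) * p := by ring
  have e3 : q * (x + b ^ (M + (k - 1))) + v = (q * x + v) + b ^ (M + (k - 1)) * q := by ring
  have e4 : q * (x + b ^ (M + (k - 1))) + v + q * l = (q * x + v + q * l) +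
    b ^ (M + (k - 1)) * q := by ring
  rw [e2, e1, e4, e3, WG_per (w := T) h.two h.one h.dig M _ _ (Dvd.intro _ rfl),
    WG_per (w := T) h.two h.one h.dig M _ _ (Dvd.intro _ rfl),
    WG_per (w := T) h.two h.one h.dig M _ _ (Dvd.intro _ rfl),
    WG_per (w := T) h.two h.one h.dig M _ _ (Dvd.intro _ rfl)]

lemma FF_eq {b k : ℕ} {T : ℕ → G} (h : NT b k T) (ψ : G → ℂ) (M p q u v l x : ℕ)
    (h1 : (p * x + u) % b ^ M + p * l < b ^ M) (h2 : (q * x + v) % b ^ M + q * l < b ^ M) :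
    FF ψ T p q u v l x = PP b ψ T M p q u v l x := by
  unfold FF PP
  rw [show p * (x + l) + u = p * x + u + p * l by ring,
    show q * (x + l) + v = q * x + v + q * l by ring, S_window (S := T) h.two M _ _ h1,
    S_window (S := T) h.two M _ _ h2, mul_inv_cancel_right, mul_inv_cancel_right]

lemma FF_sum (ψ : G → ℂ) (T : ℕ → G) (p q u v l x : ℕ) :
    FF ψ T p q u v l x = (1 / (Fintype.card G : ℂ)) * (1 / (Fintype.card G : ℂ)) *
      ∑ g, ∑ h, (ψ (T (p * (x + l) + u) * g) * (starRingEnd ℂ) (ψ (T (q * (x + l) + v) * h))) *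
        (starRingEnd ℂ) (ψ (T (p * x + u) * g) * (starRingEnd ℂ) (ψ (T (q * x + v) * h))) := by
  unfold FF
  rw [← kap_eq, ← kap_eq, map_mul, map_sum]
  have h1 : (starRingEnd ℂ) (1 / (Fintype.card G : ℂ)) = 1 / (Fintype.card G : ℂ) := by
    rw [map_div₀, map_one, map_natCast]
  rw [h1, mul_mul_mul_comm, sum_mul_sum]
  congr 1
  refine sum_congr rfl fun g _ => sum_congr rfl fun h _ => ?_
  simp only [map_mul, Complex.conj_conj]
  ring

variable [DecidableEq G]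

lemma ZA_right {b k : ℕ} {T : ℕ → G} {ψ : G → ℂ} (hZ : ZA b k T ψ) (a : G) :
    ZA b k T (fun g => ψ (g * a)) := by
  intro g
  have hN := NN_normal b k T
  have h2 : ∑ n ∈ nf b k T, ψ (g * n * a) = ∑ n ∈ nf b k T, ψ (g * a * n) := by
    refine sum_nbij' (fun n => a⁻¹ * n * a) (fun n => a * n * a⁻¹) ?_ ?_ ?_ ?_ ?_
    · intro n hn
      rw [mem_nf] at hn ⊢
      have := hN.conj_mem n hn a⁻¹
      rwa [inv_inv] at this
    · intro n hn
      rw [mem_nf] at hn ⊢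
      exact hN.conj_mem n hn a
    · intro n _
      group
    · intro n _
      group
    · intro n _
      congr 1
      group
  rw [h2]
  exact hZ _

end

variable {ι : Type} [Fintype ι] [DecidableEq ι]

theorem bil' (G : ι → Type) [∀ i, Group (G i)] [∀ i, Fintype (G i)] [∀ i, DecidableEq (G i)]
    (b k : ι → ℕ) (T : ∀ i, ℕ → G i) (h : ∀ i, NT (b i) (k i) (T i))
    (hcop : ∀ i j, i ≠ j → (b i).Coprime (b j)) (i₀ : ι)
    (p q : ℕ) (hpp : p.Prime) (hqp : q.Prime) (hp3 : 3 ≤ p) (hpq : p ≠ q)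
    (hp : ∀ i, ¬ p ∣ b i) (hq : ∀ i, ¬ q ∣ b i) (hp1 : ¬ p ∣ b i₀ - 1)
    (ψ : ∀ i, G i → ℂ) (hψ : ∀ i g, ‖ψ i g‖ ≤ 1) (hZ : ZA (b i₀) (k i₀) (T i₀) (ψ i₀))
    (ε : ℝ) (hε : 0 < ε) :
    ∃ N : ℕ, 1 ≤ N ∧ ∀ (u v : ι → ℕ) (θ : ℝ),
      ‖∑ x ∈ range N, (∏ i, (ψ i (T i (p * x + u i)) *
        (starRingEnd ℂ) (ψ i (T i (q * x + v i))))) * e (x * θ)‖ ≤ ε * N := by
  have hb : ∀ i, 2 ≤ b i := fun i => (h i).two
  have hcp : ∀ i, p.Coprime (b i) := fun i => (Nat.Prime.coprime_iff_not_dvd hpp).2 (hp i)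
  have hcq : ∀ i, q.Coprime (b i) := fun i => (Nat.Prime.coprime_iff_not_dvd hqp).2 (hq i)
  have hpnq : ¬ p ∣ q := by
    intro hd
    exact hpq ((Nat.prime_dvd_prime_iff_eq hpp hqp).1 hd)
  -- the index set
  set A : ℝ := (Fintype.card ((∀ i, G i) × (∀ i, G i)) : ℝ) with hA
  have hA1 : 1 ≤ A := by
    rw [hA]
    exact_mod_cast (Fintype.card_pos : 0 < Fintype.card ((∀ i, G i) × (∀ i, G i)))
  have hApos : 0 < A := by linarith
  set δ : ℝ := ε / A with hδ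
  have hδ0 : 0 < δ := by positivity
  -- the short sums
  obtain ⟨t₀, ht₀⟩ := exists_nat_ge (16 / δ ^ 2)
  obtain ⟨m, hmt, hm⟩ := single' (h i₀) hpp (hp i₀) hp1 hp3 hqp.pos hpnq
    (δ ^ 2 / 64) (by positivity) t₀
  set B : ℕ := b i₀ ^ m with hB
  have hBpos : 0 < B := by have := hb i₀; positivity
  have hBR : (0 : ℝ) < B := by exact_mod_cast hBpos
  have hBt : 16 / δ ^ 2 ≤ (B : ℝ) := by
    have h1 : t₀ ≤ B := hmt.trans (Nat.lt_pow_self (by have := hb i₀; omega)).le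
    exact ht₀.trans (by exact_mod_cast h1)
  -- the moduli
  set s : ℝ := (Fintype.card ι : ℝ) with hs
  have hs1 : 1 ≤ s := by
    have h1 : 1 ≤ Fintype.card ι := Fintype.card_pos_iff.2 ⟨i₀⟩
    rw [hs]
    exact_mod_cast h1
  obtain ⟨M, hM⟩ := exists_nat_ge (((p : ℝ) + q) * B ^ 2 * s * 64 / δ ^ 2 + 64 * B ^ 2 / δ ^ 2 + m)
  have hpos1 : 0 ≤ ((p : ℝ) + q) * B ^ 2 * s * 64 / δ ^ 2 := by positivity
  have hpos2 : 0 ≤ 64 * (B : ℝ) ^ 2 / δ ^ 2 := by positivity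
  have hMm : m ≤ M := by
    have : (m : ℝ) ≤ M := by linarith
    exact_mod_cast this
  have hbM : ∀ i, (M : ℝ) ≤ ((b i ^ M : ℕ) : ℝ) := by
    intro i
    have : M ≤ b i ^ M := (Nat.lt_pow_self (by have := hb i; omega)).le
    exact_mod_cast this
  set N : ℕ := ∏ i, b i ^ (M + (k i - 1)) with hN
  have hNpos : 0 < N := prod_pos fun i _ => by have := hb i; positivity
  have hNR : (0 : ℝ) < N := by exact_mod_cast hNpos
  have hMN : (M : ℝ) ≤ N := by
    have h1 : b i₀ ^ M ≤ N := by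
      have h2 : b i₀ ^ (M + (k i₀ - 1)) ∣ N := dvd_prod_of_mem (fun i => b i ^ (M + (k i - 1)))
        (mem_univ i₀)
      refine le_trans ?_ (Nat.le_of_dvd hNpos h2)
      exact Nat.pow_le_pow_right (by have := hb i₀; omega) (by omega)
    refine (hbM i₀).trans ?_
    exact_mod_cast h1
  refine ⟨N, hNpos, fun u v θ => ?_⟩
  set y : (∀ i, G i) × (∀ i, G i) → ∀ i : ι, ℕ → ℂ := fun γ i x =>
    ψ i (T i (p * x + u i) * γ.1 i) * (starRingEnd ℂ) (ψ i (T i (q * x + v i) * γ.2 i)) with hy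
  have hy1 : ∀ γ i x, ‖y γ i x‖ ≤ 1 := by
    intro γ i x
    rw [hy]
    simp only
    rw [norm_mul, RCLike.norm_conj]
    exact mul_le_one₀ (hψ _ _) (norm_nonneg _) (hψ _ _)
  set z : (∀ i, G i) × (∀ i, G i) → ℕ → ℂ := fun γ x => (∏ i, y γ i x) * e (x * θ) with hz
  have hz1 : ∀ γ n, ‖z γ n‖ ≤ 1 := by
    intro γ n
    rw [hz]
    simp only
    rw [norm_mul, norm_e, mul_one, norm_prod]
    exact prod_le_one (fun i _ => norm_nonneg _) (fun i _ => hy1 γ i n)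
  have hvdc := vdcV z hz1 N B
  rw [← hA] at hvdc
  -- the correlations
  set F : ℕ → ι → ℕ → ℂ := fun l i x => FF (ψ i) (T i) p q (u i) (v i) l x with hF
  have hF1 : ∀ l i x, ‖F l i x‖ ≤ 1 := fun l i x => FF_norm (ψ i) (hψ i) _ _ _ _ _ _ _
  have hcard : ∏ i, ((Fintype.card (G i) : ℂ) * (Fintype.card (G i) : ℂ)) = (A : ℂ) := by
    rw [hA, Fintype.card_prod, Fintype.card_pi, prod_mul_distrib]
    push_cast
    rfl
  have hcor : ∀ l n, ∑ γ, z γ (n + l) * (starRingEnd ℂ) (z γ n) =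
      e (l * θ) * ((A : ℂ) * ∏ i, F l i n) := by
    intro l n
    have h1 : ∀ γ, z γ (n + l) * (starRingEnd ℂ) (z γ n) = e (l * θ) *
        ((∏ i, ψ i (T i (p * (n + l) + u i) * γ.1 i) *
            (starRingEnd ℂ) (ψ i (T i (p * n + u i) * γ.1 i))) *
          ∏ i, (starRingEnd ℂ) (ψ i (T i (q * (n + l) + v i) * γ.2 i)) *
            ψ i (T i (q * n + v i) * γ.2 i)) := by
      intro γ
      have h4 : e (((n + l : ℕ) : ℝ) * θ) * (starRingEnd ℂ) (e (n * θ)) = e (l * θ) := by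
        rw [← e_sub]
        congr 1
        push_cast
        ring
      rw [← h4, hz, hy]
      simp only
      rw [map_mul, map_prod, ← prod_mul_distrib]
      have h5 : ∀ i ∈ (univ : Finset ι), (starRingEnd ℂ) (ψ i (T i (p * n + u i) * γ.1 i) *
          (starRingEnd ℂ) (ψ i (T i (q * n + v i) * γ.2 i))) =
          (starRingEnd ℂ) (ψ i (T i (p * n + u i) * γ.1 i)) * ψ i (T i (q * n + v i) * γ.2 i) := by
        intro i _
        rw [map_mul, Complex.conj_conj]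
      rw [prod_congr rfl h5]
      rw [prod_mul_distrib, prod_mul_distrib, prod_mul_distrib, prod_mul_distrib,
        prod_mul_distrib]
      ring
    rw [sum_congr rfl (fun γ _ => h1 γ), ← mul_sum, Fintype.sum_prod_type]
    simp only
    congr 1
    have h2 : ∀ g : (∀ i, G i), ∑ g' : (∀ i, G i),
        (∏ i, ψ i (T i (p * (n + l) + u i) * g i) *
            (starRingEnd ℂ) (ψ i (T i (p * n + u i) * g i))) *
          ∏ i, (starRingEnd ℂ) (ψ i (T i (q * (n + l) + v i) * g' i)) *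
            ψ i (T i (q * n + v i) * g' i) =
        (∏ i, ψ i (T i (p * (n + l) + u i) * g i) *
            (starRingEnd ℂ) (ψ i (T i (p * n + u i) * g i))) *
          ∏ i, ∑ a : G i, (starRingEnd ℂ) (ψ i (T i (q * (n + l) + v i) * a)) *
            ψ i (T i (q * n + v i) * a) := by
      intro g
      rw [← mul_sum]
      congr 1
      rw [Finset.prod_univ_sum]
      rw [Fintype.piFinset_univ]
    rw [sum_congr rfl (fun g _ => h2 g), ← sum_mul]
    have h3 : ∑ g : (∀ i, G i), ∏ i, ψ i (T i (p * (n + l) + u i) * g i) *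
            (starRingEnd ℂ) (ψ i (T i (p * n + u i) * g i)) =
        ∏ i, ∑ a : G i, ψ i (T i (p * (n + l) + u i) * a) *
            (starRingEnd ℂ) (ψ i (T i (p * n + u i) * a)) := by
      rw [Finset.prod_univ_sum, Fintype.piFinset_univ]
    rw [h3, ← prod_mul_distrib, ← hcard, ← prod_mul_distrib]
    refine prod_congr rfl fun i _ => ?_
    have hci : (Fintype.card (G i) : ℂ) ≠ 0 := by
      have : Fintype.card (G i) ≠ 0 := Fintype.card_ne_zero
      exact_mod_cast this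
    rw [hF]
    simp only
    unfold FF
    rw [← kap_eq, ← kap_eq, map_mul, map_sum]
    have h6 : (starRingEnd ℂ) (1 / (Fintype.card (G i) : ℂ)) = 1 / (Fintype.card (G i) : ℂ) := by
      rw [map_div₀, map_one, map_natCast]
    rw [h6]
    have h7 : ∀ a ∈ (univ : Finset (G i)), (starRingEnd ℂ) (ψ i (T i (q * (n + l) + v i) * a) *
        (starRingEnd ℂ) (ψ i (T i (q * n + v i) * a))) =
        (starRingEnd ℂ) (ψ i (T i (q * (n + l) + v i) * a)) * ψ i (T i (q * n + v i) * a) := by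
      intro a _
      rw [map_mul, Complex.conj_conj]
    rw [sum_congr rfl h7]
    field_simp
  set P' : ℕ := ∏ i ∈ univ.erase i₀, b i ^ (M + (k i - 1)) with hP'
  have hNN : N = b i₀ ^ (M + (k i₀ - 1)) * P' :=
    (mul_prod_erase univ (fun i => b i ^ (M + (k i - 1))) (mem_univ i₀)).symm
  set Cl : ℕ → ℝ := fun l => ‖∑ x ∈ range (b i₀ ^ (M + (k i₀ - 1))), F l i₀ x‖ with hCl
  -- the sum of reciprocals
  have hrec : ((p : ℝ) + q) * B ^ 2 * ∑ i, 1 / ((b i ^ M : ℕ) : ℝ) ≤ δ ^ 2 / 64 := by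
    have hM0 : 0 < ((p : ℝ) + q) * B ^ 2 * s * 64 / δ ^ 2 := by
      have : (0 : ℝ) < p := by exact_mod_cast hpp.pos
      positivity
    have hM1 : ((p : ℝ) + q) * B ^ 2 * s * 64 / δ ^ 2 ≤ M := by
      have : (0 : ℝ) ≤ m := Nat.cast_nonneg _
      linarith
    have hMpos : (0 : ℝ) < M := lt_of_lt_of_le hM0 hM1
    have h1 : ∑ i, 1 / ((b i ^ M : ℕ) : ℝ) ≤ s * (1 / M) := by
      refine (sum_le_card_nsmul univ _ (1 / (M : ℝ)) fun i _ => ?_).trans ?_
      · exact one_div_le_one_div_of_le hMpos (hbM i)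
      · rw [card_univ, nsmul_eq_mul]
    have h2 : 0 ≤ ((p : ℝ) + q) * B ^ 2 := by positivity
    refine (mul_le_mul_of_nonneg_left h1 h2).trans ?_
    rw [div_le_iff₀ (by positivity)] at hM1
    rw [show ((p : ℝ) + q) * B ^ 2 * (s * (1 / M)) = ((p : ℝ) + q) * B ^ 2 * s / M by ring,
      div_le_iff₀ hMpos]
    linarith
  have hshift : ∀ l ∈ Ico 1 B, ‖∑ n ∈ range (N - l), ∏ i, F l i n‖ ≤
      (P' : ℝ) * Cl l + (4 * (N : ℝ) * ((p + q) * B) * ∑ i, 1 / ((b i ^ M : ℕ) : ℝ) + B) := by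
    intro l hl
    rw [mem_Ico] at hl
    have hlR : (l : ℝ) ≤ B := by exact_mod_cast hl.2.le
    have hprod1 : ∀ n, ‖∏ i, F l i n‖ ≤ 1 := by
      intro n
      rw [norm_prod]
      exact prod_le_one (fun i _ => norm_nonneg _) (fun i _ => hF1 l i n)
    have h6 := shift_gen b k hb hcop i₀ p q hcp hcq (fun _ => M) u v l (F l)
      (fun i x => PP (b i) (ψ i) (T i) M p q (u i) (v i) l x) (fun i x => hF1 l i x)
      (fun i x => PP_norm (b i) (ψ i) (hψ i) _ _ _ _ _ _ _ _)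
      (fun i n => PP_per (h i) (ψ i) _ _ _ _ _ _ _)
      (fun i x h1 h2 => FF_eq (h i) (ψ i) _ _ _ _ _ _ _ h1 h2)
    have h7 : ‖∑ n ∈ range N, ∏ i, F l i n‖ ≤ (P' : ℝ) * Cl l +
        4 * (N : ℝ) * ((p + q) * B) * ∑ i, 1 / ((b i ^ M : ℕ) : ℝ) := by
      refine h6.trans ?_
      have : 4 * (N : ℝ) * ((p + q) * l) * ∑ i, 1 / ((b i ^ M : ℕ) : ℝ) ≤
          4 * (N : ℝ) * ((p + q) * B) * ∑ i, 1 / ((b i ^ M : ℕ) : ℝ) := by gcongr
      exact add_le_add le_rfl this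
    have h8 : ‖∑ n ∈ range (N - l), ∏ i, F l i n‖ ≤ ‖∑ n ∈ range N, ∏ i, F l i n‖ + l := by
      rcases le_total l N with hlN | hlN
      · have e1 : ∑ n ∈ range N, ∏ i, F l i n =
            ∑ n ∈ range (N - l), ∏ i, F l i n +
            ∑ n ∈ range l, ∏ i, F l i (N - l + n) := by
          conv_lhs => rw [show N = (N - l) + l by omega]
          rw [sum_range_add]
        have e2 : ‖∑ n ∈ range l, ∏ i, F l i (N - l + n)‖ ≤ l := by
          refine (norm_sum_le _ _).trans ?_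
          refine (sum_le_card_nsmul _ _ 1 fun n _ => hprod1 _).trans ?_
          rw [card_range, nsmul_eq_mul, mul_one]
        have e3 : ∑ n ∈ range (N - l), ∏ i, F l i n =
            ∑ n ∈ range N, ∏ i, F l i n - ∑ n ∈ range l, ∏ i, F l i (N - l + n) := by
          rw [e1]; ring
        rw [e3]
        refine (norm_sub_le _ _).trans ?_
        linarith
      · rw [Nat.sub_eq_zero_of_le hlN, range_zero, sum_empty, norm_zero]
        positivity
    linarith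
  have hsumCl : ∑ l ∈ Ico 1 B, Cl l ≤
      2 * ((b i₀ ^ (M + (k i₀ - 1)) : ℕ) : ℝ) * (δ ^ 2 / 64 * B) := by
    obtain ⟨Tt, hT⟩ : B ∣ b i₀ ^ (M + (k i₀ - 1)) := pow_dvd_pow _ (by omega)
    have h2 : ∑ l ∈ Ico 1 B, Cl l ≤ ∑ l ∈ range B, Cl l := by
      apply sum_le_sum_of_subset_of_nonneg
      · intro l hl
        rw [mem_Ico] at hl
        rw [mem_range]
        omega
      · intro l _ _
        exact norm_nonneg _
    refine h2.trans ?_
    set c₀ : ℝ := (Fintype.card (G i₀) : ℝ) with hc₀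
    have hc₀pos : 0 < c₀ := card_pos'
    have h1 : ∀ g g' : G i₀, ∑ l ∈ range B, ‖∑ x ∈ range (B * Tt),
        (ψ i₀ (T i₀ (p * (x + l) + u i₀) * g) *
          (starRingEnd ℂ) (ψ i₀ (T i₀ (q * (x + l) + v i₀) * g'))) *
        (starRingEnd ℂ) (ψ i₀ (T i₀ (p * x + u i₀) * g) *
          (starRingEnd ℂ) (ψ i₀ (T i₀ (q * x + v i₀) * g')))‖ ≤
        2 * B * Tt * (δ ^ 2 / 64 * B) := by
      intro g g'
      refine corr_blocks (fun x => ψ i₀ (T i₀ (p * x + u i₀) * g) *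
        (starRingEnd ℂ) (ψ i₀ (T i₀ (q * x + v i₀) * g'))) (fun n => ?_) B Tt hBpos
        (δ ^ 2 / 64 * B) (fun y θ' => ?_)
      · rw [norm_mul, RCLike.norm_conj]
        exact mul_le_one₀ (hψ _ _) (norm_nonneg _) (hψ _ _)
      · have := hm (fun a => ψ i₀ (a * g)) (fun a => ψ i₀ (a * g')) (fun a => hψ _ _)
          (fun a => hψ _ _) (ZA_right hZ g) (p * (B * y) + u i₀) (q * (B * y) + v i₀) θ'
        refine le_trans (le_of_eq ?_) this
        congr 1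
        refine sum_congr rfl fun x _ => ?_
        rw [show p * (B * y + x) + u i₀ = p * x + (p * (B * y) + u i₀) by ring,
          show q * (B * y + x) + v i₀ = q * x + (q * (B * y) + v i₀) by ring]
    have h3 : ∀ l, Cl l ≤ (1 / c₀) * (1 / c₀) * ∑ g : G i₀, ∑ g' : G i₀,
        ‖∑ x ∈ range (B * Tt),
        (ψ i₀ (T i₀ (p * (x + l) + u i₀) * g) *
          (starRingEnd ℂ) (ψ i₀ (T i₀ (q * (x + l) + v i₀) * g'))) *
        (starRingEnd ℂ) (ψ i₀ (T i₀ (p * x + u i₀) * g) *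
          (starRingEnd ℂ) (ψ i₀ (T i₀ (q * x + v i₀) * g')))‖ := by
      intro l
      rw [hCl]
      simp only
      rw [hT, hF]
      simp only
      simp_rw [FF_sum]
      rw [← mul_sum, sum_comm]
      rw [norm_mul, norm_mul, norm_div, norm_one, Complex.norm_natCast, ← hc₀]
      refine mul_le_mul_of_nonneg_left ?_ (by positivity)
      refine (norm_sum_le _ _).trans (sum_le_sum fun g _ => ?_)
      rw [sum_comm]
      exact norm_sum_le _ _
    refine (sum_le_sum fun l _ => h3 l).trans ?_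
    rw [← mul_sum, sum_comm]
    have h4 : ∑ g : G i₀, ∑ l ∈ range B, ∑ g' : G i₀, ‖∑ x ∈ range (B * Tt),
        (ψ i₀ (T i₀ (p * (x + l) + u i₀) * g) *
          (starRingEnd ℂ) (ψ i₀ (T i₀ (q * (x + l) + v i₀) * g'))) *
        (starRingEnd ℂ) (ψ i₀ (T i₀ (p * x + u i₀) * g) *
          (starRingEnd ℂ) (ψ i₀ (T i₀ (q * x + v i₀) * g')))‖ ≤
        c₀ * (c₀ * (2 * B * Tt * (δ ^ 2 / 64 * B))) := by
      refine (sum_le_card_nsmul _ _ (c₀ * (2 * B * Tt * (δ ^ 2 / 64 * B))) fun g _ => ?_).trans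
        (le_of_eq ?_)
      · rw [sum_comm]
        refine (sum_le_card_nsmul _ _ _ fun g' _ => h1 g g').trans (le_of_eq ?_)
        rw [card_univ, nsmul_eq_mul]
      · rw [card_univ, nsmul_eq_mul]
    refine (mul_le_mul_of_nonneg_left h4 (by positivity)).trans (le_of_eq ?_)
    rw [hT]
    push_cast
    field_simp
  have hsum : ∑ l ∈ Ico 1 B, ‖∑ n ∈ range (N - l), ∏ i, F l i n‖ ≤
      (N : ℝ) * (δ ^ 2 / 32 * B) + (δ ^ 2 / 16 * N + B ^ 2) := by
    refine (sum_le_sum hshift).trans ?_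
    rw [sum_add_distrib, ← mul_sum, sum_const, Nat.card_Ico, nsmul_eq_mul]
    have h1 : (P' : ℝ) * ∑ l ∈ Ico 1 B, Cl l ≤ (N : ℝ) * (δ ^ 2 / 32 * B) := by
      calc (P' : ℝ) * ∑ l ∈ Ico 1 B, Cl l ≤
            P' * (2 * ((b i₀ ^ (M + (k i₀ - 1)) : ℕ) : ℝ) * (δ ^ 2 / 64 * B)) :=
            mul_le_mul_of_nonneg_left hsumCl (Nat.cast_nonneg _)
        _ = (N : ℝ) * (δ ^ 2 / 32 * B) := by
            rw [hNN]
            push_cast
            ring
    have h2 : ((B - 1 : ℕ) : ℝ) ≤ B := by exact_mod_cast Nat.sub_le _ _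
    have h3 : 0 ≤ 4 * (N : ℝ) * ((p + q) * B) * ∑ i, 1 / ((b i ^ M : ℕ) : ℝ) + B := by
      have : 0 ≤ ∑ i, 1 / ((b i ^ M : ℕ) : ℝ) := sum_nonneg fun i _ => by positivity
      positivity
    have h4 : ((B - 1 : ℕ) : ℝ) * (4 * (N : ℝ) * ((p + q) * B) * ∑ i, 1 / ((b i ^ M : ℕ) : ℝ) + B) ≤
        δ ^ 2 / 16 * N + B ^ 2 := by
      calc ((B - 1 : ℕ) : ℝ) * (4 * (N : ℝ) * ((p + q) * B) * ∑ i, 1 / ((b i ^ M : ℕ) : ℝ) + B)
          ≤ B * (4 * (N : ℝ) * ((p + q) * B) * ∑ i, 1 / ((b i ^ M : ℕ) : ℝ) + B) :=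
            mul_le_mul_of_nonneg_right h2 h3
        _ = 4 * N * (((p : ℝ) + q) * B ^ 2 * ∑ i, 1 / ((b i ^ M : ℕ) : ℝ)) + B ^ 2 := by ring
        _ ≤ 4 * N * (δ ^ 2 / 64) + B ^ 2 := by gcongr
        _ = _ := by ring
    linarith
  have hNB : 64 * (B : ℝ) ^ 2 / δ ^ 2 ≤ N := by
    have : (0 : ℝ) ≤ m := Nat.cast_nonneg _
    linarith
  have hB1 : (1 : ℝ) ≤ B := by exact_mod_cast hBpos
  have hNB2 : (B : ℝ) ^ 2 ≤ δ ^ 2 / 64 * N := by
    rw [div_le_iff₀ (by positivity)] at hNB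
    linarith
  -- the value at the identity
  have hval : ∑ x ∈ range N, (∏ i, (ψ i (T i (p * x + u i)) *
      (starRingEnd ℂ) (ψ i (T i (q * x + v i))))) * e (x * θ) =
      ∑ n ∈ range N, z (fun _ => 1, fun _ => 1) n := by
    refine sum_congr rfl fun x _ => ?_
    rw [hz, hy]
    simp only [mul_one]
  set S := ‖∑ n ∈ range N, z (fun _ => 1, fun _ => 1) n‖ with hS
  have hS0 : 0 ≤ S := norm_nonneg _
  have hSN : S ≤ N := by
    refine (norm_sum_le _ _).trans ?_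
    refine (sum_le_card_nsmul _ _ 1 fun n _ => hz1 _ n).trans ?_
    rw [card_range, nsmul_eq_mul, mul_one]
  rw [hval]
  show S ≤ ε * N
  by_cases hε1 : 1 ≤ ε
  · refine hSN.trans ?_
    nlinarith
  push Not at hε1
  have hδε : δ ≤ ε := by
    rw [hδ]
    exact div_le_self hε.le hA1
  have hδ1 : δ < 1 := by linarith
  have hBN : (B : ℝ) ≤ N := by
    have h1 : (B : ℝ) ≤ B ^ 2 := by nlinarith
    have h2 : δ ^ 2 / 64 * N ≤ N := by
      have : δ ^ 2 ≤ 1 := by nlinarith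
      nlinarith
    linarith
  have hSle : S ^ 2 ≤ ∑ γ, ‖∑ n ∈ range N, z γ n‖ ^ 2 :=
    single_le_sum (f := fun γ => ‖∑ n ∈ range N, z γ n‖ ^ 2) (fun γ _ => by positivity)
      (mem_univ ((fun _ => 1, fun _ => 1) : (∀ i, G i) × (∀ i, G i)))
  have hcorn : ∀ l, ‖∑ n ∈ range (N - l), ∑ γ, z γ (n + l) * (starRingEnd ℂ) (z γ n)‖ =
      A * ‖∑ n ∈ range (N - l), ∏ i, F l i n‖ := by
    intro l
    rw [sum_congr rfl (fun n _ => hcor l n), ← mul_sum, ← mul_sum, norm_mul, norm_e, one_mul,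
      norm_mul, Complex.norm_real, Real.norm_of_nonneg hApos.le]
  have hfin : (B : ℝ) * S ^ 2 ≤ B * (ε * N) ^ 2 := by
    have h0 : (B : ℝ) * S ^ 2 ≤ ((N : ℝ) + B) * (A * (N + 2 * ∑ l ∈ Ico 1 B,
        ‖∑ n ∈ range (N - l), ∏ i, F l i n‖)) := by
      refine le_trans (mul_le_mul_of_nonneg_left hSle hBR.le) (hvdc.trans (le_of_eq ?_))
      rw [sum_congr rfl (fun l _ => hcorn l), ← mul_sum]
      ring
    refine h0.trans ?_
    have h1 : (N : ℝ) + 2 * ∑ l ∈ Ico 1 B, ‖∑ n ∈ range (N - l), ∏ i, F l i n‖ ≤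
        N * (δ ^ 2 / 2 * B) := by
      have h2 : (1 : ℝ) ≤ δ ^ 2 / 16 * B := by
        rw [div_le_iff₀ (by positivity)] at hBt
        linarith
      have h3 : (N : ℝ) ≤ N * (δ ^ 2 / 16 * B) := by nlinarith
      have h4 : δ ^ 2 / 16 * N ≤ N * (δ ^ 2 / 16 * B) := by
        have : 0 ≤ δ ^ 2 / 16 * N := by positivity
        nlinarith
      have h5 : (B : ℝ) ^ 2 ≤ N * (δ ^ 2 / 64 * B) := by
        have : 0 ≤ δ ^ 2 / 64 * N := by positivity
        nlinarith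
      have e : (N : ℝ) * (δ ^ 2 / 2 * B) = 8 * (N * (δ ^ 2 / 16 * B)) := by ring
      have e2 : (N : ℝ) * (δ ^ 2 / 32 * B) = 1 / 2 * (N * (δ ^ 2 / 16 * B)) := by ring
      have e3 : (N : ℝ) * (δ ^ 2 / 64 * B) = 1 / 4 * (N * (δ ^ 2 / 16 * B)) := by ring
      rw [e]
      rw [e2] at hsum
      rw [e3] at h5
      have h6 : 0 ≤ (N : ℝ) * (δ ^ 2 / 16 * B) := by positivity
      linarith
    have h2 : 0 ≤ (N : ℝ) + 2 * ∑ l ∈ Ico 1 B, ‖∑ n ∈ range (N - l), ∏ i, F l i n‖ := by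
      positivity
    calc ((N : ℝ) + B) * (A * (N + 2 * ∑ l ∈ Ico 1 B, ‖∑ n ∈ range (N - l), ∏ i, F l i n‖))
        ≤ (2 * N) * (A * (N * (δ ^ 2 / 2 * B))) := by
          apply mul_le_mul (by linarith) (mul_le_mul_of_nonneg_left h1 hApos.le)
            (mul_nonneg hApos.le h2) (by positivity)
      _ = (A * δ) * δ * (B * N ^ 2) := by ring
      _ = ε * δ * (B * N ^ 2) := by
          rw [hδ, mul_div_cancel₀ _ hApos.ne']
      _ ≤ ε * ε * (B * N ^ 2) := by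
          apply mul_le_mul_of_nonneg_right _ (by positivity)
          exact mul_le_mul_of_nonneg_left hδε hε.le
      _ = B * (ε * N) ^ 2 := by ring
  have h10 : S ^ 2 ≤ (ε * N) ^ 2 := le_of_mul_le_mul_left hfin hBR
  exact (pow_le_pow_iff_left₀ hS0 (by positivity) two_ne_zero).1 h10

end Pool.Agent.U602.NA
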