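import Pool.Agent.U602.NA.Gap
import Pool.Agent.U602.MB.Corr

set_option autoImplicit false
set_option linter.unusedSectionVars false

/-! Contraction. -/

namespace Pool.Agent.U602.NA

open Finset
open Pool.Agent.U602.MS (WG WG_cong WG_per S_window window cong pts)
open Pool.Agent.H469R2.NK (e norm_e e_add e_zero conj_e)
open Pool.Agent.TH915.PW (e_int sum_char e_sub sum_blocks)

section

variable {G : Type} [Group G] [Fintype G] [DecidableEq G]

/-- the normal subgroup generated by the differences of the increments -/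
def NN (b k : ℕ) (T : ℕ → G) : Subgroup G :=
  Subgroup.normalClosure {d | ∃ n₁ n₂ : ℕ, n₁ % b ^ (k - 1) = n₂ % b ^ (k - 1) ∧
    d = (T (n₁ + 1) * (T n₁)⁻¹)⁻¹ * (T (n₂ + 1) * (T n₂)⁻¹)}

lemma NN_normal (b k : ℕ) (T : ℕ → G) : (NN b k T).Normal := Subgroup.normalClosure_normal

open Classical in
/-- the elements of the subgroup -/
noncomputable def nf (b k : ℕ) (T : ℕ → G) : Finset G := univ.filter (fun g => g ∈ NN b k T)

lemma mem_nf {b k : ℕ} {T : ℕ → G} (g : G) : g ∈ nf b k T ↔ g ∈ NN b k T := by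
  unfold nf
  simp

variable {b k : ℕ} {T : ℕ → G} {p q : ℕ}

theorem good_all (h : NT b k T) (hp : p.Prime) (hpb : ¬ p ∣ b) (hpb1 : ¬ p ∣ b - 1) (hp3 : 3 ≤ p)
    (hq : 0 < q) (hpq : ¬ p ∣ q) (a : G) (ha : a ∈ NN b k T) :
    ∃ K : ℕ, ∃ C : ℝ, 0 ≤ C ∧ ∀ (u v : ℕ) (z : ℂ) (ε : ℝ) (f : EG G),
      ‖z‖ = 1 → 0 ≤ ε → Near b k T p q K u v z ε f → rho f a ≤ C * ε := by
  have hb := h.two
  obtain ⟨K₀, C₀, hC₀, hcg⟩ := cg_uni (q := q) h hp hpb hpb1
  let GS : Subgroup G :=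
    { carrier := {a | ∃ K : ℕ, ∃ C : ℝ, 0 ≤ C ∧ ∀ (u v : ℕ) (z : ℂ) (ε : ℝ) (f : EG G),
        ‖z‖ = 1 → 0 ≤ ε → Near b k T p q K u v z ε f → rho f a ≤ C * ε}
      one_mem' := ⟨0, 0, le_rfl, fun u v z ε f _ _ _ => by rw [rho_one, zero_mul]⟩
      mul_mem' := by
        rintro x y ⟨K, C, hC, h1⟩ ⟨K', C', hC', h2⟩
        refine ⟨max K K', C + C', by positivity, fun u v z ε f hz hε hn => ?_⟩
        have a1 := h1 u v z ε f hz hε (near_mono hb (le_max_left _ _) hn)
        have a2 := h2 u v z ε f hz hε (near_mono hb (le_max_right _ _) hn)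
        have a3 := rho_mul f x y
        rw [add_mul]
        linarith
      inv_mem' := by
        rintro x ⟨K, C, hC, h1⟩
        refine ⟨K, C, hC, fun u v z ε f hz hε hn => ?_⟩
        rw [rho_inv]
        exact h1 u v z ε f hz hε hn }
  have hGSn : GS.Normal := by
    refine ⟨?_⟩
    rintro x ⟨K, C, hC, h1⟩ g
    refine ⟨max K K₀, C + C₀, by positivity, fun u v z ε f hz hε hn => ?_⟩
    have a1 := h1 u v z ε f hz hε (near_mono hb (le_max_left _ _) hn)
    have a2 := (hcg g⁻¹ u v z ε f hz hε (near_mono hb (le_max_right _ _) hn) x).1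
    rw [inv_inv] at a2
    rw [add_mul]
    linarith
  have hle : NN b k T ≤ GS := by
    refine Subgroup.normalClosure_le_normal ?_
    rintro _ ⟨n₁, n₂, h12, rfl⟩
    obtain ⟨K₁, h1⟩ := crossing_rel h hp hpb hp3 hq hpq n₁ n₂ h12
    refine ⟨max K₀ K₁, 2 + C₀, by positivity, fun u v z ε f hz hε hn => ?_⟩
    obtain ⟨g₀, h2⟩ := h1 u v z ε f hz (near_mono hb (le_max_right _ _) hn)
    have h3 := (hcg g₀ u v z ε f hz hε (near_mono hb (le_max_left _ _) hn)
      (g₀ * ((T (n₁ + 1) * (T n₁)⁻¹)⁻¹ * (T (n₂ + 1) * (T n₂)⁻¹)) * g₀⁻¹)).1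
    have e : g₀⁻¹ * (g₀ * ((T (n₁ + 1) * (T n₁)⁻¹)⁻¹ * (T (n₂ + 1) * (T n₂)⁻¹)) * g₀⁻¹) * g₀ =
        (T (n₁ + 1) * (T n₁)⁻¹)⁻¹ * (T (n₂ + 1) * (T n₂)⁻¹) := by group
    rw [e] at h3
    rw [add_mul]
    linarith
  exact hle ha

/-- no almost invariant vectors -/
theorem gap (h : NT b k T) (hp : p.Prime) (hpb : ¬ p ∣ b) (hpb1 : ¬ p ∣ b - 1) (hp3 : 3 ≤ p)
    (hq : 0 < q) (hpq : ¬ p ∣ q) :
    ∃ K : ℕ, ∃ C : ℝ, 0 ≤ C ∧ ∀ (u v : ℕ) (z : ℂ) (ε : ℝ) (f : EG G),
      ‖z‖ = 1 → 0 ≤ ε → Near b k T p q K u v z ε f → ∑ n ∈ nf b k T, L (n, (1 : G)) f = 0 →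
      ‖f‖ ≤ C * ε := by
  have hb := h.two
  have hall := fun (a : G) => (show ∃ K : ℕ, ∃ C : ℝ, 0 ≤ C ∧ (a ∈ NN b k T →
      ∀ (u v : ℕ) (z : ℂ) (ε : ℝ) (f : EG G),
      ‖z‖ = 1 → 0 ≤ ε → Near b k T p q K u v z ε f → rho f a ≤ C * ε) by
    by_cases ha : a ∈ NN b k T
    · obtain ⟨K, C, hC, h1⟩ := good_all h hp hpb hpb1 hp3 hq hpq a ha
      exact ⟨K, C, hC, fun _ => h1⟩
    · exact ⟨0, 0, le_rfl, fun h1 => absurd h1 ha⟩)
  choose K C hC hall using hall
  refine ⟨univ.sup K, ∑ a, C a, sum_nonneg fun a _ => hC a, fun u v z ε f hz hε hn h0 => ?_⟩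
  have h1 : ∀ n ∈ nf b k T, ‖f - L (n, (1 : G)) f‖ ≤ (∑ a, C a) * ε := by
    intro n hn'
    rw [norm_sub_rev]
    have h2 := hall n ((mem_nf n).1 hn') u v z ε f hz hε
      (near_mono hb (le_sup (f := K) (mem_univ n)) hn)
    unfold rho at h2
    refine h2.trans (mul_le_mul_of_nonneg_right ?_ hε)
    exact single_le_sum (f := C) (fun x _ => hC x) (mem_univ n)
  have h2 : ∑ n ∈ nf b k T, (f - L (n, (1 : G)) f) = ((nf b k T).card : ℂ) • f := by
    rw [sum_sub_distrib, h0, sub_zero, sum_const, Nat.cast_smul_eq_nsmul]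
  have h3 : ‖((nf b k T).card : ℂ) • f‖ ≤ (nf b k T).card * ((∑ a, C a) * ε) := by
    rw [← h2]
    refine (norm_sum_le _ _).trans ((sum_le_card_nsmul _ _ _ h1).trans (le_of_eq ?_))
    rw [nsmul_eq_mul]
  rw [norm_smul, Complex.norm_natCast] at h3
  have hpos : (0 : ℝ) < (nf b k T).card := by
    have : 0 < (nf b k T).card := card_pos.2 ⟨1, (mem_nf 1).2 (Subgroup.one_mem _)⟩
    exact_mod_cast this
  exact le_of_mul_le_mul_left h3 hpos

/-- the exponential sums with values in functions on `G × G` -/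
noncomputable def VV (b k : ℕ) (T : ℕ → G) (p q : ℕ) (ξ : EG G) (X u v : ℕ) (θ : ℝ) : EG G :=
  ∑ x ∈ range X, e (x * θ) • L (T (b ^ (k - 1) * p * x + u), T (b ^ (k - 1) * q * x + v)) ξ

lemma VV_avg (ξ : EG G) (hξ : ∀ γ, ∑ n ∈ nf b k T, L (n, (1 : G)) (L γ ξ) = 0) (X u v : ℕ) (θ : ℝ) :
    ∑ n ∈ nf b k T, L (n, (1 : G)) (VV b k T p q ξ X u v θ) = 0 := by
  unfold VV
  simp_rw [map_sum, map_smul]
  rw [sum_comm]
  refine sum_eq_zero fun x _ => ?_
  rw [← smul_sum, hξ, smul_zero]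

theorem contr' (h : NT b k T) (hp : p.Prime) (hpb : ¬ p ∣ b) (hpb1 : ¬ p ∣ b - 1) (hp3 : 3 ≤ p)
    (hq : 0 < q) (hpq : ¬ p ∣ q) :
    ∃ K : ℕ, ∃ c : ℝ, 0 < c ∧ ∀ ξ : EG G, (∀ γ, ∑ n ∈ nf b k T, L (n, (1 : G)) (L γ ξ) = 0) →
      ∀ (X : ℕ) (E : ℝ), 0 ≤ E → (∀ (u v : ℕ) (θ : ℝ), ‖VV b k T p q ξ X u v θ‖ ≤ E) →
      ∀ (u v : ℕ) (θ : ℝ), ‖VV b k T p q ξ (b ^ K * X) u v θ‖ ≤ ((b ^ K : ℕ) - c) * E := by
  have hb := h.two
  have hk := h.one
  obtain ⟨K, C, hC, hgap⟩ := gap h hp hpb hpb1 hp3 hq hpq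
  set β := b ^ (k - 1) with hβ
  set η : ℝ := min 1 (1 / (4 * (C + 1))) with hη
  have hη0 : 0 < η := lt_min one_pos (by positivity)
  have hη1 : η ≤ 1 := min_le_left _ _
  have hηC : C * (2 * η) ≤ 1 / 2 := by
    have h1 : η ≤ 1 / (4 * (C + 1)) := min_le_right _ _
    have h2 : C * (2 * η) ≤ C * (2 * (1 / (4 * (C + 1)))) := by gcongr
    refine h2.trans ?_
    rw [show C * (2 * (1 / (4 * (C + 1)))) = (C / (C + 1)) * (1 / 2) by field_simp; norm_num]
    have h3 : C / (C + 1) ≤ 1 := by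
      rw [div_le_one (by positivity)]
      linarith
    linarith
  refine ⟨K, η ^ 2 / 4, by positivity, fun ξ hξ X E hE0 hE u v θ => ?_⟩
  set W : ℕ → EG G := fun r => e (r * θ) • L (WG b T K (β * p * r + u), WG b T K (β * q * r + v))
    (VV b k T p q ξ X ((β * p * r + u) / b ^ K) ((β * q * r + v) / b ^ K)
      (((b ^ K : ℕ) : ℝ) * θ)) with hW
  have hWn : ∀ r, ‖W r‖ ≤ E := by
    intro r
    rw [hW]
    simp only
    rw [norm_smul, norm_e, one_mul, LinearIsometryEquiv.norm_map]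
    exact hE _ _ _
  have hsum : VV b k T p q ξ (b ^ K * X) u v θ = ∑ r ∈ range (b ^ K), W r := by
    unfold VV
    rw [sum_blocks, sum_comm]
    refine sum_congr rfl fun r _ => ?_
    rw [hW]
    simp only
    unfold VV
    rw [map_sum, smul_sum]
    refine sum_congr rfl fun m _ => ?_
    have e1 : T (β * p * (b ^ K * m + r) + u) = WG b T K (β * p * r + u) *
        T (β * p * m + (β * p * r + u) / b ^ K) := by
      have := star' (w := T) hb hk h.dig K (p * m) (β * p * r + u)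
      rw [← hβ] at this
      rw [show β * p * (b ^ K * m + r) + u = b ^ K * (β * (p * m)) + (β * p * r + u) by ring,
        this, show β * (p * m) = β * p * m by ring]
    have e2 : T (β * q * (b ^ K * m + r) + v) = WG b T K (β * q * r + v) *
        T (β * q * m + (β * q * r + v) / b ^ K) := by
      have := star' (w := T) hb hk h.dig K (q * m) (β * q * r + v)
      rw [← hβ] at this
      rw [show β * q * (b ^ K * m + r) + v = b ^ K * (β * (q * m)) + (β * q * r + v) by ring,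
        this, show β * (q * m) = β * q * m by ring]
    have e3 : e (((b ^ K * m + r : ℕ) : ℝ) * θ) = e (r * θ) * e (m * (((b ^ K : ℕ) : ℝ) * θ)) := by
      rw [← e_add]
      congr 1
      push_cast
      ring
    rw [← hβ, e1, e2, e3, map_smul, ← L_mul, Prod.mk_mul_mk, smul_smul]
  have hstep : ∀ r, (β * p * r + u) / b ^ K = (β * p * (r + 1) + u) / b ^ K →
      (β * q * r + v) / b ^ K = (β * q * (r + 1) + v) / b ^ K →
      W (r + 1) = e θ • L (T (β * p * (r + 1) + u) * (T (β * p * r + u))⁻¹,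
        T (β * q * (r + 1) + v) * (T (β * q * r + v))⁻¹) (W r) := by
    intro r h1 h2
    rw [hW]
    simp only
    rw [map_smul, ← L_mul, Prod.mk_mul_mk, smul_smul, ← h1, ← h2]
    have e1 : T (β * p * (r + 1) + u) * (T (β * p * r + u))⁻¹ * WG b T K (β * p * r + u) =
        WG b T K (β * p * (r + 1) + u) := by
      unfold WG
      rw [h1]
      group
    have e2 : T (β * q * (r + 1) + v) * (T (β * q * r + v))⁻¹ * WG b T K (β * q * r + v) =
        WG b T K (β * q * (r + 1) + v) := by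
      unfold WG
      rw [h2]
      group
    have e3 : e (((r + 1 : ℕ) : ℝ) * θ) = e θ * e (r * θ) := by
      rw [← e_add]
      congr 1
      push_cast
      ring
    rw [e1, e2, e3]
  rw [hsum]
  by_contra hcon
  push Not at hcon
  have hBpos : 0 < b ^ K := by positivity
  have hB1 : (1 : ℝ) ≤ ((b ^ K : ℕ) : ℝ) := by exact_mod_cast hBpos
  have hEpos : 0 < E := by
    rcases hE0.lt_or_eq with h1 | h1
    · exact h1
    · exfalso
      rw [← h1, mul_zero] at hcon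
      have h2 : ‖∑ r ∈ range (b ^ K), W r‖ ≤ 0 := by
        refine (norm_sum_le _ _).trans ?_
        refine sum_nonpos fun r _ => ?_
        rw [h1]
        exact hWn r
      linarith
  -- all terms are close to each other
  have hclose : ∀ r s, r < b ^ K → s < b ^ K → ‖W r - W s‖ ≤ η * E := by
    intro r s hr hs
    by_cases hrs : r = s
    · rw [hrs, sub_self, norm_zero]; positivity
    have h1 : ∑ t ∈ range (b ^ K), W t = (W r + W s) +
        ∑ t ∈ ((range (b ^ K)).erase r).erase s, W t := by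
      rw [← add_sum_erase _ W (mem_range.2 hr),
        ← add_sum_erase _ W (mem_erase.2 ⟨Ne.symm hrs, mem_range.2 hs⟩), add_assoc]
    have hcard : ((((range (b ^ K)).erase r).erase s).card : ℝ) = ((b ^ K : ℕ) : ℝ) - 2 := by
      rw [card_erase_of_mem (mem_erase.2 ⟨Ne.symm hrs, mem_range.2 hs⟩),
        card_erase_of_mem (mem_range.2 hr), card_range]
      have h2 : 2 ≤ b ^ K := by omega
      rw [Nat.sub_sub, Nat.cast_sub (by omega)]
      norm_num
    have h2 : ‖∑ t ∈ ((range (b ^ K)).erase r).erase s, W t‖ ≤ (((b ^ K : ℕ) : ℝ) - 2) * E := by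
      rw [← hcard]
      refine (norm_sum_le _ _).trans ((sum_le_card_nsmul _ _ _ fun t _ => hWn t).trans
        (le_of_eq (nsmul_eq_mul _ _)))
    have h3 : (2 - η ^ 2 / 4) * E ≤ ‖W r + W s‖ := by
      have h4 := norm_add_le (W r + W s) (∑ t ∈ ((range (b ^ K)).erase r).erase s, W t)
      rw [← h1] at h4
      nlinarith
    have h5 := parallelogram_law_with_norm ℂ (W r) (W s)
    have h6 : ‖W r - W s‖ * ‖W r - W s‖ ≤ (η * E) * (η * E) := by
      have a1 : ‖W r‖ * ‖W r‖ ≤ E * E := mul_le_mul (hWn r) (hWn r) (norm_nonneg _) hE0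
      have a2 : ‖W s‖ * ‖W s‖ ≤ E * E := mul_le_mul (hWn s) (hWn s) (norm_nonneg _) hE0
      have a3 : 0 ≤ (2 - η ^ 2 / 4) * E := by
        have : η ^ 2 ≤ 1 := by nlinarith
        have : 0 ≤ 2 - η ^ 2 / 4 := by linarith
        positivity
      have a4 : ((2 - η ^ 2 / 4) * E) * ((2 - η ^ 2 / 4) * E) ≤ ‖W r + W s‖ * ‖W r + W s‖ :=
        mul_le_mul h3 h3 a3 (norm_nonneg _)
      nlinarith [mul_pos hEpos hEpos, sq_nonneg (η ^ 2 * E)]
    exact abs_le_of_sq_le_sq' (by nlinarith) (by positivity) |>.2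
  have hW0 : (1 - η ^ 2 / 4) * E ≤ ‖W 0‖ := by
    have h1 : ∑ t ∈ range (b ^ K), W t = W 0 + ∑ t ∈ (range (b ^ K)).erase 0, W t :=
      (add_sum_erase _ W (mem_range.2 hBpos)).symm
    have hcard : (((range (b ^ K)).erase 0).card : ℝ) = ((b ^ K : ℕ) : ℝ) - 1 := by
      rw [card_erase_of_mem (mem_range.2 hBpos), card_range, Nat.cast_sub (by omega)]
      norm_num
    have h2 : ‖∑ t ∈ (range (b ^ K)).erase 0, W t‖ ≤ (((b ^ K : ℕ) : ℝ) - 1) * E := by
      rw [← hcard]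
      refine (norm_sum_le _ _).trans ((sum_le_card_nsmul _ _ _ fun t _ => hWn t).trans
        (le_of_eq (nsmul_eq_mul _ _)))
    have h4 := norm_add_le (W 0) (∑ t ∈ (range (b ^ K)).erase 0, W t)
    rw [← h1] at h4
    nlinarith
  have hnear : Near b k T p q K u v (e θ) (2 * (η * E)) (W 0) := by
    intro r hr h1 h2
    rw [← hβ] at h1 h2 ⊢
    have h3 := hstep r h1 h2
    set γ : G × G := (T (β * p * (r + 1) + u) * (T (β * p * r + u))⁻¹,
        T (β * q * (r + 1) + v) * (T (β * q * r + v))⁻¹) with hγ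
    have h4 : e θ • L γ (W 0) - W 0 = e θ • L γ (W 0 - W r) + (W (r + 1) - W 0) := by
      rw [h3, map_sub, smul_sub]
      abel
    rw [h4]
    refine (norm_add_le _ _).trans ?_
    rw [norm_smul, norm_e, one_mul, LinearIsometryEquiv.norm_map]
    have a1 := hclose 0 r hBpos (by omega)
    have a2 := hclose (r + 1) 0 hr hBpos
    linarith
  have havg : ∑ n ∈ nf b k T, L (n, (1 : G)) (W 0) = 0 := by
    have h1 : ∀ n ∈ nf b k T, L (n, (1 : G)) (W 0) = e ((0 : ℕ) * θ) •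
        L (n * WG b T K (β * p * 0 + u), WG b T K (β * q * 0 + v))
        (VV b k T p q ξ X ((β * p * 0 + u) / b ^ K) ((β * q * 0 + v) / b ^ K)
          (((b ^ K : ℕ) : ℝ) * θ)) := by
      intro n _
      rw [hW]
      simp only
      rw [map_smul, ← L_mul, Prod.mk_mul_mk, one_mul]
    rw [sum_congr rfl h1, ← smul_sum]
    -- conjugate
    set A := WG b T K (β * p * 0 + u) with hA
    set A' := WG b T K (β * q * 0 + v) with hA'
    set V := VV b k T p q ξ X ((β * p * 0 + u) / b ^ K) ((β * q * 0 + v) / b ^ K)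
          (((b ^ K : ℕ) : ℝ) * θ) with hV
    have h2 : ∑ n ∈ nf b k T, L (n * A, A') V = ∑ n ∈ nf b k T, L (A * n, A') V := by
      have hN := NN_normal b k T
      refine sum_nbij' (fun n => A⁻¹ * n * A) (fun n => A * n * A⁻¹) ?_ ?_ ?_ ?_ ?_
      · intro n hn
        rw [mem_nf] at hn ⊢
        have := hN.conj_mem n hn A⁻¹
        rwa [inv_inv] at this
      · intro n hn
        rw [mem_nf] at hn ⊢
        exact hN.conj_mem n hn A
      · intro n _
        group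
      · intro n _
        group
      · intro n _
        congr 2
        rw [Prod.mk.injEq]
        refine ⟨by group, rfl⟩
    have h3 : ∀ n ∈ nf b k T, L (A * n, A') V = L (A, A') (L (n, 1) V) := by
      intro n _
      rw [← L_mul, Prod.mk_mul_mk, mul_one]
    rw [h2, sum_congr rfl h3, ← map_sum, VV_avg ξ hξ, map_zero, smul_zero]
  have hfin := hgap u v (e θ) (2 * (η * E)) (W 0) (norm_e θ) (by positivity) hnear havg
  have h1 : C * (2 * (η * E)) ≤ 1 / 2 * E := by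
    calc C * (2 * (η * E)) = (C * (2 * η)) * E := by ring
      _ ≤ 1 / 2 * E := by gcongr
  have h2 : η ^ 2 ≤ 1 := by nlinarith
  nlinarith

end

end Pool.Agent.U602.NA
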