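import Pool.Agent.U602.NA.Norm

set_option autoImplicit false
set_option linter.unusedSectionVars false

/-! Reduction to normalized functions. -/

namespace Pool.Agent.U602.NA

open Finset
open Pool.Agent.U602.MS (WG WG_cong WG_per S_window GP mob)
open Pool.Agent.H469R2.NK (e norm_e e_add e_zero conj_e)

section

variable {G : Type} [Group G] {b k : ℕ}

lemma app0 {R : ℕ → G} (hb : 2 ≤ b) (hk : 1 ≤ k) (base : ∀ s, s < b ^ (k - 1) → R s = 1)
    (dig : ∀ n, R n = R (n % b ^ k) * R (n / b)) (M m z : ℕ) (hz : z < b ^ M) :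
    R (b ^ M * m + z) = R (b ^ M * (m % b ^ (k - 1)) + z) * R m := by
  have hβ : 0 < b ^ (k - 1) := by positivity
  have h1 : WG b R M (b ^ M * m + z) = WG b R M (b ^ M * (m % b ^ (k - 1)) + z) := by
    apply WG_cong hb hk dig M
    rw [pow_add]
    conv_lhs => rw [← Nat.div_add_mod m (b ^ (k - 1))]
    rw [show b ^ M * (b ^ (k - 1) * (m / b ^ (k - 1)) + m % b ^ (k - 1)) + z =
      (b ^ M * (m % b ^ (k - 1)) + z) + (b ^ M * b ^ (k - 1)) * (m / b ^ (k - 1)) by ring,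
      Nat.add_mul_mod_self_left]
  have e1 : (b ^ M * m + z) / b ^ M = m := by
    rw [Nat.mul_add_div (by positivity), Nat.div_eq_of_lt hz, add_zero]
  have e2 : (b ^ M * (m % b ^ (k - 1)) + z) / b ^ M = m % b ^ (k - 1) := by
    rw [Nat.mul_add_div (by positivity), Nat.div_eq_of_lt hz, add_zero]
  unfold WG at h1
  rw [e1, e2, base _ (Nat.mod_lt _ hβ), inv_one, mul_one] at h1
  rw [← h1, inv_mul_cancel_right]

/-- the normalized function -/
def RR (b k : ℕ) (T : ℕ → G) (n : ℕ) : G := (T (n % b ^ (k - 1)))⁻¹ * T n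

lemma RR_base (T : ℕ → G) (s : ℕ) (hs : s < b ^ (k - 1)) : RR b k T s = 1 := by
  unfold RR
  rw [Nat.mod_eq_of_lt hs, inv_mul_cancel]

lemma RR_dig {T w : ℕ → G} (hb : 2 ≤ b) (hk : 1 ≤ k) (hT : ∀ n, T n = w (n % b ^ k) * T (n / b))
    (n : ℕ) : RR b k T n = RR b k T (n % b ^ k) * RR b k T (n / b) := by
  have hbk : b ^ k = b * b ^ (k - 1) := by
    rw [← pow_succ']
    congr 1
    omega
  have h1 : (n % b ^ k) / b = (n / b) % b ^ (k - 1) := by
    rw [hbk, Nat.mod_mul_right_div_self]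
  have h2 : (n % b ^ k) % b ^ (k - 1) = n % b ^ (k - 1) :=
    Nat.mod_mod_of_dvd _ (pow_dvd_pow _ (by omega))
  have h3 := hT (n % b ^ k)
  rw [Nat.mod_mod, h1] at h3
  unfold RR
  rw [h2, h3, hT n]
  group

/-- the group of the values -/
def HH (b k : ℕ) (T : ℕ → G) : Subgroup G := Subgroup.closure (Set.range (RR b k T))

/-- the normalized function as a function to the group of its values -/
def RH (b k : ℕ) (T : ℕ → G) (n : ℕ) : HH b k T := ⟨RR b k T n, Subgroup.subset_closure ⟨n, rfl⟩⟩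

lemma nt_RH [Finite G] {T w : ℕ → G} (hb : 2 ≤ b) (hk : 1 ≤ k)
    (hT : ∀ n, T n = w (n % b ^ k) * T (n / b)) : NT b k (RH b k T) := by
  set β := b ^ (k - 1) with hβ
  have hβ0 : 0 < β := by positivity
  have hbase : ∀ s, s < b ^ (k - 1) → RR b k T s = 1 := RR_base T
  have hdig := RR_dig hb hk hT
  have happ : ∀ M m z : ℕ, z < b ^ M → RR b k T (b ^ M * m + z) =
      RR b k T (b ^ M * (m % β) + z) * RR b k T m := fun M m z hz => app0 hb hk hbase hdig M m z hz
  have h0 : RR b k T 0 = 1 := hbase 0 hβ0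
  -- the semigroup of the values in the class 0
  have hmul : ∀ g₁ g₂ : G, (∃ ν, ν % β = 0 ∧ RR b k T ν = g₁) → (∃ ν, ν % β = 0 ∧ RR b k T ν = g₂) →
      ∃ ν, ν % β = 0 ∧ RR b k T ν = g₁ * g₂ := by
    rintro _ _ ⟨z, hz, rfl⟩ ⟨m, hm, rfl⟩
    have hzM : z < b ^ ((k - 1) + z) :=
      lt_of_lt_of_le (Nat.lt_pow_self (by omega : 1 < b)) (Nat.pow_le_pow_right (by omega) (by omega))
    refine ⟨b ^ ((k - 1) + z) * m + z, ?_, ?_⟩
    · rw [pow_add, ← hβ, mul_assoc, Nat.mul_add_mod, hz]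
    · rw [happ _ _ _ hzM, hm, mul_zero, zero_add]
  have hpow : ∀ (g : G) (j : ℕ), (∃ ν, ν % β = 0 ∧ RR b k T ν = g) →
      ∃ ν, ν % β = 0 ∧ RR b k T ν = g ^ j := by
    intro g j hg
    induction j with
    | zero => exact ⟨0, Nat.zero_mod _, by rw [h0, pow_zero]⟩
    | succ j ih =>
      rw [pow_succ]
      exact hmul _ _ ih hg
  have hinv : ∀ g : G, (∃ ν, ν % β = 0 ∧ RR b k T ν = g) →
      ∃ ν, ν % β = 0 ∧ RR b k T ν = g⁻¹ := by
    intro g hg
    have h1 := hpow g (orderOf g - 1) hg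
    have h2 : g ^ (orderOf g - 1) = g⁻¹ := by
      have h3 : 0 < orderOf g := orderOf_pos g
      apply eq_inv_of_mul_eq_one_left
      rw [← pow_succ, Nat.sub_add_cancel h3, pow_orderOf_eq_one]
    rwa [h2] at h1
  have hall : ∀ g ∈ HH b k T, ∃ ν, ν % β = 0 ∧ RR b k T ν = g := by
    intro g hg
    unfold HH at hg
    induction hg using Subgroup.closure_induction with
    | mem x hx =>
      obtain ⟨n, rfl⟩ := hx
      have h1 := happ (k - 1) n 0 hβ0
      rw [add_zero, add_zero, ← hβ] at h1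
      have h2 : RR b k T n = (RR b k T (β * (n % β)))⁻¹ * RR b k T (β * n) := by
        rw [h1, inv_mul_cancel_left]
      rw [h2]
      exact hmul _ _ (hinv _ ⟨_, Nat.mul_mod_right _ _, rfl⟩) ⟨_, Nat.mul_mod_right _ _, rfl⟩
    | one => exact ⟨0, Nat.zero_mod _, h0⟩
    | mul x y _ _ hx hy => exact hmul _ _ hx hy
    | inv x _ hx => exact hinv _ hx
  refine ⟨hb, hk, fun s hs => Subtype.ext (hbase s hs), fun n => Subtype.ext (hdig n), ?_⟩
  rintro ⟨g, hg⟩ u
  obtain ⟨m, hm, rfl⟩ := hall g hg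
  have hz : u % β < b ^ (k - 1) := Nat.mod_lt _ hβ0
  refine ⟨b ^ (k - 1) * m + u % β, ?_, Subtype.ext ?_⟩
  · rw [Nat.mul_add_mod, Nat.mod_mod]
  · show RR b k T (b ^ (k - 1) * m + u % β) = RR b k T m
    rw [happ _ _ _ hz, hm, mul_zero, zero_add, hbase _ hz, one_mul]

end

variable {ι : Type} [Fintype ι] [DecidableEq ι]

theorem gp_red (G : ι → Type) [∀ i, Group (G i)] [∀ i, Finite (G i)]
    (b k : ι → ℕ) (T : ∀ i, ℕ → G i) (hb : ∀ i, 2 ≤ b i)
    (hGP : GP (fun i => HH (b i) (k i) (T i)) (fun i => RH (b i) (k i) (T i))) : GP G T := by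
  classical
  intro Ψ Q hQ ε hε
  set β : ι → ℕ := fun i => b i ^ (k i - 1) with hβ
  have hβ0 : ∀ i, 0 < β i := fun i => by have := hb i; rw [hβ]; positivity
  set B : ℕ := ∏ i, β i with hB
  have hB0 : 0 < B := prod_pos fun i _ => hβ0 i
  set A : ℕ := Fintype.card (∀ i, Fin (β i)) with hA
  have hA0 : (0 : ℝ) ≤ A := Nat.cast_nonneg _
  choose N₀ hN₀ using fun s : (∀ i, Fin (β i)) =>
    hGP (fun h => Ψ (fun i => T i (s i) * (h i : G i))) (Q * B) (Nat.mul_pos hQ hB0)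
      (ε / (A + 1)) (by positivity)
  refine ⟨∑ s, N₀ s, fun N hN c θ P hP hP1 => ?_⟩
  set cl : ℕ → ∀ i, Fin (β i) := fun n i => ⟨(n + c i) % β i, Nat.mod_lt _ (hβ0 i)⟩ with hcl
  have hclper : ∀ n, cl (n + Q * B) = cl n := by
    intro n
    funext i
    rw [hcl]
    simp only [Fin.mk.injEq]
    obtain ⟨m, hm⟩ : β i ∣ B := dvd_prod_of_mem _ (mem_univ i)
    rw [hm, show n + Q * (β i * m) + c i = (n + c i) + β i * (Q * m) by ring,
      Nat.add_mul_mod_self_left]
  have hPB : ∀ j n, P (n + Q * j) = P n := by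
    intro j
    induction j with
    | zero => intro n; simp
    | succ j ih => intro n; rw [show n + Q * (j + 1) = (n + Q * j) + Q by ring, hP, ih]
  have h1 : ∀ n, Ψ (fun i => T i (n + c i)) = ∑ s, Ψ (fun i => T i (s i) *
      ((RH (b i) (k i) (T i) (n + c i) : HH (b i) (k i) (T i)) : G i)) *
        (if cl n = s then (1 : ℂ) else 0) := by
    intro n
    simp only [mul_ite, mul_one, mul_zero]
    rw [Finset.sum_ite_eq, if_pos (mem_univ _)]
    congr 1
    funext i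
    show T i (n + c i) = T i ((n + c i) % β i) * ((T i ((n + c i) % b i ^ (k i - 1)))⁻¹ * T i (n + c i))
    rw [mul_inv_cancel_left]
  have h2 : ∑ n ∈ Ioc 0 N, mob n * Ψ (fun i => T i (n + c i)) * P n * e (n * θ) =
      ∑ s, ∑ n ∈ Ioc 0 N, mob n * Ψ (fun i => T i (s i) *
      ((RH (b i) (k i) (T i) (n + c i) : HH (b i) (k i) (T i)) : G i)) *
        ((if cl n = s then (1 : ℂ) else 0) * P n) * e (n * θ) := by
    rw [sum_comm]
    refine sum_congr rfl fun n _ => ?_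
    rw [h1, mul_sum, sum_mul, sum_mul]
    refine sum_congr rfl fun s _ => ?_
    ring
  rw [h2]
  refine (norm_sum_le _ _).trans ?_
  have h3 : ∀ s ∈ (univ : Finset (∀ i, Fin (β i))), ‖∑ n ∈ Ioc 0 N, mob n * Ψ (fun i => T i (s i) *
      ((RH (b i) (k i) (T i) (n + c i) : HH (b i) (k i) (T i)) : G i)) *
        ((if cl n = s then (1 : ℂ) else 0) * P n) * e (n * θ)‖ ≤ ε / (A + 1) * N := by
    intro s _
    refine hN₀ s N ((single_le_sum (f := N₀) (fun _ _ => Nat.zero_le _) (mem_univ s)).trans hN) c θ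
      (fun n => (if cl n = s then (1 : ℂ) else 0) * P n) (fun n => ?_) (fun n => ?_)
    · rw [hclper, hPB]
    · rw [norm_mul]
      refine mul_le_one₀ ?_ (norm_nonneg _) (hP1 n)
      split_ifs <;> simp
  refine (sum_le_card_nsmul _ _ _ h3).trans ?_
  rw [nsmul_eq_mul, card_univ, ← hA]
  have h4 : (A : ℝ) * (ε / (A + 1) * N) = (A / (A + 1)) * (ε * N) := by
    field_simp
  rw [h4]
  have h5 : (A : ℝ) / (A + 1) ≤ 1 := by
    rw [div_le_one (by positivity)]
    linarith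
  have h6 : 0 ≤ ε * N := by positivity
  nlinarith

end Pool.Agent.U602.NA
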