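import Pool.Agent.U602.NA.Bil
import Pool.Agent.U602.NA.Red

set_option autoImplicit false
set_option linter.unusedSectionVars false

/-! Sums of `μ(n) Ψ(T_i(n + c_i)) e(nθ)`. -/

namespace Pool.Agent.U602.NA

open Finset
open Pool.Agent.U602.MS (WG WG_cong WG_per S_window GP mob per_mul dav_e)
open Pool.Agent.H469R2.NK (e norm_e e_add e_zero conj_e)
open Pool.Agent.TH915.PW (e_int sum_char e_sub sum_blocks)

section

variable {G : Type} [Group G] [Fintype G] [DecidableEq G]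

/-- invariance under the subgroup -/
def IV (b k : ℕ) (T : ℕ → G) (ψ : G → ℂ) : Prop := ∀ g, ∀ n ∈ NN b k T, ψ (g * n) = ψ g

lemma deg_per {b k : ℕ} {T : ℕ → G} (h : NT b k T) (ψ : G → ℂ) (hψ : IV b k T ψ) (n : ℕ) :
    ψ (T (n + b ^ (k - 1) * Fintype.card G)) = ψ (T n) := by
  have hb := h.two
  have hβ : 0 < b ^ (k - 1) := by positivity
  have hN := NN_normal b k T
  set t : ℕ → G ⧸ NN b k T := fun n => ((T n : G) : G ⧸ NN b k T) with ht
  have ht0 : t 0 = 1 := by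
    rw [ht]
    simp only
    rw [h.base 0 hβ]
    rfl
  have hΔ : ∀ n, t (n + 1) = ((T (n + 1) * (T n)⁻¹ : G) : G ⧸ NN b k T) * t n := by
    intro n
    rw [ht]
    simp only
    rw [← QuotientGroup.mk_mul, inv_mul_cancel_right]
  have hΔ2 : ∀ n, ((T (n + b ^ (k - 1) + 1) * (T (n + b ^ (k - 1)))⁻¹ : G) : G ⧸ NN b k T) =
      ((T (n + 1) * (T n)⁻¹ : G) : G ⧸ NN b k T) := by
    intro n
    refine QuotientGroup.eq.2 ?_
    apply Subgroup.subset_normalClosure
    exact ⟨n + b ^ (k - 1), n, by simp, rfl⟩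
  have h1 : ∀ n, t (n + b ^ (k - 1)) = t n * t (b ^ (k - 1)) := by
    intro n
    induction n with
    | zero => rw [zero_add, ht0, one_mul]
    | succ n ih =>
      rw [show n + 1 + b ^ (k - 1) = n + b ^ (k - 1) + 1 by ring, hΔ, hΔ2, ih, hΔ n, mul_assoc]
  have h2 : ∀ j n, t (n + b ^ (k - 1) * j) = t n * t (b ^ (k - 1)) ^ j := by
    intro j
    induction j with
    | zero => intro n; simp
    | succ j ih =>
      intro n
      rw [show n + b ^ (k - 1) * (j + 1) = (n + b ^ (k - 1) * j) + b ^ (k - 1) by ring, h1, ih,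
        pow_succ, mul_assoc]
  have h3 : t (n + b ^ (k - 1) * Fintype.card G) = t n := by
    rw [h2]
    have : t (b ^ (k - 1)) ^ Fintype.card G = 1 := by
      rw [ht]
      simp only
      rw [← QuotientGroup.mk_pow, pow_card_eq_one]
      rfl
    rw [this, mul_one]
  have h4 : (T n)⁻¹ * T (n + b ^ (k - 1) * Fintype.card G) ∈ NN b k T :=
    QuotientGroup.eq.1 h3.symm
  have h5 := hψ (T n) _ h4
  rwa [mul_inv_cancel_left] at h5

/-- the average over the cosets -/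
noncomputable def EN (b k : ℕ) (T : ℕ → G) (ψ : G → ℂ) (g : G) : ℂ :=
  (1 / ((nf b k T).card : ℂ)) * ∑ n ∈ nf b k T, ψ (g * n)

lemma nf_card_pos (b k : ℕ) (T : ℕ → G) : (0 : ℝ) < (nf b k T).card := by
  have : 0 < (nf b k T).card := card_pos.2 ⟨1, (mem_nf 1).2 (Subgroup.one_mem _)⟩
  exact_mod_cast this

lemma EN_norm (b k : ℕ) (T : ℕ → G) (ψ : G → ℂ) (hψ : ∀ g, ‖ψ g‖ ≤ 1) (g : G) :
    ‖EN b k T ψ g‖ ≤ 1 := by
  unfold EN
  rw [norm_mul, norm_div, norm_one, Complex.norm_natCast, one_div,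
    inv_mul_le_iff₀ (nf_card_pos b k T), mul_one]
  refine (norm_sum_le _ _).trans ((sum_le_card_nsmul _ _ 1 fun n _ => hψ _).trans ?_)
  rw [nsmul_eq_mul, mul_one]

lemma EN_inv (b k : ℕ) (T : ℕ → G) (ψ : G → ℂ) : IV b k T (EN b k T ψ) := by
  intro g m hm
  unfold EN
  congr 1
  refine sum_nbij' (fun n => m * n) (fun n => m⁻¹ * n) ?_ ?_ ?_ ?_ ?_
  · intro n hn
    rw [mem_nf] at hn ⊢
    exact (NN b k T).mul_mem hm hn
  · intro n hn
    rw [mem_nf] at hn ⊢
    exact (NN b k T).mul_mem ((NN b k T).inv_mem hm) hn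
  · intro n _
    group
  · intro n _
    group
  · intro n _
    rw [mul_assoc]

lemma EN_za (b k : ℕ) (T : ℕ → G) (ψ : G → ℂ) :
    ZA b k T (fun g => (1 / 2) * (ψ g - EN b k T ψ g)) := by
  intro g
  rw [← mul_sum, sum_sub_distrib]
  have h1 : ∑ n ∈ nf b k T, EN b k T ψ (g * n) = ∑ n ∈ nf b k T, ψ (g * n) := by
    have h2 : ∀ n ∈ nf b k T, EN b k T ψ (g * n) = EN b k T ψ g := fun n hn =>
      EN_inv b k T ψ g n ((mem_nf n).1 hn)
    rw [sum_congr rfl h2, sum_const, nsmul_eq_mul]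
    unfold EN
    have : ((nf b k T).card : ℂ) ≠ 0 := by
      have := (nf_card_pos b k T).ne'
      exact_mod_cast this
    field_simp
  rw [h1, sub_self, mul_zero]

end

variable {ι : Type} [Fintype ι] [DecidableEq ι]

section

variable (G : ι → Type) [∀ i, Group (G i)] [∀ i, Fintype (G i)] [∀ i, DecidableEq (G i)]

theorem core_z (b k : ι → ℕ) (T : ∀ i, ℕ → G i) (h : ∀ i, NT (b i) (k i) (T i))
    (hcop : ∀ i j, i ≠ j → (b i).Coprime (b j)) (i₀ : ι)
    (ψ : ∀ i, G i → ℂ) (hψ : ∀ i g, ‖ψ i g‖ ≤ 1) (hZ : ZA (b i₀) (k i₀) (T i₀) (ψ i₀))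
    (ε : ℝ) (hε : 0 < ε) :
    ∃ N₀ : ℕ, ∀ N, N₀ ≤ N → ∀ (c : ι → ℕ) (θ : ℝ),
      ‖∑ n ∈ Ioc 0 N, mob n * (∏ i, ψ i (T i (n + c i))) * e (n * θ)‖ ≤ ε * N := by
  obtain ⟨P, δ, N₁, hδ, hδ1, hP, hkat⟩ := Pool.Agent.N213.BM.kat_blocks ε hε (2 + ∑ i, b i)
  have hbil : ∀ p q : ℕ, ∃ B : ℕ, p ∈ P → q ∈ P → p < q → 1 ≤ B ∧ ∀ (u v : ι → ℕ) (θ : ℝ),
      ‖∑ x ∈ range B, (∏ i, (ψ i (T i (p * x + u i)) *
        (starRingEnd ℂ) (ψ i (T i (q * x + v i))))) * e (x * θ)‖ ≤ δ * B := by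
    intro p q
    by_cases hc : p ∈ P ∧ q ∈ P ∧ p < q
    · obtain ⟨h1, h2, h3⟩ := hc
      have hle : ∀ i, b i ≤ ∑ i, b i := fun i =>
        single_le_sum (fun _ _ => Nat.zero_le _) (mem_univ i)
      have hpn : ∀ r ∈ P, ∀ i, ¬ r ∣ b i := by
        intro r hr i hd
        have h4 := (hP r hr).2
        have h5 := hle i
        have h6 := Nat.le_of_dvd (by have := (h i).two; omega) hd
        omega
      have hp1 : ¬ p ∣ b i₀ - 1 := by
        intro hd
        have h4 := (hP p h1).2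
        have h5 := hle i₀
        have h6 := Nat.le_of_dvd (by have := (h i₀).two; omega) hd
        omega
      obtain ⟨B, hB1, hB2⟩ := bil' G b k T h hcop i₀ p q (hP p h1).1 (hP q h2).1
        (by have := (hP p h1).2; omega) (by omega) (hpn p h1) (hpn q h2) hp1 ψ hψ hZ δ hδ
      exact ⟨B, fun _ _ _ => ⟨hB1, hB2⟩⟩
    · exact ⟨0, fun h1 h2 h3 => absurd ⟨h1, h2, h3⟩ hc⟩
  choose Bf hBf using hbil
  obtain ⟨N₂, hN₂⟩ := exists_nat_ge ((∑ p ∈ P, ∑ q ∈ P, (Bf p q : ℝ)) / δ)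
  refine ⟨max N₁ N₂, fun N hN c θ => ?_⟩
  have hN2 : (∑ p ∈ P, ∑ q ∈ P, (Bf p q : ℝ)) ≤ δ * N := by
    rw [div_le_iff₀ hδ] at hN₂
    have : (N₂ : ℝ) ≤ N := by exact_mod_cast (le_max_right _ _).trans hN
    nlinarith
  have hres := hkat N (le_trans (le_max_left _ _) hN)
    (fun n => (∏ i, ψ i (T i (n + c i))) * e (n * θ)) (fun n => ?_) ?_ _ Pool.Agent.N213.BM.kf_mu
  · refine le_trans (le_of_eq ?_) hres
    congr 1
    refine sum_congr rfl fun n _ => ?_
    unfold mob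
    ring
  · rw [norm_mul, norm_e, mul_one, norm_prod]
    exact prod_le_one (fun i _ => norm_nonneg _) (fun i _ => hψ _ _)
  · intro p hp q hq hpq
    obtain ⟨h1, h2⟩ := hBf p q hp hq hpq
    refine ⟨Bf p q, h1, ?_, fun t => ?_⟩
    · refine le_trans ?_ hN2
      refine le_trans ?_ (single_le_sum (f := fun p => ∑ q ∈ P, (Bf p q : ℝ))
        (fun p _ => sum_nonneg fun q _ => Nat.cast_nonneg _) hp)
      exact single_le_sum (f := fun q => (Bf p q : ℝ)) (fun q _ => Nat.cast_nonneg _) hq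
    · have h3 := h2 (fun i => p * (Bf p q * t) + c i) (fun i => q * (Bf p q * t) + c i)
        (((p : ℝ) - q) * θ)
      refine le_trans (le_of_eq ?_) h3
      have h4 : ∀ x : ℕ, ((∏ i, ψ i (T i (p * (x + Bf p q * t) + c i))) *
            e (((p * (x + Bf p q * t) : ℕ) : ℝ) * θ)) *
          star ((∏ i, ψ i (T i (q * (x + Bf p q * t) + c i))) *
            e (((q * (x + Bf p q * t) : ℕ) : ℝ) * θ)) =
          e ((((p : ℝ) - q) * (Bf p q * t)) * θ) *
            ((∏ i, (ψ i (T i (p * x + (p * (Bf p q * t) + c i))) *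
              (starRingEnd ℂ) (ψ i (T i (q * x + (q * (Bf p q * t) + c i)))))) *
              e (x * (((p : ℝ) - q) * θ))) := by
        intro x
        have e1 : ∀ i, p * (x + Bf p q * t) + c i = p * x + (p * (Bf p q * t) + c i) := by
          intro i; ring
        have e2 : ∀ i, q * (x + Bf p q * t) + c i = q * x + (q * (Bf p q * t) + c i) := by
          intro i; ring
        simp_rw [e1, e2]
        rw [prod_mul_distrib, ← map_prod]
        have e3 : e (((p * (x + Bf p q * t) : ℕ) : ℝ) * θ) *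
            (starRingEnd ℂ) (e (((q * (x + Bf p q * t) : ℕ) : ℝ) * θ)) =
            e ((((p : ℝ) - q) * (Bf p q * t)) * θ) * e (x * (((p : ℝ) - q) * θ)) := by
          rw [conj_e, ← e_add, ← e_add]
          congr 1
          push_cast
          ring
        rw [show ∀ z : ℂ, star z = (starRingEnd ℂ) z from fun z => rfl, map_mul]
        calc _ = ((∏ i, ψ i (T i (p * x + (p * (Bf p q * t) + c i)))) *
              (starRingEnd ℂ) (∏ i, ψ i (T i (q * x + (q * (Bf p q * t) + c i))))) *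
              (e (((p * (x + Bf p q * t) : ℕ) : ℝ) * θ) *
            (starRingEnd ℂ) (e (((q * (x + Bf p q * t) : ℕ) : ℝ) * θ))) := by ring
          _ = _ := by rw [e3]; ring
      rw [sum_congr rfl (fun x _ => h4 x), ← mul_sum, norm_mul, norm_e, one_mul]

theorem core_inv (b k : ι → ℕ) (T : ∀ i, ℕ → G i) (h : ∀ i, NT (b i) (k i) (T i))
    (ψ : ∀ i, G i → ℂ) (hψ : ∀ i g, ‖ψ i g‖ ≤ 1) (hI : ∀ i, IV (b i) (k i) (T i) (ψ i))
    (ε : ℝ) (hε : 0 < ε) :
    ∃ N₀ : ℕ, ∀ N, N₀ ≤ N → ∀ (c : ι → ℕ) (θ : ℝ),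
      ‖∑ n ∈ Ioc 0 N, mob n * (∏ i, ψ i (T i (n + c i))) * e (n * θ)‖ ≤ ε * N := by
  set R : ℕ := ∏ i, b i ^ (k i - 1) * Fintype.card (G i) with hR
  have hRpos : 0 < R := prod_pos fun i _ => by
    have := (h i).two
    have h2 : 0 < Fintype.card (G i) := Fintype.card_pos
    positivity
  have hRR : (0 : ℝ) < R := by exact_mod_cast hRpos
  obtain ⟨N₀, h0⟩ := dav_e (ε / R) (by positivity)
  refine ⟨N₀, fun N hN c θ => ?_⟩
  have hper : ∀ i n, ψ i (T i (n + R)) = ψ i (T i n) := by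
    intro i n
    obtain ⟨m, hm⟩ : b i ^ (k i - 1) * Fintype.card (G i) ∣ R :=
      dvd_prod_of_mem (fun i => b i ^ (k i - 1) * Fintype.card (G i)) (mem_univ i)
    rw [hm]
    clear hm
    induction m generalizing n with
    | zero => simp
    | succ m ih => rw [show n + b i ^ (k i - 1) * Fintype.card (G i) * (m + 1) =
        (n + b i ^ (k i - 1) * Fintype.card (G i) * m) + b i ^ (k i - 1) * Fintype.card (G i) by ring,
        deg_per (h i) (ψ i) (hI i), ih]
  have h1 := per_mul mob N R hRpos _ (h0 N hN) (fun n => ∏ i, ψ i (T i (n + c i)))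
    (fun n => prod_congr rfl fun i _ => by
      rw [show n + R + c i = (n + c i) + R by ring, hper])
    (fun n => by
      rw [norm_prod]
      exact prod_le_one (fun i _ => norm_nonneg _) (fun i _ => hψ i _)) θ
  refine h1.trans (le_of_eq ?_)
  field_simp

theorem core_prod (b k : ι → ℕ) (T : ∀ i, ℕ → G i) (h : ∀ i, NT (b i) (k i) (T i))
    (hcop : ∀ i j, i ≠ j → (b i).Coprime (b j)) (s : Finset ι) :
    ∀ (ψ : ∀ i, G i → ℂ), (∀ i g, ‖ψ i g‖ ≤ 1) → (∀ i, i ∉ s → IV (b i) (k i) (T i) (ψ i)) →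
    ∀ ε : ℝ, 0 < ε → ∃ N₀ : ℕ, ∀ N, N₀ ≤ N → ∀ (c : ι → ℕ) (θ : ℝ),
      ‖∑ n ∈ Ioc 0 N, mob n * (∏ i, ψ i (T i (n + c i))) * e (n * θ)‖ ≤ ε * N := by
  induction s using Finset.induction_on with
  | empty =>
    intro ψ hψ hI ε hε
    exact core_inv G b k T h ψ hψ (fun i => hI i (notMem_empty i)) ε hε
  | insert i₀ s hi₀ ih =>
    intro ψ hψ hI ε hε
    set a : G i₀ → ℂ := EN (b i₀) (k i₀) (T i₀) (ψ i₀) with ha
    set z : G i₀ → ℂ := fun g => (1 / 2) * (ψ i₀ g - EN (b i₀) (k i₀) (T i₀) (ψ i₀) g) with hz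
    have ha1 : ∀ g, ‖a g‖ ≤ 1 := EN_norm _ _ _ _ (hψ i₀)
    have hz1 : ∀ g, ‖z g‖ ≤ 1 := by
      intro g
      rw [hz]
      simp only
      rw [norm_mul, norm_div, norm_one, Complex.norm_ofNat]
      have h1 := norm_sub_le (ψ i₀ g) (EN (b i₀) (k i₀) (T i₀) (ψ i₀) g)
      have h2 := hψ i₀ g
      have h3 := EN_norm (b i₀) (k i₀) (T i₀) (ψ i₀) (hψ i₀) g
      linarith
    have hup1 : ∀ (f : G i₀ → ℂ), (∀ g, ‖f g‖ ≤ 1) → ∀ i g, ‖Function.update ψ i₀ f i g‖ ≤ 1 := by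
      intro f hf i g
      by_cases hi : i = i₀
      · subst hi
        rw [Function.update_self]
        exact hf g
      · rw [Function.update_of_ne hi]
        exact hψ i g
    obtain ⟨N₁, h1⟩ := ih (Function.update ψ i₀ a) (hup1 a ha1) (fun i hi => by
      by_cases hii : i = i₀
      · subst hii
        rw [Function.update_self]
        exact EN_inv _ _ _ _
      · rw [Function.update_of_ne hii]
        exact hI i (by rw [mem_insert, not_or]; exact ⟨hii, hi⟩)) (ε / 2) (by positivity)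
    obtain ⟨N₂, h2⟩ := core_z G b k T h hcop i₀ (Function.update ψ i₀ z) (hup1 z hz1) (by
      rw [Function.update_self]
      exact EN_za _ _ _ _) (ε / 4) (by positivity)
    refine ⟨max N₁ N₂, fun N hN c θ => ?_⟩
    have g1 := h1 N ((le_max_left _ _).trans hN) c θ
    have g2 := h2 N ((le_max_right _ _).trans hN) c θ
    have hsplit : ∀ n, ∏ i, ψ i (T i (n + c i)) =
        ∏ i, Function.update ψ i₀ a i (T i (n + c i)) +
          2 * ∏ i, Function.update ψ i₀ z i (T i (n + c i)) := by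
      intro n
      rw [← mul_prod_erase univ (fun i => ψ i (T i (n + c i))) (mem_univ i₀),
        ← mul_prod_erase univ (fun i => Function.update ψ i₀ a i (T i (n + c i))) (mem_univ i₀),
        ← mul_prod_erase univ (fun i => Function.update ψ i₀ z i (T i (n + c i))) (mem_univ i₀)]
      have e1 : ∀ f : G i₀ → ℂ, ∏ i ∈ univ.erase i₀, Function.update ψ i₀ f i (T i (n + c i)) =
          ∏ i ∈ univ.erase i₀, ψ i (T i (n + c i)) := by
        intro f
        refine prod_congr rfl fun i hi => ?_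
        rw [Function.update_of_ne (ne_of_mem_erase hi)]
      rw [e1, e1, Function.update_self, Function.update_self, ha, hz]
      simp only
      ring
    have hsum : ∑ n ∈ Ioc 0 N, mob n * (∏ i, ψ i (T i (n + c i))) * e (n * θ) =
        ∑ n ∈ Ioc 0 N, mob n * (∏ i, Function.update ψ i₀ a i (T i (n + c i))) * e (n * θ) +
        2 * ∑ n ∈ Ioc 0 N, mob n * (∏ i, Function.update ψ i₀ z i (T i (n + c i))) * e (n * θ) := by
      rw [mul_sum, ← sum_add_distrib]
      refine sum_congr rfl fun n _ => ?_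
      rw [hsplit]
      ring
    rw [hsum]
    refine (norm_add_le _ _).trans ?_
    rw [norm_mul, Complex.norm_ofNat]
    linarith

theorem gp_nt (b k : ι → ℕ) (T : ∀ i, ℕ → G i) (h : ∀ i, NT (b i) (k i) (T i))
    (hcop : ∀ i j, i ≠ j → (b i).Coprime (b j)) : GP G T := by
  intro Ψ Q hQ ε hε
  have hQR : (0 : ℝ) < Q := by exact_mod_cast hQ
  set K : ℝ := ∑ a : (∀ i, G i), ‖Ψ a‖ with hK
  have hK0 : 0 ≤ K := sum_nonneg fun _ _ => norm_nonneg _
  choose N₀ hN₀ using fun a : (∀ i, G i) => core_prod G b k T h hcop univ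
    (fun i g => if g = a i then (1 : ℂ) else 0) (fun i g => by
      show ‖(if g = a i then (1 : ℂ) else 0)‖ ≤ 1
      split_ifs <;> simp)
    (fun i hi => absurd (mem_univ i) hi) (ε / (Q * (K + 1))) (by positivity)
  refine ⟨∑ a, N₀ a, fun N hN c θ P hP hP1 => ?_⟩
  have hrep : ∀ g : (∀ i, G i), Ψ g = ∑ a : (∀ i, G i), Ψ a * ∏ i, (if g i = a i then (1 : ℂ) else 0) := by
    intro g
    rw [Finset.sum_eq_single g]
    · simp
    · intro a _ hag
      obtain ⟨i, hi⟩ : ∃ i, g i ≠ a i := by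
        by_contra hcon
        push Not at hcon
        exact hag (funext fun i => (hcon i).symm)
      rw [prod_eq_zero (mem_univ i) (if_neg hi), mul_zero]
    · intro hg
      exact absurd (mem_univ g) hg
  have h1 : ∑ n ∈ Ioc 0 N, mob n * Ψ (fun i => T i (n + c i)) * P n * e (n * θ) =
      ∑ a : (∀ i, G i), Ψ a * ∑ n ∈ Ioc 0 N, mob n *
        (∏ i, (if T i (n + c i) = a i then (1 : ℂ) else 0)) * P n * e (n * θ) := by
    simp_rw [mul_sum]
    rw [sum_comm]
    refine sum_congr rfl fun n _ => ?_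
    rw [hrep, mul_sum, sum_mul, sum_mul]
    refine sum_congr rfl fun a _ => ?_
    ring
  rw [h1]
  refine (norm_sum_le _ _).trans ?_
  have h2 : ∀ a ∈ (univ : Finset (∀ i, G i)), ‖Ψ a * ∑ n ∈ Ioc 0 N, mob n *
        (∏ i, (if T i (n + c i) = a i then (1 : ℂ) else 0)) * P n * e (n * θ)‖ ≤
      ‖Ψ a‖ * (Q * (ε / (Q * (K + 1)) * N)) := by
    intro a _
    rw [norm_mul]
    refine mul_le_mul_of_nonneg_left ?_ (norm_nonneg _)
    exact per_mul (fun n => mob n * (∏ i, (if T i (n + c i) = a i then (1 : ℂ) else 0))) N Q hQ _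
      (fun θ => hN₀ a N
        ((single_le_sum (f := N₀) (fun _ _ => Nat.zero_le _) (mem_univ a)).trans hN) c θ) P hP hP1 θ
  refine (sum_le_sum h2).trans ?_
  rw [← sum_mul, ← hK]
  have h3 : K * (Q * (ε / (Q * (K + 1)) * N)) = (K / (K + 1)) * (ε * N) := by
    field_simp
  rw [h3]
  have h4 : K / (K + 1) ≤ 1 := by
    rw [div_le_one (by positivity)]
    linarith
  have h5 : 0 ≤ ε * N := by positivity
  nlinarith

end

theorem gp_group (G : ι → Type) [∀ i, Group (G i)] [∀ i, Finite (G i)]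
    (b k : ι → ℕ) (S w : ∀ i, ℕ → G i) (hb : ∀ i, 2 ≤ b i) (hk : ∀ i, 1 ≤ k i)
    (hcop : ∀ i j, i ≠ j → (b i).Coprime (b j))
    (hS : ∀ i n, S i n = w i (n % b i ^ k i) * S i (n / b i)) : GP G S := by
  classical
  have : ∀ i, Fintype (HH (b i) (k i) (S i)) := fun i => Fintype.ofFinite _
  refine gp_red G b k S hb ?_
  exact gp_nt (fun i => HH (b i) (k i) (S i)) b k (fun i => RH (b i) (k i) (S i))
    (fun i => nt_RH (hb i) (hk i) (hS i)) hcop

end Pool.Agent.U602.NA
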