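import Pool.Agent.U602.NA.Norm
import Pool.Agent.U602.MS.Pts

set_option autoImplicit false
set_option linter.unusedSectionVars false

/-! Almost invariant vectors. -/

namespace Pool.Agent.U602.NA

open Finset
open Pool.Agent.U602.MS (WG WG_cong WG_per S_window window cong pts)

section

variable {G : Type} [Group G] [Fintype G] [DecidableEq G]

/-- functions on `G × G` -/
abbrev EG (G : Type) [Fintype G] := EuclideanSpace ℂ (G × G)

/-- left translations -/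
noncomputable def L (γ : G × G) : EG G ≃ₗᵢ[ℂ] EG G :=
  LinearIsometryEquiv.piLpCongrLeft 2 ℂ ℂ (Equiv.mulLeft γ)

lemma L_apply (γ : G × G) (f : EG G) (x : G × G) : L γ f x = f (γ⁻¹ * x) := by
  unfold L
  rw [LinearIsometryEquiv.piLpCongrLeft_apply]
  simp

lemma L_mul (γ γ' : G × G) (f : EG G) : L (γ * γ') f = L γ (L γ' f) := by
  ext x
  rw [L_apply, L_apply, L_apply, mul_inv_rev, mul_assoc]

lemma L_one (f : EG G) : L (1 : G × G) f = f := by
  ext x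
  rw [L_apply, inv_one, one_mul]

/-- the defect of invariance -/
noncomputable def rho (f : EG G) (a : G) : ℝ := ‖L (a, 1) f - f‖

lemma rho_one (f : EG G) : rho f 1 = 0 := by
  unfold rho
  rw [show ((1 : G), (1 : G)) = 1 from rfl, L_one, sub_self, norm_zero]

lemma rho_mul (f : EG G) (a a' : G) : rho f (a * a') ≤ rho f a + rho f a' := by
  unfold rho
  have h1 : L (a * a', 1) f - f = L (a, 1) (L (a', 1) f - f) + (L (a, 1) f - f) := by
    rw [map_sub, ← L_mul, Prod.mk_mul_mk, mul_one]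
    abel
  rw [h1]
  refine (norm_add_le _ _).trans ?_
  rw [LinearIsometryEquiv.norm_map]
  linarith

lemma rho_inv (f : EG G) (a : G) : rho f a⁻¹ = rho f a := by
  unfold rho
  rw [← LinearIsometryEquiv.norm_map (L (a, 1)), map_sub, ← L_mul, Prod.mk_mul_mk, mul_one,
    mul_inv_cancel, show ((1 : G), (1 : G)) = 1 from rfl, L_one, norm_sub_rev]

lemma rho_conj (f : EG G) (δ γ' : G) (z : ℂ) (hz : ‖z‖ = 1) (ε : ℝ)
    (h : ‖z • L (δ, γ') f - f‖ ≤ ε) (a : G) :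
    rho f (δ⁻¹ * a * δ) ≤ rho f a + 2 * ε ∧ rho f a ≤ rho f (δ⁻¹ * a * δ) + 2 * ε := by
  set f' : EG G := z • L (δ, γ') f with hf'
  have h1 : rho f (δ⁻¹ * a * δ) = ‖L (a, 1) f' - f'‖ := by
    unfold rho
    have h2 : L (a, 1) f' - f' = z • L (δ, γ') (L (δ⁻¹ * a * δ, 1) f - f) := by
      rw [hf', map_smul, map_sub, smul_sub, ← L_mul, ← L_mul, Prod.mk_mul_mk, Prod.mk_mul_mk, one_mul,
        mul_one]
      congr 4
      group
    rw [h2, norm_smul, hz, one_mul, LinearIsometryEquiv.norm_map]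
  have h3 : ‖L (a, 1) (f' - f)‖ ≤ ε := by rw [LinearIsometryEquiv.norm_map]; exact h
  constructor
  · rw [h1]
    have h4 : L (a, 1) f' - f' = L (a, 1) (f' - f) + (L (a, 1) f - f) - (f' - f) := by
      rw [map_sub]; abel
    rw [h4]
    refine (norm_sub_le _ _).trans ?_
    have := norm_add_le (L (a, 1) (f' - f)) (L (a, 1) f - f)
    unfold rho
    linarith
  · rw [h1]
    have h4 : L (a, 1) f - f = (L (a, 1) f' - f') - L (a, 1) (f' - f) + (f' - f) := by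
      rw [map_sub]; abel
    unfold rho
    rw [h4]
    refine (norm_add_le _ _).trans ?_
    have := norm_sub_le (L (a, 1) f' - f') (L (a, 1) (f' - f))
    linarith

variable (b k : ℕ) (T : ℕ → G) (p q : ℕ)

/-- all local relations at the level `K` hold up to `ε` -/
def Near (K u v : ℕ) (z : ℂ) (ε : ℝ) (f : EG G) : Prop :=
  ∀ r, r + 1 < b ^ K →
    (b ^ (k - 1) * p * r + u) / b ^ K = (b ^ (k - 1) * p * (r + 1) + u) / b ^ K →
    (b ^ (k - 1) * q * r + v) / b ^ K = (b ^ (k - 1) * q * (r + 1) + v) / b ^ K →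
    ‖z • L (T (b ^ (k - 1) * p * (r + 1) + u) * (T (b ^ (k - 1) * p * r + u))⁻¹,
      T (b ^ (k - 1) * q * (r + 1) + v) * (T (b ^ (k - 1) * q * r + v))⁻¹) f - f‖ ≤ ε

variable {b k T p q}

lemma near_mono (hb : 2 ≤ b) {K K' u v : ℕ} {z : ℂ} {ε : ℝ} {f : EG G} (hK : K ≤ K')
    (h : Near b k T p q K' u v z ε f) : Near b k T p q K u v z ε f := by
  intro r h1 h2 h3
  have hle : b ^ K ≤ b ^ K' := Nat.pow_le_pow_right (by omega) hK
  have hd : ∀ m n : ℕ, m / b ^ K = n / b ^ K → m / b ^ K' = n / b ^ K' := by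
    intro m n hmn
    obtain ⟨j, rfl⟩ := Nat.exists_eq_add_of_le hK
    rw [pow_add, ← Nat.div_div_eq_div_mul, ← Nat.div_div_eq_div_mul, hmn]
  exact h r (by omega) (hd _ _ h2) (hd _ _ h3)

variable (b k T p q) in
/-- conjugation by `g` changes the defects by at most `C ε` -/
def CG (s : ℕ) (g : G) : Prop :=
  ∃ K : ℕ, ∃ C : ℝ, 0 ≤ C ∧ ∀ (u v : ℕ) (z : ℂ) (ε : ℝ) (f : EG G),
    u % b ^ (k - 1) = s % b ^ (k - 1) → ‖z‖ = 1 → 0 ≤ ε → Near b k T p q K u v z ε f →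
    ∀ a, rho f (g⁻¹ * a * g) ≤ rho f a + C * ε ∧ rho f a ≤ rho f (g⁻¹ * a * g) + C * ε

lemma cg_gen (h : NT b k T) (hpb : p.Coprime b) (s ν : ℕ)
    (hν : ν % b ^ (k - 1) = s % b ^ (k - 1)) :
    CG b k T p q s (T (ν + b ^ (k - 1) * p) * (T ν)⁻¹) := by
  have hb := h.two
  set β := b ^ (k - 1) with hβ
  have hβ0 : 0 < β := by positivity
  obtain ⟨M, hM⟩ : ∃ M, ν + β * p < b ^ M := ⟨ν + β * p, Nat.lt_pow_self (by omega)⟩
  obtain ⟨Gd, hG⟩ : ∃ Gd, β * p + β * q < b ^ Gd := ⟨β * p + β * q, Nat.lt_pow_self (by omega)⟩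
  refine ⟨M + 1 + Gd, 2, by norm_num, fun u v z ε f hu hz hε hn a => ?_⟩
  obtain ⟨x, hx, hx2⟩ := cong β p (b ^ M) u ν (by positivity) hβ0 (hpb.pow_right M) (by
    rw [hu, hν])
  obtain ⟨ω, hω, hw⟩ := window (β * p) (β * q) (b ^ (M + 1)) (b ^ Gd) u v (by positivity) hG
  set r := b ^ (M + 1) * ω + x with hr
  have hbM : b ^ M < b ^ (M + 1) := Nat.pow_lt_pow_right (by omega) (by omega)
  have hr1 : r + 1 < b ^ (M + 1) * (ω + 1) := by
    rw [hr, mul_add, mul_one]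
    have : b ^ M + 1 ≤ b ^ (M + 1) := hbM
    omega
  have hK : b ^ (M + 1) * b ^ Gd = b ^ (M + 1 + Gd) := by rw [← pow_add]
  have hr2 : r + 1 < b ^ (M + 1 + Gd) := by
    rw [← hK]
    exact lt_of_lt_of_le hr1 (Nat.mul_le_mul_left _ hω)
  obtain ⟨w1, w2⟩ := hw r (by omega) (by omega)
  obtain ⟨w3, w4⟩ := hw (r + 1) (by omega) (by omega)
  rw [hK] at w1 w2 w3 w4
  have hrel := hn r hr2 (w1.trans w3.symm) (w2.trans w4.symm)
  have hmod : (β * p * r + u) % b ^ (M + (k - 1)) = ν := by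
    have e1 : β * p * r + u = (β * p * x + u) + (b ^ M * β) * (b * p * ω) := by
      rw [hr, pow_succ]; ring
    rw [e1, pow_add, ← hβ, Nat.add_mul_mod_self_left, hx2]
    apply Nat.mod_eq_of_lt
    have : b ^ M * 1 ≤ b ^ M * β := Nat.mul_le_mul_left _ hβ0
    omega
  have hinc := inc_local (w := T) hb h.one h.dig M (β * p * r + u) ν (β * p) hmod hM
  have e2 : β * p * (r + 1) + u = β * p * r + u + β * p := by ring
  rw [← hβ, e2, hinc] at hrel
  have := rho_conj f _ _ z hz ε hrel a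
  exact this

lemma cg_one (s : ℕ) : CG b k T p q s 1 := by
  refine ⟨0, 0, le_rfl, fun u v z ε f _ _ _ _ a => ?_⟩
  simp

lemma cg_mul (hb : 2 ≤ b) (s : ℕ) (g g' : G) (h : CG b k T p q s g) (h' : CG b k T p q s g') :
    CG b k T p q s (g * g') := by
  obtain ⟨K, C, hC, h⟩ := h
  obtain ⟨K', C', hC', h'⟩ := h'
  refine ⟨max K K', C + C', by positivity, fun u v z ε f hu hz hε hn a => ?_⟩
  obtain ⟨a1, a2⟩ := h u v z ε f hu hz hε (near_mono hb (le_max_left _ _) hn) a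
  obtain ⟨a3, a4⟩ := h' u v z ε f hu hz hε (near_mono hb (le_max_right _ _) hn) (g⁻¹ * a * g)
  have e : (g * g')⁻¹ * a * (g * g') = g'⁻¹ * (g⁻¹ * a * g) * g' := by group
  rw [e]
  constructor <;> nlinarith

lemma cg_inv (s : ℕ) (g : G) (h : CG b k T p q s g) : CG b k T p q s g⁻¹ := by
  obtain ⟨K, C, hC, h⟩ := h
  refine ⟨K, C, hC, fun u v z ε f hu hz hε hn a => ?_⟩
  obtain ⟨a1, a2⟩ := h u v z ε f hu hz hε hn (g⁻¹⁻¹ * a * g⁻¹)
  have e : g⁻¹ * (g⁻¹⁻¹ * a * g⁻¹) * g = a := by group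
  rw [e] at a1 a2
  exact ⟨a2, a1⟩

lemma cg_all (h : NT b k T) (hp : p.Prime) (hpb : ¬ p ∣ b) (hpb1 : ¬ p ∣ b - 1) (s : ℕ) (g : G) :
    CG b k T p q s g := by
  have hb := h.two
  have hg : g ∈ Subgroup.closure {g : G | ∃ ν, ν % b ^ (k - 1) = s % b ^ (k - 1) ∧
      g = T (ν + b ^ (k - 1) * p) * (T ν)⁻¹} := by
    rw [genp h p hp hpb hpb1 s]
    trivial
  have hcop : p.Coprime b := (Nat.Prime.coprime_iff_not_dvd hp).2 hpb
  induction hg using Subgroup.closure_induction with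
  | mem x hx =>
    obtain ⟨ν, h1, rfl⟩ := hx
    exact cg_gen h hcop s ν h1
  | one => exact cg_one s
  | mul x y _ _ hx hy => exact cg_mul hb s x y hx hy
  | inv x _ hx => exact cg_inv s x hx

/-- the uniform statement -/
lemma cg_uni (h : NT b k T) (hp : p.Prime) (hpb : ¬ p ∣ b) (hpb1 : ¬ p ∣ b - 1) :
    ∃ K : ℕ, ∃ C : ℝ, 0 ≤ C ∧ ∀ (g : G) (u v : ℕ) (z : ℂ) (ε : ℝ) (f : EG G),
      ‖z‖ = 1 → 0 ≤ ε → Near b k T p q K u v z ε f →
      ∀ a, rho f (g⁻¹ * a * g) ≤ rho f a + C * ε ∧ rho f a ≤ rho f (g⁻¹ * a * g) + C * ε := by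
  have hb := h.two
  have hβ0 : 0 < b ^ (k - 1) := by positivity
  have hall := fun (x : Fin (b ^ (k - 1)) × G) => cg_all (q := q) h hp hpb hpb1 x.1 x.2
  unfold CG at hall
  choose K C hC hall using hall
  refine ⟨univ.sup K, ∑ x, C x, sum_nonneg fun x _ => hC x, fun g u v z ε f hz hε hn a => ?_⟩
  set x : Fin (b ^ (k - 1)) × G := (⟨u % b ^ (k - 1), Nat.mod_lt _ hβ0⟩, g) with hx
  obtain ⟨a1, a2⟩ := hall x u v z ε f (by rw [hx]; simp) hz hε
    (near_mono hb (le_sup (f := K) (mem_univ x)) hn) a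
  have h1 : C x ≤ ∑ x, C x := single_le_sum (f := C) (fun x _ => hC x) (mem_univ x)
  have h2 : C x * ε ≤ (∑ x, C x) * ε := mul_le_mul_of_nonneg_right h1 hε
  constructor
  · exact a1.trans (by linarith)
  · exact a2.trans (by linarith)

/-- the relations from the crossings -/
lemma crossing_rel (h : NT b k T) (hp : p.Prime) (hpb : ¬ p ∣ b) (hp3 : 3 ≤ p) (hq : 0 < q)
    (hpq : ¬ p ∣ q) (n₁ n₂ : ℕ) (h12 : n₁ % b ^ (k - 1) = n₂ % b ^ (k - 1)) :
    ∃ K : ℕ, ∀ (u v : ℕ) (z : ℂ) (ε : ℝ) (f : EG G), ‖z‖ = 1 → Near b k T p q K u v z ε f →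
      ∃ g₀ : G, rho f (g₀ * ((T (n₁ + 1) * (T n₁)⁻¹)⁻¹ * (T (n₂ + 1) * (T n₂)⁻¹)) * g₀⁻¹) ≤ 2 * ε := by
  have hb := h.two
  have hk := h.one
  have hcop : p.Coprime b := (Nat.Prime.coprime_iff_not_dvd hp).2 hpb
  have hpq' : ¬ p ∣ b ^ (k - 1) * q := by
    intro hd
    rcases (Nat.Prime.dvd_mul hp).1 hd with h1 | h1
    · exact hpb (hp.dvd_of_dvd_pow h1)
    · exact hpq h1
  set M : ℕ := max (n₁ + 1) (n₂ + 1) with hM
  have hM1 : n₁ + 1 < b ^ M := lt_of_le_of_lt (le_max_left _ _) (Nat.lt_pow_self (by omega))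
  have hM2 : n₂ + 1 < b ^ M := lt_of_le_of_lt (le_max_right _ _) (Nat.lt_pow_self (by omega))
  have hMM : b ^ M ≤ b ^ (M + (k - 1)) := Nat.pow_le_pow_right (by omega) (by omega)
  have hm1 : n₁ % b ^ (M + (k - 1)) = n₁ := Nat.mod_eq_of_lt (by omega)
  have hm2 : n₂ % b ^ (M + (k - 1)) = n₂ := Nat.mod_eq_of_lt (by omega)
  obtain ⟨J, K, hJK, hpts⟩ := pts b k p q M n₁ n₂ hb hp3 hq hcop hpq' h12
  refine ⟨K, fun u v z ε f hz hn => ?_⟩
  obtain ⟨r₀, r₁, r₂, a, A, A', c1, c2, c3, c4, c5, c6, c7, c8, c9⟩ := hpts u v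
  rw [hm1] at c7
  rw [hm2] at c8
  set β := b ^ (k - 1) with hβ
  set g₀ : G := WG b T J (β * p * r₀ + u) with hg₀
  set g₁ : G := WG b T J (β * p * (r₀ + 1) + u) with hg₁
  set γ' : G := WG b T J (β * q * (r₀ + 1) + v) * (WG b T J (β * q * r₀ + v))⁻¹ with hγ'
  have hT := h.dig
  have hrel : ∀ i, (i = r₁ ∨ i = r₂) → b ^ J * (i + 1) ≤ b ^ K →
      ‖z • L (g₁ * (T (β * p * i + a + 1) * (T (β * p * i + a))⁻¹) * g₀⁻¹, γ') f - f‖ ≤ ε := by
    intro i hi hiK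
    obtain ⟨d1, d2⟩ := c9 i r₀ hi (Or.inl rfl)
    obtain ⟨d3, d4⟩ := c9 i (r₀ + 1) hi (Or.inr rfl)
    have hlt : b ^ J * i + r₀ + 1 < b ^ K := by
      calc b ^ J * i + r₀ + 1 < b ^ J * i + b ^ J := by omega
        _ = b ^ J * (i + 1) := by ring
        _ ≤ _ := hiK
    have hh := hn (b ^ J * i + r₀) hlt (by rw [← hβ, add_assoc (b ^ J * i), d1, d3])
      (by rw [← hβ, add_assoc (b ^ J * i), d2, d4])
    rw [← hβ, add_assoc (b ^ J * i)] at hh
    have e1 : T (β * p * (b ^ J * i + r₀) + u) = g₀ * T (β * p * i + a) := by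
      have := star' (w := T) hb hk hT J (p * i) (β * p * r₀ + u)
      rw [← hβ] at this
      rw [show β * p * (b ^ J * i + r₀) + u = b ^ J * (β * (p * i)) + (β * p * r₀ + u) by ring,
        this, c4, show β * (p * i) = β * p * i by ring]
    have e2 : T (β * p * (b ^ J * i + (r₀ + 1)) + u) = g₁ * T (β * p * i + a + 1) := by
      have := star' (w := T) hb hk hT J (p * i) (β * p * (r₀ + 1) + u)
      rw [← hβ] at this
      rw [show β * p * (b ^ J * i + (r₀ + 1)) + u =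
        b ^ J * (β * (p * i)) + (β * p * (r₀ + 1) + u) by ring, this, c5,
        show β * (p * i) + (a + 1) = β * p * i + a + 1 by ring]
    have e3 : T (β * q * (b ^ J * i + r₀) + v) = WG b T J (β * q * r₀ + v) *
        T (β * (q * i) + (β * q * r₀ + v) / b ^ J) := by
      have := star' (w := T) hb hk hT J (q * i) (β * q * r₀ + v)
      rw [← hβ] at this
      rw [show β * q * (b ^ J * i + r₀) + v = b ^ J * (β * (q * i)) + (β * q * r₀ + v) by ring,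
        this]
    have e4 : T (β * q * (b ^ J * i + (r₀ + 1)) + v) = WG b T J (β * q * (r₀ + 1) + v) *
        T (β * (q * i) + (β * q * r₀ + v) / b ^ J) := by
      have := star' (w := T) hb hk hT J (q * i) (β * q * (r₀ + 1) + v)
      rw [← hβ] at this
      rw [show β * q * (b ^ J * i + (r₀ + 1)) + v =
        b ^ J * (β * (q * i)) + (β * q * (r₀ + 1) + v) by ring, this, c6]
    rw [e1, e2, e3, e4] at hh
    have e5 : g₁ * T (β * p * i + a + 1) * (g₀ * T (β * p * i + a))⁻¹ =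
        g₁ * (T (β * p * i + a + 1) * (T (β * p * i + a))⁻¹) * g₀⁻¹ := by group
    have e6 : WG b T J (β * q * (r₀ + 1) + v) * T (β * (q * i) + (β * q * r₀ + v) / b ^ J) *
        (WG b T J (β * q * r₀ + v) * T (β * (q * i) + (β * q * r₀ + v) / b ^ J))⁻¹ = γ' := by
      rw [hγ']; group
    rw [e5, e6] at hh
    exact hh
  have i1 : T (β * p * r₁ + a + 1) * (T (β * p * r₁ + a))⁻¹ = T (n₁ + 1) * (T n₁)⁻¹ :=
    inc_local (w := T) hb hk hT M _ n₁ 1 c7 hM1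
  have i2 : T (β * p * r₂ + a + 1) * (T (β * p * r₂ + a))⁻¹ = T (n₂ + 1) * (T n₂)⁻¹ :=
    inc_local (w := T) hb hk hT M _ n₂ 1 c8 hM2
  have r1 := hrel r₁ (Or.inl rfl) c2
  have r2 := hrel r₂ (Or.inr rfl) c3
  rw [i1] at r1
  rw [i2] at r2
  set D₁ : G := T (n₁ + 1) * (T n₁)⁻¹ with hD₁
  set D₂ : G := T (n₂ + 1) * (T n₂)⁻¹ with hD₂
  refine ⟨g₀, ?_⟩
  unfold rho
  have h3 : ‖z • L (g₁ * D₂ * g₀⁻¹, γ') f - z • L (g₁ * D₁ * g₀⁻¹, γ') f‖ ≤ 2 * ε := by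
    have h4 : z • L (g₁ * D₂ * g₀⁻¹, γ') f - z • L (g₁ * D₁ * g₀⁻¹, γ') f =
      (z • L (g₁ * D₂ * g₀⁻¹, γ') f - f) - (z • L (g₁ * D₁ * g₀⁻¹, γ') f - f) := by abel
    rw [h4]
    refine (norm_sub_le _ _).trans ?_
    linarith
  have h5 : z • L (g₁ * D₂ * g₀⁻¹, γ') f - z • L (g₁ * D₁ * g₀⁻¹, γ') f =
      z • L (g₁ * D₁ * g₀⁻¹, γ') (L (g₀ * (D₁⁻¹ * D₂) * g₀⁻¹, 1) f - f) := by
    rw [map_sub, smul_sub, ← L_mul, Prod.mk_mul_mk, mul_one]
    congr 4
    group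
  rw [h5, norm_smul, hz, one_mul, LinearIsometryEquiv.norm_map] at h3
  exact h3

end

end Pool.Agent.U602.NA
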