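import Pool.Agent.U602.MS.Win

set_option autoImplicit false
set_option linter.unusedSectionVars false

/-! Normalized block-digital functions with values in a finite group. -/

namespace Pool.Agent.U602.NA

open Finset
open Pool.Agent.U602.MS (WG WG_cong WG_per S_window)

/-- normalized block-digital functions -/
structure NT {G : Type} [Group G] (b k : ℕ) (T : ℕ → G) : Prop where
  two : 2 ≤ b
  one : 1 ≤ k
  base : ∀ s, s < b ^ (k - 1) → T s = 1
  dig : ∀ n, T n = T (n % b ^ k) * T (n / b)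
  full : ∀ (g : G) (u : ℕ), ∃ ν, ν % b ^ (k - 1) = u % b ^ (k - 1) ∧ T ν = g

section

variable {G : Type} [Group G] {b k : ℕ} {T : ℕ → G}

lemma star' {w : ℕ → G} (hb : 2 ≤ b) (hk : 1 ≤ k) (hT : ∀ n, T n = w (n % b ^ k) * T (n / b))
    (J c n : ℕ) : T (b ^ J * (b ^ (k - 1) * c) + n) =
      WG b T J n * T (b ^ (k - 1) * c + n / b ^ J) := by
  have h1 : WG b T J (b ^ J * (b ^ (k - 1) * c) + n) = WG b T J n := by
    apply WG_cong hb hk hT J
    rw [pow_add, ← mul_assoc, add_comm, Nat.add_mul_mod_self_left]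
  have h2 : (b ^ J * (b ^ (k - 1) * c) + n) / b ^ J = b ^ (k - 1) * c + n / b ^ J := by
    rw [Nat.mul_add_div (by positivity)]
  rw [← h1]
  conv_rhs => rw [WG, h2, inv_mul_cancel_right]

lemma inc_local {w : ℕ → G} (hb : 2 ≤ b) (hk : 1 ≤ k) (hT : ∀ n, T n = w (n % b ^ k) * T (n / b))
    (M n ν l : ℕ) (hn : n % b ^ (M + (k - 1)) = ν) (hν : ν + l < b ^ M) :
    T (n + l) * (T n)⁻¹ = T (ν + l) * (T ν)⁻¹ := by
  have hB : 0 < b ^ M := by positivity
  have hd : b ^ M ∣ b ^ (M + (k - 1)) := pow_dvd_pow _ (by omega)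
  have hBB : b ^ M ≤ b ^ (M + (k - 1)) := Nat.le_of_dvd (by positivity) hd
  have hnM : n % b ^ M = ν := by
    rw [← Nat.mod_mod_of_dvd n hd, hn, Nat.mod_eq_of_lt (by omega)]
  have hνM : ν % b ^ M = ν := Nat.mod_eq_of_lt (by omega)
  rw [S_window (S := T) hb M n l (by rw [hnM]; exact hν),
    S_window (S := T) hb M ν l (by rw [hνM]; exact hν), mul_inv_cancel_right, mul_inv_cancel_right]
  have e1 : WG b T M (n + l) = WG b T M (ν + l) := by
    apply WG_cong hb hk hT M
    rw [Nat.add_mod, hn]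
    conv_rhs => rw [Nat.add_mod, Nat.mod_eq_of_lt (show ν < b ^ (M + (k - 1)) by omega)]
  have e2 : WG b T M n = WG b T M ν := by
    apply WG_cong hb hk hT M
    rw [hn, Nat.mod_eq_of_lt (show ν < b ^ (M + (k - 1)) by omega)]
  rw [e1, e2]

lemma NT.app (h : NT b k T) (M m z : ℕ) (hz : z < b ^ M) :
    T (b ^ M * m + z) = T (b ^ M * (m % b ^ (k - 1)) + z) * T m := by
  have hb := h.two
  have hβ : 0 < b ^ (k - 1) := by positivity
  have h1 : WG b T M (b ^ M * m + z) = WG b T M (b ^ M * (m % b ^ (k - 1)) + z) := by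
    apply WG_cong h.two h.one h.dig M
    rw [pow_add]
    conv_lhs => rw [← Nat.div_add_mod m (b ^ (k - 1))]
    rw [show b ^ M * (b ^ (k - 1) * (m / b ^ (k - 1)) + m % b ^ (k - 1)) + z =
      (b ^ M * (m % b ^ (k - 1)) + z) + (b ^ M * b ^ (k - 1)) * (m / b ^ (k - 1)) by ring,
      Nat.add_mul_mod_self_left]
  have e1 : (b ^ M * m + z) / b ^ M = m := by
    rw [Nat.mul_add_div (by positivity), Nat.div_eq_of_lt hz, add_zero]
  have e2 : (b ^ M * (m % b ^ (k - 1)) + z) / b ^ M = m % b ^ (k - 1) := by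
    rw [Nat.mul_add_div (by positivity), Nat.div_eq_of_lt hz, add_zero]
  unfold WG at h1
  rw [e1, e2, h.base _ (Nat.mod_lt _ hβ), inv_one, mul_one] at h1
  rw [← h1, inv_mul_cancel_right]

/-- the group generated by the increments of length `β p` in one class -/
theorem genp (h : NT b k T) (p : ℕ) (hp : p.Prime) (hpb : ¬ p ∣ b)
    (hpb1 : ¬ p ∣ b - 1) (u : ℕ) :
    Subgroup.closure {g : G | ∃ ν, ν % b ^ (k - 1) = u % b ^ (k - 1) ∧
      g = T (ν + b ^ (k - 1) * p) * (T ν)⁻¹} = ⊤ := by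
  have hb := h.two
  set β := b ^ (k - 1) with hβ
  have hβ0 : 0 < β := by positivity
  have hp0 : 0 < p := hp.pos
  have hβp : 0 < β * p := Nat.mul_pos hβ0 hp0
  set Γ := Subgroup.closure {g : G | ∃ ν, ν % β = u % β ∧ g = T (ν + β * p) * (T ν)⁻¹} with hΓ
  -- steps
  have s1 : ∀ r j : ℕ, r % β = u % β → T (r + β * p * j) * (T r)⁻¹ ∈ Γ := by
    intro r j hr
    induction j with
    | zero => simp
    | succ j ih =>
      have h1 : T ((r + β * p * j) + β * p) * (T (r + β * p * j))⁻¹ ∈ Γ := by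
        apply Subgroup.subset_closure
        refine ⟨r + β * p * j, ?_, rfl⟩
        rw [mul_assoc, Nat.add_mul_mod_self_left, hr]
      have h2 := Γ.mul_mem h1 ih
      rw [show r + β * p * (j + 1) = (r + β * p * j) + β * p by ring]
      simpa [mul_assoc] using h2
  have s1' : ∀ ν ν' : ℕ, ν % β = u % β → ν % (β * p) = ν' % (β * p) → T ν * (T ν')⁻¹ ∈ Γ := by
    intro ν ν' h1 h2
    have hr : (ν % (β * p)) % β = u % β := by
      rw [Nat.mod_mod_of_dvd _ (Dvd.intro _ rfl), h1]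
    have g1 := s1 (ν % (β * p)) (ν / (β * p)) hr
    have g2 := s1 (ν' % (β * p)) (ν' / (β * p)) (by rw [← h2]; exact hr)
    rw [Nat.mod_add_div] at g1 g2
    rw [← h2] at g2
    have g3 := Γ.mul_mem g1 (Γ.inv_mem g2)
    simpa [mul_assoc] using g3
  have s2 : ∀ μ ν' : ℕ, ν' % β = u % β →
      T ν' * ((T μ)⁻¹ * T (μ + β * p)) * (T ν')⁻¹ ∈ Γ := by
    intro μ ν' hν'
    set M := (k - 1) + β * p with hM
    have hM1 : β * p ≤ b ^ M := le_trans (by omega) (Nat.lt_pow_self (by omega : 1 < b)).le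
    set z := (ν' + (β * p - 1) * (b ^ M * μ)) % (β * p) with hz
    have hzlt : z < b ^ M := lt_of_lt_of_le (Nat.mod_lt _ hβp) hM1
    have hcong : (b ^ M * μ + z) % (β * p) = ν' % (β * p) := by
      rw [hz, Nat.add_mod_mod]
      have : b ^ M * μ + (ν' + (β * p - 1) * (b ^ M * μ)) = ν' + β * p * (b ^ M * μ) := by
        obtain ⟨γ, hγ⟩ : ∃ γ, β * p = γ + 1 := ⟨β * p - 1, by omega⟩
        rw [hγ, Nat.add_sub_cancel]
        ring
      rw [this, Nat.add_mul_mod_self_left]
    set ν := b ^ M * μ + z with hν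
    have hνu : ν % β = u % β := by
      rw [← hν', ← Nat.mod_mod_of_dvd ν (Dvd.intro p rfl : β ∣ β * p), hcong,
        Nat.mod_mod_of_dvd _ (Dvd.intro _ rfl)]
    have a1 := h.app M μ z hzlt
    have a2 := h.app M (μ + β * p) z hzlt
    rw [← hβ, Nat.add_mul_mod_self_left] at a2
    rw [← hβ, ← hν] at a1
    have g1 : T (ν + β * p * b ^ M) * (T ν)⁻¹ ∈ Γ := s1 ν (b ^ M) hνu
    rw [show ν + β * p * b ^ M = b ^ M * (μ + β * p) + z by rw [hν]; ring, a2] at g1
    have hW : T (b ^ M * (μ % β) + z) = T ν * (T μ)⁻¹ := by rw [a1, mul_inv_cancel_right]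
    rw [hW] at g1
    have g2 := s1' ν' ν hν' hcong.symm
    have g3 := Γ.mul_mem (Γ.mul_mem g2 g1) (Γ.inv_mem g2)
    have e : T ν' * (T ν)⁻¹ * (T ν * (T μ)⁻¹ * T (μ + β * p) * (T ν)⁻¹) * (T ν' * (T ν)⁻¹)⁻¹ =
        T ν' * ((T μ)⁻¹ * T (μ + β * p)) * (T ν')⁻¹ := by group
    rw [e] at g3
    exact g3
  have s3 : ∀ (g : G) (μ : ℕ), g * ((T μ)⁻¹ * T (μ + β * p)) * g⁻¹ ∈ Γ := by
    intro g μ
    obtain ⟨ν, h1, rfl⟩ := h.full g u
    exact s2 μ ν h1
  have s4 : Γ.Normal := by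
    refine ⟨fun x hx g => ?_⟩
    induction hx using Subgroup.closure_induction with
    | mem x hx =>
      obtain ⟨ν, _, rfl⟩ := hx
      have := s3 (g * T ν) ν
      have e : g * T ν * ((T ν)⁻¹ * T (ν + β * p)) * (g * T ν)⁻¹ =
          g * (T (ν + β * p) * (T ν)⁻¹) * g⁻¹ := by group
      rwa [e] at this
    | one => simp
    | mul x y _ _ hx hy =>
      have := Γ.mul_mem hx hy
      have e : g * x * g⁻¹ * (g * y * g⁻¹) = g * (x * y) * g⁻¹ := by group
      rwa [e] at this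
    | inv x _ hx =>
      have := Γ.inv_mem hx
      have e : (g * x * g⁻¹)⁻¹ = g * x⁻¹ * g⁻¹ := by group
      rwa [e] at this
  set t : ℕ → G ⧸ Γ := fun n => ((T n : G) : G ⧸ Γ) with ht
  have t1 : ∀ μ, t (μ + β * p) = t μ := by
    intro μ
    have := s3 1 μ
    rw [one_mul, inv_one, mul_one] at this
    exact (QuotientGroup.eq.2 this).symm
  have t2 : ∀ m n : ℕ, m % (β * p) = n % (β * p) → t m = t n := by
    have t3 : ∀ j r, t (r + β * p * j) = t r := by
      intro j
      induction j with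
      | zero => intro r; simp
      | succ j ih => intro r; rw [show r + β * p * (j + 1) = (r + β * p * j) + β * p by ring, t1, ih]
    intro m n hmn
    rw [← Nat.mod_add_div m (β * p), ← Nat.mod_add_div n (β * p), t3, t3, hmn]
  have t4 : ∀ M m z : ℕ, β ∣ m → z < b ^ M → t (b ^ M * m + z) = t z * t m := by
    intro M m z hm hz
    have := h.app M m z hz
    rw [← hβ, Nat.mod_eq_zero_of_dvd hm, mul_zero, zero_add] at this
    rw [ht]
    simp only
    rw [this]
    rfl
  have hbp : ∀ j, b ^ ((p - 1) * j) % p = 1 % p := by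
    intro j
    have hc : b.Coprime p := ((Nat.Prime.coprime_iff_not_dvd hp).2 hpb).symm
    have h1 : b ^ (p - 1) ≡ 1 [MOD p] := by
      have := Nat.ModEq.pow_totient hc
      rwa [Nat.totient_prime hp] at this
    have h2 := h1.pow j
    rw [one_pow, ← pow_mul] at h2
    exact h2
  have hcong : ∀ c m z : ℕ, c % p = 1 % p → β ∣ m → (c * m + z) % (β * p) = (m + z) % (β * p) := by
    intro c m z hc hm
    obtain ⟨m', rfl⟩ := hm
    have h1 : c * m' ≡ 1 * m' [MOD p] := Nat.ModEq.mul_right _ hc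
    have h2 : β * (c * m') ≡ β * (1 * m') [MOD β * p] := Nat.ModEq.mul_left' _ h1
    have h3 := h2.add_right z
    rw [show c * (β * m') + z = β * (c * m') + z by ring, show β * m' + z = β * (1 * m') + z by ring]
    exact h3
  have hp1 : 1 ≤ p - 1 := by have := hp.two_le; omega
  have t5 : ∀ m z : ℕ, β ∣ m → t (m + z) = t z * t m := by
    intro m z hm
    have hz : z < b ^ ((p - 1) * (z + 1)) := by
      refine lt_of_lt_of_le ?_ (Nat.lt_pow_self (by omega : 1 < b)).le
      nlinarith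
    rw [← t4 _ m z hm hz]
    exact (t2 _ _ (hcong _ m z (hbp _) hm)).symm
  have t6 : ∀ m : ℕ, β ∣ m → t (b * m) = t m := by
    intro m hm
    have hz : 0 < b ^ ((p - 1) * 1 + 1) := by positivity
    have h1 := t4 ((p - 1) * 1 + 1) m 0 hm hz
    have h0 : t 0 = 1 := by
      rw [ht]
      simp only
      rw [h.base 0 (by rw [← hβ]; exact hβ0)]
      rfl
    rw [h0, one_mul, add_zero] at h1
    rw [← h1]
    apply t2
    have h2 := hcong (b ^ ((p - 1) * 1)) (b * m) 0 (hbp 1) (hm.mul_left b)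
    rw [add_zero, add_zero] at h2
    rw [← h2]
    congr 1
    rw [pow_succ]
    ring
  have h0 : t 0 = 1 := by
    rw [ht]
    simp only
    rw [h.base 0 (by rw [← hβ]; exact hβ0)]
    rfl
  have t7 : ∀ j m : ℕ, β ∣ m → t (j * m) = t m ^ j := by
    intro j m hm
    induction j with
    | zero => simp [h0]
    | succ j ih =>
      rw [show (j + 1) * m = m + j * m by ring, t5 m (j * m) hm, ih, pow_succ]
  have t8 : ∀ m : ℕ, β ∣ m → t m = 1 := by
    intro m hm
    have h1 : t m ^ (b - 1) = 1 := by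
      have h2 := t7 b m hm
      rw [t6 m hm] at h2
      have h3 : t m ^ (b - 1) * t m = 1 * t m := by
        rw [← pow_succ, Nat.sub_add_cancel (by omega), ← h2, one_mul]
      exact mul_right_cancel h3
    have h2 : t m ^ p = 1 := by
      rw [← t7 p m hm, ← h0]
      apply t2
      obtain ⟨m', rfl⟩ := hm
      rw [show p * (β * m') = β * p * m' by ring, Nat.mul_mod_right, Nat.zero_mod]
    have h3 : Nat.gcd p (b - 1) = 1 := (Nat.Prime.coprime_iff_not_dvd hp).2 hpb1
    have h4 : orderOf (t m) ∣ Nat.gcd p (b - 1) :=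
      Nat.dvd_gcd (orderOf_dvd_of_pow_eq_one h2) (orderOf_dvd_of_pow_eq_one h1)
    rw [h3, Nat.dvd_one, orderOf_eq_one_iff] at h4
    exact h4
  rw [eq_top_iff]
  intro g _
  obtain ⟨m, hm1, rfl⟩ := h.full g 0
  rw [Nat.zero_mod] at hm1
  have := t8 m (Nat.dvd_of_mod_eq_zero hm1)
  rw [ht] at this
  exact (QuotientGroup.eq_one_iff _).1 this

end

end Pool.Agent.U602.NA
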