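import Pool.Agent.U602.NA.Aut
import Pool.Agent.U602.MS.Two

set_option autoImplicit false
set_option linter.unusedSectionVars false

/-! Arbitrary products of subshifts, with coefficients in a C*-algebra. -/

namespace Pool.Agent.U602.NA

open Finset Filter Topology
open Pool.Agent.U602.MS
open Pool.Agent.H469R2.NK (e norm_e e_add e_zero conj_e)

section compact

variable {ι : Type} {A : ι → Type} [∀ i, TopologicalSpace (A i)] [∀ i, Finite (A i)]
    [∀ i, DiscreteTopology (A i)] {B : Type*} [SeminormedAddCommGroup B]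

/-- compactness -/
lemma approx_inf (q : ∀ i, ℕ → A i) (u : C(∀ i, XZ (q i), B)) (ε : ℝ) (hε : 0 < ε) :
    ∃ (s : Finset ι) (L : ℕ), ∀ z z' : ∀ i, XZ (q i),
      (∀ i ∈ s, ∀ j : ℤ, |j| ≤ L → (z i).1 j = (z' i).1 j) → ‖u z - u z'‖ < ε := by
  classical
  by_contra hcon
  push Not at hcon
  set t : Finset ι × ℕ → Set ((∀ i, XZ (q i)) × (∀ i, XZ (q i))) := fun p =>
    {z | (∀ i ∈ p.1, ∀ j : ℤ, |j| ≤ p.2 → (z.1 i).1 j = (z.2 i).1 j) ∧ ε ≤ ‖u z.1 - u z.2‖} with ht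
  have hco : ∀ (i : ι) (j : ℤ), Continuous (fun z : ∀ i, XZ (q i) => (z i).1 j) := fun i j =>
    (continuous_apply j).comp (continuous_subtype_val.comp (continuous_apply i))
  have hcl : ∀ p, IsClosed (t p) := by
    intro p
    have h1 : t p = (⋂ i, ⋂ (_ : i ∈ p.1), ⋂ j : ℤ, ⋂ (_ : |j| ≤ p.2),
        {z | (z.1 i).1 j = (z.2 i).1 j}) ∩ {z | ε ≤ ‖u z.1 - u z.2‖} := by
      ext z
      simp only [ht, Set.mem_ofPred_eq, Set.mem_inter_iff, Set.mem_iInter]
    rw [h1]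
    refine IsClosed.inter ?_ ?_
    · refine isClosed_iInter fun i => isClosed_iInter fun _ => isClosed_iInter fun j =>
        isClosed_iInter fun _ => ?_
      exact isClosed_eq ((hco i j).comp continuous_fst) ((hco i j).comp continuous_snd)
    · exact isClosed_le continuous_const
        (((u.continuous.comp continuous_fst).sub (u.continuous.comp continuous_snd)).norm)
  obtain ⟨z, hz⟩ := IsCompact.nonempty_iInter_of_directed_nonempty_isCompact_isClosed t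
    (fun p p' => ⟨(p.1 ∪ p'.1, max p.2 p'.2),
      fun z hz => ⟨fun i hi j hj => hz.1 i (mem_union_left _ hi) j
        (hj.trans (by exact_mod_cast le_max_left _ _)), hz.2⟩,
      fun z hz => ⟨fun i hi j hj => hz.1 i (mem_union_right _ hi) j
        (hj.trans (by exact_mod_cast le_max_right _ _)), hz.2⟩⟩)
    (fun p => by
      obtain ⟨z, z', h1, h2⟩ := hcon p.1 p.2
      exact ⟨(z, z'), h1, h2⟩)
    (fun p => (hcl p).isCompact) hcl
  rw [Set.mem_iInter] at hz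
  have h1 : z.1 = z.2 := by
    funext i
    refine Subtype.ext (funext fun j => ?_)
    refine (hz ({i}, j.natAbs)).1 i (mem_singleton_self i) j ?_
    simp
  have h2 := (hz (∅, 0)).2
  rw [h1, sub_self, norm_zero] at h2
  linarith

end compact

section coeff

variable {B : Type} [NonUnitalCStarAlgebra B]

lemma iter_norm (β : B ≃⋆ₐ[ℂ] B) (n : ℕ) (v : B) : ‖β^[n] v‖ = ‖v‖ := by
  induction n with
  | zero => rfl
  | succ n ih => rw [Function.iterate_succ_apply', StarAlgEquiv.norm_map, ih]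

lemma iter_zero (β : B ≃⋆ₐ[ℂ] B) (n : ℕ) : β^[n] (0 : B) = 0 := by
  have := iter_norm β n 0
  rwa [norm_zero, norm_eq_zero] at this

lemma iter_add (β : B ≃⋆ₐ[ℂ] B) (n : ℕ) (v w : B) : β^[n] (v + w) = β^[n] v + β^[n] w := by
  induction n with
  | zero => rfl
  | succ n ih => rw [Function.iterate_succ_apply', Function.iterate_succ_apply',
      Function.iterate_succ_apply', ih, map_add]

lemma iter_smul (β : B ≃⋆ₐ[ℂ] B) (n : ℕ) (z : ℂ) (v : B) : β^[n] (z • v) = z • β^[n] v := by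
  induction n with
  | zero => rfl
  | succ n ih => rw [Function.iterate_succ_apply', Function.iterate_succ_apply', ih, map_smul]

lemma iter_sub (β : B ≃⋆ₐ[ℂ] B) (n : ℕ) (v w : B) : β^[n] (v - w) = β^[n] v - β^[n] w := by
  have h1 : v - w = v + (-1 : ℂ) • w := by rw [neg_one_smul, sub_eq_add_neg]
  rw [h1, iter_add, iter_smul, neg_one_smul, sub_eq_add_neg]

lemma iter_eigen (β : B ≃⋆ₐ[ℂ] B) {v : B} {z : ℂ} (h : β v = z • v) (n : ℕ) :
    β^[n] v = z ^ n • v := by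
  induction n with
  | zero => simp
  | succ n ih => rw [Function.iterate_succ_apply', ih, map_smul, h, smul_smul, pow_succ]

lemma eigen_norm (β : B ≃⋆ₐ[ℂ] B) {v : B} {z : ℂ} (h : β v = z • v) (hv : v ≠ 0) : ‖z‖ = 1 := by
  have h1 : ‖β v‖ = ‖v‖ := StarAlgEquiv.norm_map β v
  rw [h, norm_smul] at h1
  have h2 : 0 < ‖v‖ := norm_pos_iff.2 hv
  field_simp at h1
  exact h1

lemma exists_e {z : ℂ} (hz : ‖z‖ = 1) : ∃ θ : ℝ, ∀ n : ℕ, z ^ n = e (n * θ) := by
  refine ⟨Complex.arg z / (2 * Real.pi), fun n => ?_⟩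
  have h2 := Complex.norm_mul_exp_arg_mul_I z
  rw [hz, Complex.ofReal_one, one_mul] at h2
  conv_lhs => rw [← h2]
  unfold e
  rw [← Complex.exp_nat_mul]
  have hpi : (Real.pi : ℂ) ≠ 0 := by exact_mod_cast Real.pi_pos.ne'
  congr 1
  push_cast
  field_simp

/-- the vectors with a bounded functional calculus, uniformly -/
def SV {Γ : Type} (β : Γ → B ≃⋆ₐ[ℂ] B) (v : B) : Prop :=
  ∃ C : ℝ, ∀ (γ : Γ) (N : ℕ) (c : ℕ → ℂ) (K : ℝ),
    (∀ z : ℂ, ‖z‖ = 1 → ‖∑ n ∈ Ioc 0 N, c n * z ^ n‖ ≤ K) →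
      ‖∑ n ∈ Ioc 0 N, c n • (β γ)^[n] v‖ ≤ C * K

lemma SV_zero {Γ : Type} (β : Γ → B ≃⋆ₐ[ℂ] B) : SV β 0 := by
  refine ⟨0, fun γ N c K _ => ?_⟩
  simp only [iter_zero, smul_zero, sum_const_zero, norm_zero, zero_mul, le_refl]

lemma SV_add {Γ : Type} {β : Γ → B ≃⋆ₐ[ℂ] B} {v w : B} (hv : SV β v) (hw : SV β w) :
    SV β (v + w) := by
  obtain ⟨C, hC⟩ := hv
  obtain ⟨D, hD⟩ := hw
  refine ⟨C + D, fun γ N c K hK => ?_⟩
  simp only [iter_add, smul_add, sum_add_distrib]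
  refine (norm_add_le _ _).trans ?_
  have h1 := hC γ N c K hK
  have h2 := hD γ N c K hK
  linarith

lemma SV_smul {Γ : Type} {β : Γ → B ≃⋆ₐ[ℂ] B} {v : B} (x : ℂ) (hv : SV β v) :
    SV β (x • v) := by
  obtain ⟨C, hC⟩ := hv
  refine ⟨‖x‖ * C, fun γ N c K hK => ?_⟩
  have h4 : ∑ n ∈ Ioc 0 N, c n • (β γ)^[n] (x • v) = x • ∑ n ∈ Ioc 0 N, c n • (β γ)^[n] v := by
    rw [smul_sum]
    refine sum_congr rfl fun n _ => ?_
    rw [iter_smul, smul_comm]
  rw [h4, norm_smul, mul_assoc]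
  exact mul_le_mul_of_nonneg_left (hC γ N c K hK) (norm_nonneg _)

lemma SV_eigen {Γ : Type} {β : Γ → B ≃⋆ₐ[ℂ] B} {v : B} (hv : ∀ γ, ∃ z : ℂ, β γ v = z • v) :
    SV β v := by
  by_cases h0 : v = 0
  · subst h0
    exact SV_zero β
  refine ⟨‖v‖, fun γ N c K hK => ?_⟩
  obtain ⟨z, hz⟩ := hv γ
  have h1 : ∑ n ∈ Ioc 0 N, c n • (β γ)^[n] v = (∑ n ∈ Ioc 0 N, c n * z ^ n) • v := by
    rw [sum_smul]
    refine sum_congr rfl fun n _ => ?_
    rw [iter_eigen (β γ) hz, smul_smul]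
  rw [h1, norm_smul, mul_comm]
  exact mul_le_mul_of_nonneg_left (hK z (eigen_norm (β γ) hz h0)) (norm_nonneg _)

lemma SV_span {Γ : Type} {β : Γ → B ≃⋆ₐ[ℂ] B} {v : B}
    (hv : v ∈ Submodule.span ℂ {v : B | ∀ γ, ∃ z : ℂ, β γ v = z • v}) : SV β v := by
  induction hv using Submodule.span_induction with
  | mem v hv => exact SV_eigen hv
  | zero => exact SV_zero β
  | add v w _ _ hv hw => exact SV_add hv hw
  | smul z v _ hv => exact SV_smul z hv

theorem cyl_sum {ι Γ : Type} {A : ι → Type} {q : ∀ i, ℕ → A i} (hq : WP A q) {L : ℕ}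
    (H : (∀ i, Fin L → A i) → ℂ) (β : Γ → B ≃⋆ₐ[ℂ] B) {v : B} (hv : SV β v) :
    ∀ ε : ℝ, 0 < ε → ∃ N₀ : ℕ, ∀ N, N₀ ≤ N → ∀ (c : ι → ℕ) (γ : Γ),
      ‖∑ n ∈ Ioc 0 N, (mob n * H (fun i h => q i (n + c i + h))) • (β γ)^[n] v‖ ≤ ε * N := by
  intro ε hε
  obtain ⟨C, hC⟩ := hv
  obtain ⟨N₀, hN₀⟩ := hq L H (ε / (|C| + 1)) (by positivity)
  refine ⟨N₀, fun N hN c γ => ?_⟩
  refine (hC γ N _ (ε / (|C| + 1) * N) fun z hz => ?_).trans ?_
  · obtain ⟨θ, hθ⟩ := exists_e hz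
    simp only [hθ]
    exact hN₀ N hN c θ
  · calc C * (ε / (|C| + 1) * N) ≤ (|C| + 1) * (ε / (|C| + 1) * N) := by
          refine mul_le_mul_of_nonneg_right ?_ (by positivity)
          have := le_abs_self C
          linarith
      _ = ε * N := by field_simp

end coeff

theorem product_inf {ι Γ : Type} {A : ι → Type} [∀ i, TopologicalSpace (A i)] [∀ i, Finite (A i)]
    [∀ i, DiscreteTopology (A i)] {B : Type} [NonUnitalCStarAlgebra B]
    (q : ∀ i, ℕ → A i) (hq : ∀ s : Finset ι, WP (fun i : s => A i) (fun i => q i))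
    (β : Γ → B ≃⋆ₐ[ℂ] B) (hβ : Dense {v : B | SV β v})
    (u : C(∀ i, XZ (q i), B)) (ε : ℝ) (hε : 0 < ε) :
    ∃ N₀ : ℕ, ∀ N, N₀ ≤ N → ∀ (γ : Γ) (x : ∀ i, XZ (q i)),
      ‖∑ n ∈ Ioc 0 N, mob n • (β γ)^[n] (u (fun i => (shift (q i))^[n] (x i)))‖ ≤ ε * N := by
  classical
  obtain ⟨s, L, hL⟩ := approx_inf q u (ε / 4) (by positivity)
  have : ∀ i, Fintype (A i) := fun i => Fintype.ofFinite _
  set win : (∀ i, XZ (q i)) → ∀ i : s, Fin (2 * L + 1) → A i := fun x i h => (x i).1 ((h : ℤ) - L)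
    with hwin
  have hww : ∀ z z', win z = win z' → ‖u z - u z'‖ < ε / 4 := by
    intro z z' h
    refine hL z z' fun i hi j hj => ?_
    have h1 := congrFun (congrFun h ⟨i, hi⟩) ⟨(j + L).toNat, by rw [abs_le] at hj; omega⟩
    rw [hwin] at h1
    simp only at h1
    rw [abs_le] at hj
    have e1 : (((j + L).toNat : ℕ) : ℤ) - L = j := by omega
    rwa [e1] at h1
  have hex : ∀ a : ∀ i : s, Fin (2 * L + 1) → A i, ∃ v : B, SV β v ∧
      ∀ x, win x = a → ‖u x - v‖ ≤ ε / 2 := by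
    intro a
    by_cases h : ∃ x, win x = a
    · obtain ⟨x₀, hx₀⟩ := h
      obtain ⟨v, hv, hd⟩ := hβ.exists_dist_lt (u x₀) (show 0 < ε / 4 by positivity)
      refine ⟨v, hv, fun x hx => ?_⟩
      have h1 := hww x x₀ (hx.trans hx₀.symm)
      rw [dist_eq_norm] at hd
      calc ‖u x - v‖ = ‖(u x - u x₀) + (u x₀ - v)‖ := by rw [sub_add_sub_cancel]
        _ ≤ _ := norm_add_le _ _
        _ ≤ ε / 2 := by linarith
    · exact ⟨0, SV_zero β, fun x hx => absurd ⟨x, hx⟩ h⟩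
  choose v hv1 hv2 using hex
  set K : ℕ := Fintype.card (∀ i : s, Fin (2 * L + 1) → A i) with hK
  have hK0 : (0 : ℝ) ≤ K := Nat.cast_nonneg _
  choose N₁ hN₁ using fun a => cyl_sum (hq s) (L := 2 * L + 1) (fun x => if x = a then (1 : ℂ) else 0)
    β (hv1 a) (ε / (2 * (K + 1))) (by positivity)
  refine ⟨∑ a, N₁ a, fun N hN γ x => ?_⟩
  choose c' hc' using fun i : s => (x i).2 (N + L)
  set c : s → ℕ := fun i => c' i + N with hc
  have hwn : ∀ n ∈ Ioc 0 N, win (fun i => (shift (q i))^[n] (x i)) =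
      fun (i : s) (h : Fin (2 * L + 1)) => q i (n + c i + h) := by
    intro n hn
    rw [mem_Ioc] at hn
    funext i h
    rw [hwin]
    simp only
    rw [iter_shift]
    simp only
    have h1 := hc' i (N + n + h) (by have := h.2; omega)
    rw [hc]
    simp only
    rw [show n + (c' i + N) + (h : ℕ) = c' i + (N + n + h) by ring, ← h1]
    have e1 : ((N + n + h : ℕ) : ℤ) - ((N + L : ℕ) : ℤ) = n + ((h : ℤ) - L) := by
      push_cast
      ring
    rw [e1]
  set V : ℕ → B := fun n => v (fun (i : s) (h : Fin (2 * L + 1)) => q i (n + c i + h)) with hV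
  have h1 : ‖∑ n ∈ Ioc 0 N, mob n • (β γ)^[n] (u (fun i => (shift (q i))^[n] (x i))) -
      ∑ n ∈ Ioc 0 N, mob n • (β γ)^[n] (V n)‖ ≤ ε / 2 * N := by
    rw [← sum_sub_distrib]
    refine (norm_sum_le _ _).trans ((sum_le_sum (g := fun _ => ε / 2) fun n hn => ?_).trans ?_)
    · rw [← smul_sub, norm_smul, ← iter_sub, iter_norm]
      calc _ ≤ 1 * (ε / 2) := mul_le_mul (norm_mob n) (hv2 _ _ (hwn n hn)) (norm_nonneg _)
            zero_le_one
        _ = _ := one_mul _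
    · rw [sum_const, Nat.card_Ioc, nsmul_eq_mul]; simp; linarith
  have h2 : ‖∑ n ∈ Ioc 0 N, mob n • (β γ)^[n] (V n)‖ ≤ ε / 2 * N := by
    have h3 : ∀ n, mob n • (β γ)^[n] (V n) = ∑ a, (mob n *
        (if (fun (i : s) (h : Fin (2 * L + 1)) => q i (n + c i + h)) = a then (1 : ℂ) else 0)) •
          (β γ)^[n] (v a) := by
      intro n
      simp only [mul_ite, mul_one, mul_zero, ite_smul, zero_smul]
      rw [Finset.sum_ite_eq, if_pos (mem_univ _)]
    rw [sum_congr rfl (fun n _ => h3 n), sum_comm]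
    refine (norm_sum_le _ _).trans ?_
    have h4 : ∀ a ∈ (univ : Finset (∀ i : s, Fin (2 * L + 1) → A i)), ‖∑ n ∈ Ioc 0 N,
        (mob n * (if (fun (i : s) (h : Fin (2 * L + 1)) => q i (n + c i + h)) = a
          then (1 : ℂ) else 0)) • (β γ)^[n] (v a)‖ ≤ ε / (2 * (K + 1)) * N := by
      intro a _
      exact hN₁ a N ((single_le_sum (f := N₁) (fun _ _ => Nat.zero_le _) (mem_univ a)).trans hN)
        c γ
    refine (sum_le_card_nsmul _ _ _ h4).trans ?_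
    rw [nsmul_eq_mul, card_univ, ← hK]
    have h5 : (K : ℝ) * (ε / (2 * (K + 1)) * N) = (K / (K + 1)) * (ε / 2 * N) := by
      field_simp
    rw [h5]
    have h6 : (K : ℝ) / (K + 1) ≤ 1 := by
      rw [div_le_one (by positivity)]
      linarith
    have h7 : 0 ≤ ε / 2 * N := by positivity
    nlinarith
  have h9 := norm_add_le (∑ n ∈ Ioc 0 N, mob n • (β γ)^[n] (u (fun i => (shift (q i))^[n] (x i))) -
      ∑ n ∈ Ioc 0 N, mob n • (β γ)^[n] (V n)) (∑ n ∈ Ioc 0 N, mob n • (β γ)^[n] (V n))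
  rw [sub_add_cancel] at h9
  linarith

end Pool.Agent.U602.NA
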