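import Pool.Agent.H469R2.NK.Vdc
import Pool.Agent.U602.MS.Multi

set_option autoImplicit false
set_option linter.unusedSectionVars false

/-! The inequality of van der Corput for vectors, and correlations of products. -/

namespace Pool.Agent.U602.NA

open Finset
open Pool.Agent.H469R2.NK (shift_sum)

/-- van der Corput's inequality for vectors -/
theorem vdcV {κ : Type} [Fintype κ] (z : κ → ℕ → ℂ) (hz : ∀ g n, ‖z g n‖ ≤ 1) (L H : ℕ) :
    (H : ℝ) * ∑ g, ‖∑ n ∈ range L, z g n‖ ^ 2 ≤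
      (L + H) * (Fintype.card κ * L + 2 * ∑ l ∈ Ico 1 H,
      ‖∑ n ∈ range (L - l), ∑ g, z g (n + l) * (starRingEnd ℂ) (z g n)‖) := by
  rcases Nat.eq_zero_or_pos H with rfl | hH
  · simp; positivity
  set Z : κ → ℕ → ℂ := fun g p => if H ≤ p ∧ p < H + L then z g (p - H) else 0 with hZ
  set c : ℕ → ℂ := fun l => ∑ n ∈ range (L - l), ∑ g, z g (n + l) * (starRingEnd ℂ) (z g n) with hc
  have hZ0 : ∀ g p, ¬ (H ≤ p ∧ p < H + L) → Z g p = 0 := fun g p hp => by simp [hZ, hp]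
  have hZ1 : ∀ g, ∀ n < L, Z g (H + n) = z g n := fun g n hn => by
    simp only [hZ]
    rw [if_pos ⟨by omega, by omega⟩]
    congr 1; omega
  have hS : ∀ g, ∑ m ∈ range (L + H), ∑ j ∈ range H, Z g (m + j) = H * ∑ n ∈ range L, z g n := by
    intro g
    rw [sum_comm]
    have : ∀ j ∈ range H, ∑ m ∈ range (L + H), Z g (m + j) = ∑ n ∈ range L, z g n := by
      intro j hj
      rw [shift_sum (mem_range.mp hj).le (hZ0 g)]
      exact sum_congr rfl fun n hn => hZ1 g n (mem_range.mp hn)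
    rw [sum_congr rfl this, sum_const, card_range, nsmul_eq_mul]
  have hpair : ∀ j l, j + l < H →
      ∑ m ∈ range (L + H), ∑ g, Z g (m + (j + l)) * (starRingEnd ℂ) (Z g (m + j)) = c l := by
    intro j l hjl
    have h1 := shift_sum (G := fun p => ∑ g, Z g (p + l) * (starRingEnd ℂ) (Z g p)) (L := L) (H := H)
      (j := j) (by omega) (fun p hp => by
        refine sum_eq_zero fun g _ => ?_
        rw [hZ0 g p hp, map_zero, mul_zero])
    have h2 : ∀ m, ∑ g, Z g (m + (j + l)) * (starRingEnd ℂ) (Z g (m + j)) =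
        ∑ g, Z g (m + j + l) * (starRingEnd ℂ) (Z g (m + j)) := fun m => by rw [add_assoc]
    rw [sum_congr rfl fun m _ => h2 m, h1, hc]
    simp only
    have h3 : range (L - l) ⊆ range L := range_subset_range.mpr (by omega)
    rw [← sum_subset h3]
    · refine sum_congr rfl fun n hn => sum_congr rfl fun g _ => ?_
      have := mem_range.mp hn
      rw [hZ1 g n (by omega), add_assoc, hZ1 g (n + l) (by omega)]
    · intro n hn hn'
      have h4 := mem_range.mp hn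
      have h5 : ¬ n < L - l := fun h => hn' (mem_range.mpr h)
      refine sum_eq_zero fun g _ => ?_
      rw [hZ0 g (H + n + l) (by omega), zero_mul]
  have hW : ∑ m ∈ range (L + H), ((∑ g, ‖∑ j ∈ range H, Z g (m + j)‖ ^ 2 : ℝ) : ℂ) =
      ∑ j ∈ range H, ∑ j' ∈ range H, ∑ m ∈ range (L + H),
        ∑ g, Z g (m + j) * (starRingEnd ℂ) (Z g (m + j')) := by
    have : ∀ m ∈ range (L + H), ((∑ g, ‖∑ j ∈ range H, Z g (m + j)‖ ^ 2 : ℝ) : ℂ) =
        ∑ j ∈ range H, ∑ j' ∈ range H, ∑ g, Z g (m + j) * (starRingEnd ℂ) (Z g (m + j')) := by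
      intro m _
      push_cast
      have h1 : ∀ g ∈ (univ : Finset κ), ((‖∑ j ∈ range H, Z g (m + j)‖ : ℂ)) ^ 2 =
          ∑ j ∈ range H, ∑ j' ∈ range H, Z g (m + j) * (starRingEnd ℂ) (Z g (m + j')) := by
        intro g _
        rw [← Complex.mul_conj', map_sum, sum_mul_sum]
      rw [sum_congr rfl h1, sum_comm]
      refine sum_congr rfl fun j _ => ?_
      rw [sum_comm]
    rw [sum_congr rfl this, sum_comm]
    refine sum_congr rfl fun j _ => ?_
    rw [sum_comm]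
  have hbound : ∑ m ∈ range (L + H), ∑ g, ‖∑ j ∈ range H, Z g (m + j)‖ ^ 2 ≤
      H * (Fintype.card κ * L + 2 * ∑ l ∈ Ico 1 H, ‖c l‖) := by
    have h1 : ∑ m ∈ range (L + H), ∑ g, ‖∑ j ∈ range H, Z g (m + j)‖ ^ 2 =
        ‖∑ j ∈ range H, ∑ j' ∈ range H, ∑ m ∈ range (L + H),
          ∑ g, Z g (m + j) * (starRingEnd ℂ) (Z g (m + j'))‖ := by
      rw [← hW, ← Complex.ofReal_sum, Complex.norm_real, Real.norm_of_nonneg]
      positivity
    rw [h1, Helper170.Weyl.double_sum]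
    refine (norm_add_le _ _).trans ?_
    have h2 : ‖∑ n ∈ range H, ∑ m ∈ range (L + H), ∑ g, Z g (m + n) * (starRingEnd ℂ) (Z g (m + n))‖ ≤
        H * (Fintype.card κ * L) := by
      have : ∀ n ∈ range H, ∑ m ∈ range (L + H),
          ∑ g, Z g (m + n) * (starRingEnd ℂ) (Z g (m + n)) = c 0 := by
        intro n hn
        have := hpair n 0 (by simpa using mem_range.mp hn)
        simpa using this
      rw [sum_congr rfl this, sum_const, card_range, nsmul_eq_mul, norm_mul, Complex.norm_natCast]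
      gcongr
      simp only [hc, Nat.sub_zero, add_zero]
      refine (norm_sum_le _ _).trans ?_
      calc ∑ i ∈ range L, ‖∑ g, z g i * (starRingEnd ℂ) (z g i)‖
          ≤ ∑ i ∈ range L, (Fintype.card κ : ℝ) := by
            refine sum_le_sum fun i _ => ?_
            refine (norm_sum_le _ _).trans ((sum_le_card_nsmul _ _ 1 fun g _ => ?_).trans ?_)
            · rw [norm_mul, Complex.norm_conj]
              nlinarith [hz g i, norm_nonneg (z g i)]
            · rw [card_univ, nsmul_eq_mul, mul_one]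
        _ = Fintype.card κ * L := by simp; ring
    have h3 : ‖∑ l ∈ Ico 1 H, ∑ n ∈ range (H - l),
        ((∑ m ∈ range (L + H), ∑ g, Z g (m + (n + l)) * (starRingEnd ℂ) (Z g (m + n))) +
          ∑ m ∈ range (L + H), ∑ g, Z g (m + n) * (starRingEnd ℂ) (Z g (m + (n + l))))‖ ≤
        H * (2 * ∑ l ∈ Ico 1 H, ‖c l‖) := by
      refine (norm_sum_le _ _).trans ?_
      rw [mul_sum, mul_sum]
      refine sum_le_sum fun l hl => ?_
      have hl' := mem_Ico.mp hl
      have h4 : ∀ n ∈ range (H - l),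
          ((∑ m ∈ range (L + H), ∑ g, Z g (m + (n + l)) * (starRingEnd ℂ) (Z g (m + n))) +
          ∑ m ∈ range (L + H), ∑ g, Z g (m + n) * (starRingEnd ℂ) (Z g (m + (n + l)))) =
          c l + (starRingEnd ℂ) (c l) := by
        intro n hn
        have hn' := mem_range.mp hn
        have h5 := hpair n l (by omega)
        rw [h5]
        congr 1
        rw [← h5, map_sum]
        refine sum_congr rfl fun m _ => ?_
        rw [map_sum]
        refine sum_congr rfl fun g _ => ?_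
        rw [map_mul, Complex.conj_conj, mul_comm]
      rw [sum_congr rfl h4, sum_const, card_range, nsmul_eq_mul, norm_mul, Complex.norm_natCast]
      have h6 : ‖c l + (starRingEnd ℂ) (c l)‖ ≤ 2 * ‖c l‖ := by
        refine (norm_add_le _ _).trans ?_
        rw [Complex.norm_conj]; linarith
      have h7 : ((H - l : ℕ) : ℝ) ≤ H := by exact_mod_cast Nat.sub_le _ _
      calc ((H - l : ℕ) : ℝ) * ‖c l + (starRingEnd ℂ) (c l)‖ ≤ H * (2 * ‖c l‖) := by gcongr
        _ = _ := by ring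
    have e1 : (H : ℝ) * (Fintype.card κ * L + 2 * ∑ l ∈ Ico 1 H, ‖c l‖) =
      H * (Fintype.card κ * L) + H * (2 * ∑ l ∈ Ico 1 H, ‖c l‖) := by ring
    rw [e1]
    exact add_le_add h2 h3
  have hCS : ∀ g, ‖∑ m ∈ range (L + H), ∑ j ∈ range H, Z g (m + j)‖ ^ 2 ≤
      (L + H) * ∑ m ∈ range (L + H), ‖∑ j ∈ range H, Z g (m + j)‖ ^ 2 := by
    intro g
    have h1 : ‖∑ m ∈ range (L + H), ∑ j ∈ range H, Z g (m + j)‖ ≤
        ∑ m ∈ range (L + H), ‖∑ j ∈ range H, Z g (m + j)‖ := norm_sum_le _ _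
    have h2 := sq_sum_le_card_mul_sum_sq (s := range (L + H)) (f := fun m => ‖∑ j ∈ range H, Z g (m + j)‖)
    rw [card_range] at h2
    push_cast at h2
    refine le_trans ?_ h2
    gcongr
  have hCS2 : ∑ g, (H : ℝ) ^ 2 * ‖∑ n ∈ range L, z g n‖ ^ 2 ≤
      (L + H) * ∑ m ∈ range (L + H), ∑ g, ‖∑ j ∈ range H, Z g (m + j)‖ ^ 2 := by
    rw [sum_comm, mul_sum]
    refine sum_le_sum fun g _ => ?_
    have := hCS g
    rw [hS, norm_mul, Complex.norm_natCast, mul_pow] at this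
    exact this
  have hH' : (0 : ℝ) < H := by exact_mod_cast hH
  have h8 : (H : ℝ) ^ 2 * ∑ g, ‖∑ n ∈ range L, z g n‖ ^ 2 ≤
      (L + H) * (H * (Fintype.card κ * L + 2 * ∑ l ∈ Ico 1 H, ‖c l‖)) := by
    rw [mul_sum]
    exact hCS2.trans (by gcongr)
  have h9 : (H : ℝ) * (H * ∑ g, ‖∑ n ∈ range L, z g n‖ ^ 2) ≤
      H * ((L + H) * (Fintype.card κ * L + 2 * ∑ l ∈ Ico 1 H, ‖c l‖)) := by
    calc _ = (H : ℝ) ^ 2 * ∑ g, ‖∑ n ∈ range L, z g n‖ ^ 2 := by ring
      _ ≤ _ := h8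
      _ = _ := by ring
  exact le_of_mul_le_mul_left h9 hH'

open Pool.Agent.U602.MS (bd bd_nonneg bad_sum)
open Pool.Agent.U602.MB (sum_perm crt_sum prod_diff_le)

variable {ι : Type} [Fintype ι] [DecidableEq ι]

lemma shift_gen (b k : ι → ℕ) (hb : ∀ i, 2 ≤ b i)
    (hcop : ∀ i j, i ≠ j → (b i).Coprime (b j)) (i₀ : ι) (p q : ℕ) (hp : ∀ i, p.Coprime (b i))
    (hq : ∀ i, q.Coprime (b i)) (M : ι → ℕ) (u v : ι → ℕ) (l : ℕ) (F P : ι → ℕ → ℂ)
    (hF1 : ∀ i x, ‖F i x‖ ≤ 1) (hP1 : ∀ i x, ‖P i x‖ ≤ 1)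
    (hPp : ∀ i n, P i (n + b i ^ (M i + (k i - 1))) = P i n)
    (hFP : ∀ i x, (p * x + u i) % b i ^ M i + p * l < b i ^ M i →
      (q * x + v i) % b i ^ M i + q * l < b i ^ M i → F i x = P i x) :
    ‖∑ x ∈ range (∏ i, b i ^ (M i + (k i - 1))), ∏ i, F i x‖ ≤
      ((∏ i ∈ univ.erase i₀, b i ^ (M i + (k i - 1)) : ℕ) : ℝ) *
        ‖∑ x ∈ range (b i₀ ^ (M i₀ + (k i₀ - 1))), F i₀ x‖ +
      4 * ((∏ i, b i ^ (M i + (k i - 1)) : ℕ) : ℝ) * ((p + q) * l) *
        ∑ i, 1 / ((b i ^ M i : ℕ) : ℝ) := by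
  set m : ι → ℕ := fun i => b i ^ (M i + (k i - 1)) with hm
  have hm0 : ∀ i, 0 < m i := fun i => by have := hb i; rw [hm]; positivity
  set P' : ℕ := ∏ i ∈ univ.erase i₀, m i with hP'
  set N : ℕ := ∏ i, m i with hN
  have hNN : N = m i₀ * P' := (mul_prod_erase univ m (mem_univ i₀)).symm
  have hR0 : ∀ i, (0 : ℝ) < ((b i ^ M i : ℕ) : ℝ) := fun i => by
    have : 0 < b i ^ M i := by have := hb i; positivity
    exact_mod_cast this
  have hcp : ∀ i, p.Coprime (b i ^ M i) := fun i => (hp i).pow_right _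
  have hcq : ∀ i, q.Coprime (b i ^ M i) := fun i => (hq i).pow_right _
  -- the number of carries below a multiple
  have hbad : ∀ i (T : ℕ), (b i ^ M i) ∣ T → ∑ x ∈ range T, bd (b i ^ M i) p q (u i) (v i) l x ≤
      2 * (T : ℝ) * ((p + q) * l) * (1 / ((b i ^ M i : ℕ) : ℝ)) := by
    rintro i T ⟨T', rfl⟩
    refine (bad_sum _ p q (u i) (v i) l T' (hcp i) (hcq i)).trans ?_
    apply le_of_eq
    have := (hR0 i).ne'
    rw [Nat.cast_mul]
    field_simp
  -- one factor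
  have hone : ∀ i x, ‖F i x - P i x‖ ≤ bd (b i ^ M i) p q (u i) (v i) l x := by
    intro i x
    by_cases hcar : b i ^ M i ≤ (p * x + u i) % b i ^ M i + p * l ∨
        b i ^ M i ≤ (q * x + v i) % b i ^ M i + q * l
    · have e1 : ‖F i x - P i x‖ ≤ 2 := by
        refine (norm_sub_le _ _).trans ?_
        have := hF1 i x
        have := hP1 i x
        linarith
      refine e1.trans ?_
      unfold bd
      rcases hcar with hi | hi
      · rw [if_pos hi]
        have : (0 : ℝ) ≤ (if b i ^ M i ≤ (q * x + v i) % b i ^ M i + q * l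
          then (2 : ℝ) else 0) := by positivity
        linarith
      · rw [if_pos hi]
        have : (0 : ℝ) ≤ (if b i ^ M i ≤ (p * x + u i) % b i ^ M i + p * l
          then (2 : ℝ) else 0) := by positivity
        linarith
    · push Not at hcar
      rw [hFP i x hcar.1 hcar.2, sub_self, norm_zero]
      exact bd_nonneg _ _ _ _ _ _ _
  -- the difference
  have hd : ∀ (x : ℕ), ‖∏ i, F i x - ∏ i, P i x‖ ≤ ∑ i, bd (b i ^ M i) p q (u i) (v i) l x := by
    intro x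
    by_cases hcar : ∃ i, F i x ≠ P i x
    · obtain ⟨i, hi⟩ := hcar
      refine (prod_diff_le univ _ _ (fun i _ => hF1 i x) (fun i _ => hP1 i x)).trans ?_
      refine le_trans ?_ (single_le_sum (f := fun i => bd (b i ^ M i) p q (u i) (v i) l x)
          (fun i _ => bd_nonneg _ _ _ _ _ _ _) (mem_univ i))
      show 2 ≤ bd (b i ^ M i) p q (u i) (v i) l x
      have hcar : b i ^ M i ≤ (p * x + u i) % b i ^ M i + p * l ∨
          b i ^ M i ≤ (q * x + v i) % b i ^ M i + q * l := by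
        by_contra hno
        push Not at hno
        exact hi (hFP i x hno.1 hno.2)
      unfold bd
      rcases hcar with hi | hi
      · rw [if_pos hi]
        have : (0 : ℝ) ≤ (if b i ^ M i ≤ (q * x + v i) % b i ^ M i + q * l then (2 : ℝ) else 0) := by
          positivity
        linarith
      · rw [if_pos hi]
        have : (0 : ℝ) ≤ (if b i ^ M i ≤ (p * x + u i) % b i ^ M i + p * l then (2 : ℝ) else 0) := by
          positivity
        linarith
    · push Not at hcar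
      have : ∏ i, F i x = ∏ i, P i x := prod_congr rfl fun i _ => hcar i
      rw [this, sub_self, norm_zero]
      exact sum_nonneg fun i _ => bd_nonneg _ _ _ _ _ _ _
  have h1 : ‖∑ x ∈ range N, ∏ i, F i x - ∑ x ∈ range N, ∏ i, P i x‖ ≤
      2 * (N : ℝ) * ((p + q) * l) * ∑ i, 1 / ((b i ^ M i : ℕ) : ℝ) := by
    rw [← sum_sub_distrib]
    refine (norm_sum_le _ _).trans ?_
    refine (sum_le_sum fun x _ => hd x).trans ?_
    rw [sum_comm, mul_sum]
    refine sum_le_sum fun i _ => hbad i N ?_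
    refine Dvd.dvd.trans ?_ (dvd_prod_of_mem m (mem_univ i))
    rw [hm]
    exact pow_dvd_pow _ (by omega)
  have hFm : ∀ i t n, P i (n + m i * t) = P i n := by
    intro i t
    induction t with
    | zero => intro n; simp
    | succ t ih => intro n; rw [Nat.mul_succ, ← add_assoc, hPp, ih]
  have hRper : ∀ n, ∏ i ∈ univ.erase i₀, P i (n + P') = ∏ i ∈ univ.erase i₀, P i n := by
    intro n
    refine prod_congr rfl fun i hi => ?_
    obtain ⟨t, ht⟩ : m i ∣ P' := dvd_prod_of_mem m hi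
    rw [ht, hFm]
  have hcop' : (m i₀).Coprime P' := by
    rw [hP']
    apply Nat.Coprime.prod_right
    intro i hi
    rw [hm]
    exact ((hcop i₀ i (ne_of_mem_erase hi).symm).pow_left _).pow_right _
  have h2 : ∑ x ∈ range N, ∏ i, P i x =
      (∑ x ∈ range (m i₀), P i₀ x) * ∑ x ∈ range P', ∏ i ∈ univ.erase i₀, P i x := by
    rw [hNN, ← crt_sum _ _ hcop' _ _ (hPp i₀) hRper]
    refine sum_congr rfl fun x _ => ?_
    exact (mul_prod_erase univ _ (mem_univ i₀)).symm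
  have h3 : ‖∑ x ∈ range P', ∏ i ∈ univ.erase i₀, P i x‖ ≤ P' := by
    refine (norm_sum_le _ _).trans ?_
    refine (sum_le_card_nsmul _ _ 1 fun x _ => ?_).trans ?_
    · rw [norm_prod]
      exact prod_le_one (fun i _ => norm_nonneg _) (fun i _ => hP1 i x)
    · rw [card_range, nsmul_eq_mul, mul_one]
  have h4 : ‖∑ x ∈ range (m i₀), F i₀ x - ∑ x ∈ range (m i₀), P i₀ x‖ ≤
      2 * (m i₀ : ℝ) * ((p + q) * l) * (1 / ((b i₀ ^ M i₀ : ℕ) : ℝ)) := by
    rw [← sum_sub_distrib]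
    refine (norm_sum_le _ _).trans ?_
    exact le_trans (sum_le_sum fun x _ => hone i₀ x) (hbad i₀ (m i₀) (by
      rw [hm]; exact pow_dvd_pow _ (by omega)))
  -- conclusion
  set C := ‖∑ x ∈ range (m i₀), F i₀ x‖ with hC
  have h5 : ‖∑ x ∈ range (m i₀), P i₀ x‖ ≤
      C + 2 * (m i₀ : ℝ) * ((p + q) * l) * (1 / ((b i₀ ^ M i₀ : ℕ) : ℝ)) := by
    have := norm_sub_norm_le (∑ x ∈ range (m i₀), P i₀ x) (∑ x ∈ range (m i₀), F i₀ x)
    rw [norm_sub_rev] at this
    linarith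
  have h6 : ‖∑ x ∈ range N, ∏ i, P i x‖ ≤
      (C + 2 * (m i₀ : ℝ) * ((p + q) * l) * (1 / ((b i₀ ^ M i₀ : ℕ) : ℝ))) * P' := by
    rw [h2, norm_mul]
    exact mul_le_mul h5 h3 (norm_nonneg _) ((norm_nonneg _).trans h5)
  have h7 : 1 / ((b i₀ ^ M i₀ : ℕ) : ℝ) ≤ ∑ i, 1 / ((b i ^ M i : ℕ) : ℝ) :=
    single_le_sum (f := fun i => 1 / ((b i ^ M i : ℕ) : ℝ)) (fun i _ => by positivity)
      (mem_univ i₀)
  have h8 : ‖∑ x ∈ range N, ∏ i, F i x‖ ≤ ‖∑ x ∈ range N, ∏ i, P i x‖ +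
      2 * (N : ℝ) * ((p + q) * l) * ∑ i, 1 / ((b i ^ M i : ℕ) : ℝ) := by
    have := norm_add_le (∑ x ∈ range N, ∏ i, F i x - ∑ x ∈ range N, ∏ i, P i x)
      (∑ x ∈ range N, ∏ i, P i x)
    rw [sub_add_cancel] at this
    linarith
  refine h8.trans ?_
  have hNR : (N : ℝ) = m i₀ * P' := by rw [hNN]; push_cast; ring
  have h9 : 2 * (m i₀ : ℝ) * ((p + q) * l) * (1 / ((b i₀ ^ M i₀ : ℕ) : ℝ)) * P' ≤
      2 * (N : ℝ) * ((p + q) * l) * ∑ i, 1 / ((b i ^ M i : ℕ) : ℝ) := by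
    have h10 : 0 ≤ 2 * (N : ℝ) * ((p + q) * l) := by positivity
    calc 2 * (m i₀ : ℝ) * ((p + q) * l) * (1 / ((b i₀ ^ M i₀ : ℕ) : ℝ)) * P' =
        2 * (N : ℝ) * ((p + q) * l) * (1 / ((b i₀ ^ M i₀ : ℕ) : ℝ)) := by rw [hNR]; ring
      _ ≤ _ := mul_le_mul_of_nonneg_left h7 h10
  have h11 : (C + 2 * (m i₀ : ℝ) * ((p + q) * l) * (1 / ((b i₀ ^ M i₀ : ℕ) : ℝ))) * P' =
      P' * C + 2 * (m i₀ : ℝ) * ((p + q) * l) * (1 / ((b i₀ ^ M i₀ : ℕ) : ℝ)) * P' := by ring
  rw [h11] at h6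
  linarith

end Pool.Agent.U602.NA
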